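import Mathlib

/-!
A bound for families of sets with weighted star, tetrahedron and square conditions.
-/

namespace Pool.Agent.Lib.MP_74dbbd_co

open Finset

variable {J : Type*} [DecidableEq J]

/-- The weight of the row `r` at the set `S`. -/
noncomputable def vl (σ β : J → ℝ) (S : Finset J) (r : J) : ℝ := if r ∈ S then β r else σ r

/-- The hypotheses on a family of subsets of `K`. -/
structure Good (σ β : J → ℝ) (c : ℝ) (K : Finset J) (𝒜 : Finset (Finset J)) : Prop where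
  c0 : 0 < c
  c1 : c < 1
  sum : ∀ j ∈ K, σ j + β j = 1
  nn : ∀ j ∈ K, 0 ≤ σ j
  le : ∀ j ∈ K, σ j ≤ β j
  typ : ∀ j ∈ K, β j - σ j ≤ c ∨ σ j = 0
  sub : ∀ S ∈ 𝒜, S ⊆ K
  star : ∀ S ∈ 𝒜, ∀ T ⊆ K, (∀ r ∈ T, ∃ S' ∈ 𝒜, (r ∈ S' ↔ r ∉ S) ∧
    ∀ u ∈ T, u ≠ r → (u ∈ S' ↔ u ∈ S)) → ∑ r ∈ T, vl σ β S r ≤ (3 - c) / 2
  tet : ∀ a ∈ K, ∀ b ∈ K, ∀ d ∈ K, a ≠ b → a ≠ d → b ≠ d → ∀ S0 ∈ 𝒜, ∀ S1 ∈ 𝒜, ∀ S2 ∈ 𝒜,
    ∀ S3 ∈ 𝒜, a ∉ S0 → b ∉ S0 → d ∉ S0 → a ∈ S1 → b ∈ S1 → d ∉ S1 → a ∈ S2 → b ∉ S2 →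
    d ∈ S2 → a ∉ S3 → b ∈ S3 → d ∈ S3 → False
  sq : ∀ a ∈ K, ∀ b ∈ K, ∀ r ∈ K, a ≠ b → a ≠ r → b ≠ r → 1 / 2 < β r →
    ∀ S0 ∈ 𝒜, ∀ S1 ∈ 𝒜, ∀ S2 ∈ 𝒜, ∀ S3 ∈ 𝒜, r ∈ S0 → r ∈ S1 → r ∈ S2 → r ∈ S3 →
    a ∉ S0 → b ∉ S0 → a ∈ S1 → b ∉ S1 → a ∉ S2 → b ∈ S2 → a ∈ S3 → b ∈ S3 → False

/-- The sets `Q` of the family with `j ∉ Q` and `insert j Q` in the family. -/
def dbl (𝒜 : Finset (Finset J)) (j : J) : Finset (Finset J) :=
  𝒜.filter fun Q => j ∉ Q ∧ insert j Q ∈ 𝒜

theorem mem_dbl {𝒜 : Finset (Finset J)} {j : J} {Q : Finset J} :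
    Q ∈ dbl 𝒜 j ↔ Q ∈ 𝒜 ∧ j ∉ Q ∧ insert j Q ∈ 𝒜 := by
  simp [dbl]

theorem card_le_add (𝒜 : Finset (Finset J)) (j : J) :
    𝒜.card ≤ (𝒜.image fun S => S.erase j).card + (dbl 𝒜 j).card := by
  rw [← card_memberSubfamily_add_card_nonMemberSubfamily j 𝒜, ← card_union_add_card_inter]
  refine add_le_add (card_le_card ?_) (card_le_card ?_)
  · intro S hS
    rw [mem_union, mem_memberSubfamily, mem_nonMemberSubfamily] at hS
    rw [mem_image]
    rcases hS with ⟨h1, h2⟩ | ⟨h1, h2⟩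
    · exact ⟨_, h1, erase_insert h2⟩
    · exact ⟨_, h1, erase_eq_of_notMem h2⟩
  · intro S hS
    rw [mem_inter, mem_memberSubfamily, mem_nonMemberSubfamily] at hS
    exact mem_dbl.2 ⟨hS.2.1, hS.1.2, hS.1.1⟩

variable {σ β : J → ℝ} {c : ℝ} {K : Finset J} {𝒜 : Finset (Finset J)}

namespace Good

theorem erase (h : Good σ β c K 𝒜) (j : J) :
    Good σ β c (K.erase j) (𝒜.image fun S => S.erase j) := by
  have key : ∀ {S : Finset J} {u : J}, u ∈ K.erase j → (u ∈ S.erase j ↔ u ∈ S) := by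
    intro S u hu
    rw [mem_erase]
    exact ⟨fun h => h.2, fun h => ⟨(mem_erase.1 hu).1, h⟩⟩
  refine ⟨h.c0, h.c1, fun i hi => h.sum i (mem_of_mem_erase hi),
    fun i hi => h.nn i (mem_of_mem_erase hi), fun i hi => h.le i (mem_of_mem_erase hi),
    fun i hi => h.typ i (mem_of_mem_erase hi), ?_, ?_, ?_, ?_⟩
  · intro S hS
    obtain ⟨S', hS', rfl⟩ := mem_image.1 hS
    exact erase_subset_erase j (h.sub S' hS')
  · intro S hS T hT hst
    obtain ⟨S₀, hS₀, rfl⟩ := mem_image.1 hS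
    have := h.star S₀ hS₀ T (hT.trans (erase_subset _ _)) (by
      intro r hr
      obtain ⟨S', hS', h1, h2⟩ := hst r hr
      obtain ⟨S₁, hS₁, rfl⟩ := mem_image.1 hS'
      rw [key (hT hr), key (hT hr)] at h1
      refine ⟨S₁, hS₁, h1, fun u hu hne => ?_⟩
      have := h2 u hu hne
      rwa [key (hT hu), key (hT hu)] at this)
    refine le_trans (le_of_eq ?_) this
    refine sum_congr rfl fun u hu => ?_
    simp only [vl, key (hT hu)]
  · intro a ha b hb d hd hab had hbd S0 h0 S1 h1 S2 h2 S3 h3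
    obtain ⟨S0, g0, rfl⟩ := mem_image.1 h0
    obtain ⟨S1, g1, rfl⟩ := mem_image.1 h1
    obtain ⟨S2, g2, rfl⟩ := mem_image.1 h2
    obtain ⟨S3, g3, rfl⟩ := mem_image.1 h3
    simp only [key ha, key hb, key hd]
    exact h.tet a (mem_of_mem_erase ha) b (mem_of_mem_erase hb) d (mem_of_mem_erase hd) hab had
      hbd S0 g0 S1 g1 S2 g2 S3 g3
  · intro a ha b hb r hr hab har hbr hβ S0 h0 S1 h1 S2 h2 S3 h3
    obtain ⟨S0, g0, rfl⟩ := mem_image.1 h0
    obtain ⟨S1, g1, rfl⟩ := mem_image.1 h1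
    obtain ⟨S2, g2, rfl⟩ := mem_image.1 h2
    obtain ⟨S3, g3, rfl⟩ := mem_image.1 h3
    simp only [key ha, key hb, key hr]
    exact h.sq a (mem_of_mem_erase ha) b (mem_of_mem_erase hb) r (mem_of_mem_erase hr) hab har
      hbr hβ S0 g0 S1 g1 S2 g2 S3 g3

theorem star2 (h : Good σ β c K 𝒜) {S A B : Finset J} {a b : J} (hS : S ∈ 𝒜) (hA : A ∈ 𝒜)
    (hB : B ∈ 𝒜) (ha : a ∈ K) (hb : b ∈ K) (hab : a ≠ b)
    (h1 : a ∈ A ↔ a ∉ S) (h2 : b ∈ A ↔ b ∈ S) (h3 : a ∈ B ↔ a ∈ S) (h4 : b ∈ B ↔ b ∉ S) :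
    vl σ β S a + vl σ β S b ≤ (3 - c) / 2 := by
  have := h.star S hS {a, b} (by intro x; simp; rintro (rfl | rfl) <;> assumption) (by
    intro r hr
    rcases mem_insert.1 hr with rfl | hr
    · refine ⟨A, hA, h1, ?_⟩
      intro u hu hne
      rcases mem_insert.1 hu with rfl | hu
      · exact absurd rfl hne
      · rw [mem_singleton.1 hu]; exact h2
    · rw [mem_singleton.1 hr]
      refine ⟨B, hB, h4, ?_⟩
      intro u hu hne
      rcases mem_insert.1 hu with rfl | hu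
      · exact h3
      · exact absurd (mem_singleton.1 hu) hne)
  rwa [sum_pair hab] at this

theorem star3 (h : Good σ β c K 𝒜) {S A B C : Finset J} {a b d : J} (hS : S ∈ 𝒜)
    (hA : A ∈ 𝒜) (hB : B ∈ 𝒜) (hC : C ∈ 𝒜) (ha : a ∈ K) (hb : b ∈ K) (hd : d ∈ K)
    (hab : a ≠ b) (had : a ≠ d) (hbd : b ≠ d)
    (h1 : a ∈ A ↔ a ∉ S) (h2 : b ∈ A ↔ b ∈ S) (h3 : d ∈ A ↔ d ∈ S)
    (h4 : a ∈ B ↔ a ∈ S) (h5 : b ∈ B ↔ b ∉ S) (h6 : d ∈ B ↔ d ∈ S)
    (h7 : a ∈ C ↔ a ∈ S) (h8 : b ∈ C ↔ b ∈ S) (h9 : d ∈ C ↔ d ∉ S) :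
    vl σ β S a + vl σ β S b + vl σ β S d ≤ (3 - c) / 2 := by
  have := h.star S hS {a, b, d} (by
    intro x; simp only [mem_insert, mem_singleton]; rintro (rfl | rfl | rfl) <;> assumption) (by
    intro r hr
    simp only [mem_insert, mem_singleton] at hr
    rcases hr with rfl | rfl | rfl
    · refine ⟨A, hA, h1, ?_⟩
      intro u hu hne
      simp only [mem_insert, mem_singleton] at hu
      rcases hu with rfl | rfl | rfl
      · exact absurd rfl hne
      · exact h2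
      · exact h3
    · refine ⟨B, hB, h5, ?_⟩
      intro u hu hne
      simp only [mem_insert, mem_singleton] at hu
      rcases hu with rfl | rfl | rfl
      · exact h4
      · exact absurd rfl hne
      · exact h6
    · refine ⟨C, hC, h9, ?_⟩
      intro u hu hne
      simp only [mem_insert, mem_singleton] at hu
      rcases hu with rfl | rfl | rfl
      · exact h7
      · exact h8
      · exact absurd rfl hne)
  rw [sum_insert (by simp [hab, had]), sum_pair hbd] at this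
  linarith

theorem star4 (h : Good σ β c K 𝒜) {S A B C D : Finset J} {a b d e : J} (hS : S ∈ 𝒜)
    (hA : A ∈ 𝒜) (hB : B ∈ 𝒜) (hC : C ∈ 𝒜) (hD : D ∈ 𝒜)
    (ha : a ∈ K) (hb : b ∈ K) (hd : d ∈ K) (he : e ∈ K)
    (hab : a ≠ b) (had : a ≠ d) (hae : a ≠ e) (hbd : b ≠ d) (hbe : b ≠ e) (hde : d ≠ e)
    (h1 : (a ∈ A ↔ a ∉ S) ∧ (b ∈ A ↔ b ∈ S) ∧ (d ∈ A ↔ d ∈ S) ∧ (e ∈ A ↔ e ∈ S))
    (h2 : (a ∈ B ↔ a ∈ S) ∧ (b ∈ B ↔ b ∉ S) ∧ (d ∈ B ↔ d ∈ S) ∧ (e ∈ B ↔ e ∈ S))
    (h3 : (a ∈ C ↔ a ∈ S) ∧ (b ∈ C ↔ b ∈ S) ∧ (d ∈ C ↔ d ∉ S) ∧ (e ∈ C ↔ e ∈ S))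
    (h4 : (a ∈ D ↔ a ∈ S) ∧ (b ∈ D ↔ b ∈ S) ∧ (d ∈ D ↔ d ∈ S) ∧ (e ∈ D ↔ e ∉ S)) :
    vl σ β S a + vl σ β S b + vl σ β S d + vl σ β S e ≤ (3 - c) / 2 := by
  have := h.star S hS {a, b, d, e} (by
    intro x; simp only [mem_insert, mem_singleton]
    rintro (rfl | rfl | rfl | rfl) <;> assumption) (by
    intro r hr
    simp only [mem_insert, mem_singleton] at hr
    rcases hr with rfl | rfl | rfl | rfl
    · refine ⟨A, hA, h1.1, ?_⟩
      intro u hu hne
      simp only [mem_insert, mem_singleton] at hu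
      rcases hu with rfl | rfl | rfl | rfl
      · exact absurd rfl hne
      · exact h1.2.1
      · exact h1.2.2.1
      · exact h1.2.2.2
    · refine ⟨B, hB, h2.2.1, ?_⟩
      intro u hu hne
      simp only [mem_insert, mem_singleton] at hu
      rcases hu with rfl | rfl | rfl | rfl
      · exact h2.1
      · exact absurd rfl hne
      · exact h2.2.2.1
      · exact h2.2.2.2
    · refine ⟨C, hC, h3.2.2.1, ?_⟩
      intro u hu hne
      simp only [mem_insert, mem_singleton] at hu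
      rcases hu with rfl | rfl | rfl | rfl
      · exact h3.1
      · exact h3.2.1
      · exact absurd rfl hne
      · exact h3.2.2.2
    · refine ⟨D, hD, h4.2.2.2, ?_⟩
      intro u hu hne
      simp only [mem_insert, mem_singleton] at hu
      rcases hu with rfl | rfl | rfl | rfl
      · exact h4.1
      · exact h4.2.1
      · exact h4.2.2.1
      · exact absurd rfl hne)
  rw [sum_insert (by simp [hab, had, hae]), sum_insert (by simp [hbd, hbe]), sum_pair hde] at this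
  linarith

theorem star0 (h : Good σ β c K 𝒜) {S T : Finset J} (hS : S ∈ 𝒜) (hT : T ⊆ K)
    (hST : ∀ u ∈ T, u ∉ S) (hW : ∀ u ∈ T, ∃ S' ∈ 𝒜, u ∈ S' ∧ ∀ v ∈ T, v ≠ u → v ∉ S') :
    ∑ u ∈ T, σ u ≤ (3 - c) / 2 := by
  have := h.star S hS T hT (by
    intro r hr
    obtain ⟨S', h1, h2, h3⟩ := hW r hr
    refine ⟨S', h1, ⟨fun _ => hST r hr, fun _ => h2⟩, fun u hu hne => ?_⟩
    exact ⟨fun hc => absurd hc (h3 u hu hne), fun hc => absurd hc (hST u hu)⟩)
  refine le_trans (le_of_eq (sum_congr rfl fun u hu => ?_)) this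
  rw [vl, if_neg (hST u hu)]

theorem vl_ge (h : Good σ β c K 𝒜) {S : Finset J} {r : J} (hr : r ∈ K) : σ r ≤ vl σ β S r := by
  unfold vl
  split_ifs
  · exact h.le r hr
  · exact le_rfl

/-- two members of `dbl` -/
theorem beta_le (h : Good σ β c K 𝒜) {j : J} (hj : j ∈ K) (h2 : 1 < (dbl 𝒜 j).card) :
    β j ≤ 1 - c / 2 := by
  obtain ⟨Q, hQ, Q', hQ', hne⟩ := one_lt_card.1 h2
  rw [mem_dbl] at hQ hQ'
  obtain ⟨r, hr⟩ : ∃ r, ¬ (r ∈ Q ↔ r ∈ Q') := by
    by_contra hcon
    push Not at hcon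
    exact hne (Finset.ext hcon)
  have hrj : j ≠ r := by
    rintro rfl
    exact hr ⟨fun h => absurd h hQ.2.1, fun h => absurd h hQ'.2.1⟩
  have hrK : r ∈ K := by
    by_contra hrK
    exact hr ⟨fun h' => absurd (h.sub Q hQ.1 h') hrK, fun h' => absurd (h.sub Q' hQ'.1 h') hrK⟩
  have e1 := h.star2 (S := insert j Q) (A := Q) (B := insert j Q') (a := j) (b := r)
    hQ.2.2 hQ.1 hQ'.2.2 hj hrK hrj (by simp [hQ.2.1]) (by simp [hrj.symm]) (by simp)
    (by simp only [mem_insert, hrj.symm, false_or]; tauto)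
  have e2 := h.star2 (S := insert j Q') (A := Q') (B := insert j Q) (a := j) (b := r)
    hQ'.2.2 hQ'.1 hQ.2.2 hj hrK hrj (by simp [hQ'.2.1]) (by simp [hrj.symm]) (by simp)
    (by simp only [mem_insert, hrj.symm, false_or]; tauto)
  have e3 : vl σ β (insert j Q) r + vl σ β (insert j Q') r = 1 := by
    have := h.sum r hrK
    simp only [vl, mem_insert, hrj.symm, false_or]
    by_cases h1 : r ∈ Q <;> by_cases h2 : r ∈ Q'
    · exact absurd ⟨fun _ => h2, fun _ => h1⟩ hr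
    · rw [if_pos h1, if_neg h2]; linarith
    · rw [if_neg h1, if_pos h2]; linarith
    · exact absurd ⟨fun h => absurd h h1, fun h => absurd h h2⟩ hr
  have e4 : vl σ β (insert j Q) j = β j := by simp [vl]
  have e5 : vl σ β (insert j Q') j = β j := by simp [vl]
  linarith

/-- the row `r` separates `Q` from `Q'` and `Q''` -/
theorem corner (h : Good σ β c K 𝒜) {j r : J} (hj : j ∈ K) {Q Q' Q'' : Finset J}
    (hQ : Q ∈ dbl 𝒜 j) (hQ' : Q' ∈ dbl 𝒜 j) (hQ'' : Q'' ∈ dbl 𝒜 j) (hne : Q' ≠ Q'')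
    (h1 : r ∈ Q' ↔ r ∉ Q) (h2 : r ∈ Q'' ↔ r ∉ Q) :
    r ∈ K ∧ ∃ (C : Finset J) (s : J), (C = Q' ∨ C = Q'') ∧ s ∈ K ∧
      β j + vl σ β C r + vl σ β C s ≤ (3 - c) / 2 := by
  rw [mem_dbl] at hQ hQ' hQ''
  obtain ⟨s, hs⟩ : ∃ s, ¬ (s ∈ Q' ↔ s ∈ Q'') := by
    by_contra hcon
    push Not at hcon
    exact hne (Finset.ext hcon)
  have hjr : j ≠ r := by
    rintro rfl
    have := h1.2 hQ.2.1
    exact hQ'.2.1 this
  have hrK : r ∈ K := by
    by_cases hrQ : r ∈ Q
    · exact h.sub Q hQ.1 hrQ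
    · exact h.sub Q' hQ'.1 (h1.2 hrQ)
  have hrs : r ≠ s := by
    rintro rfl
    exact hs (h1.trans h2.symm)
  have hjs : j ≠ s := by
    rintro rfl
    exact hs ⟨fun h => absurd h hQ'.2.1, fun h => absurd h hQ''.2.1⟩
  have hsK : s ∈ K := by
    by_contra hsK
    exact hs ⟨fun h' => absurd (h.sub Q' hQ'.1 h') hsK, fun h' => absurd (h.sub Q'' hQ''.1 h') hsK⟩
  refine ⟨hrK, ?_⟩
  by_cases hc : s ∈ Q ↔ s ∈ Q'
  · refine ⟨Q', s, Or.inl rfl, hsK, ?_⟩
    have e := h.star3 (S := insert j Q') (A := Q') (B := insert j Q) (C := insert j Q'')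
      (a := j) (b := r) (d := s) hQ'.2.2 hQ'.1 hQ.2.2 hQ''.2.2 hj hrK hsK hjr hjs hrs
      (by simp [hQ'.2.1]) (by simp [hjr.symm]) (by simp [hjs.symm]) (by simp)
      (by simp only [mem_insert, hjr.symm, false_or]; tauto)
      (by simp only [mem_insert, hjs.symm, false_or]; tauto) (by simp)
      (by simp only [mem_insert, hjr.symm, false_or]; tauto)
      (by simp only [mem_insert, hjs.symm, false_or]; tauto)
    have e4 : vl σ β (insert j Q') j = β j := by simp [vl]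
    have e5 : vl σ β (insert j Q') r = vl σ β Q' r := by simp [vl, hjr.symm]
    have e6 : vl σ β (insert j Q') s = vl σ β Q' s := by simp [vl, hjs.symm]
    rw [e4, e5, e6] at e
    exact e
  · refine ⟨Q'', s, Or.inr rfl, hsK, ?_⟩
    have e := h.star3 (S := insert j Q'') (A := Q'') (B := insert j Q) (C := insert j Q')
      (a := j) (b := r) (d := s) hQ''.2.2 hQ''.1 hQ.2.2 hQ'.2.2 hj hrK hsK hjr hjs hrs
      (by simp [hQ''.2.1]) (by simp [hjr.symm]) (by simp [hjs.symm]) (by simp)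
      (by simp only [mem_insert, hjr.symm, false_or]; tauto)
      (by simp only [mem_insert, hjs.symm, false_or]; tauto) (by simp)
      (by simp only [mem_insert, hjr.symm, false_or]; tauto)
      (by simp only [mem_insert, hjs.symm, false_or]; tauto)
    have e4 : vl σ β (insert j Q'') j = β j := by simp [vl]
    have e5 : vl σ β (insert j Q'') r = vl σ β Q'' r := by simp [vl, hjr.symm]
    have e6 : vl σ β (insert j Q'') s = vl σ β Q'' s := by simp [vl, hjs.symm]
    rw [e4, e5, e6] at e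
    exact e

end Good

/-- All rows have at least three double members. -/
structure Stk (σ β : J → ℝ) (c : ℝ) (K : Finset J) (𝒜 : Finset (Finset J)) : Prop
    extends Good σ β c K 𝒜 where
  three : ∀ j ∈ K, 2 < (dbl 𝒜 j).card

/-- The rows where the difference of the weights is maximal. -/
noncomputable def RR (σ β : J → ℝ) (c : ℝ) (K : Finset J) : Finset J := by
  classical exact K.filter fun j => β j - σ j = c

omit [DecidableEq J] in
theorem mem_RR {j : J} : j ∈ RR σ β c K ↔ j ∈ K ∧ β j - σ j = c := by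
  simp [RR]

namespace Stk

theorem ty (h : Stk σ β c K 𝒜) {j : J} (hj : j ∈ K) : β j - σ j ≤ c := by
  have h3 := h.three j hj
  have h1 := h.beta_le hj (by omega)
  have h2 := h.sum j hj
  have h0 := h.c0
  rcases h.typ j hj with h4 | h4
  · exact h4
  · linarith

theorem beta_eq (h : Stk σ β c K 𝒜) {j : J} (hj : j ∈ RR σ β c K) : β j = (1 + c) / 2 := by
  have h1 := mem_RR.1 hj
  have h2 := h.sum j h1.1
  linarith [h1.2]

theorem sigma_eq (h : Stk σ β c K 𝒜) {j : J} (hj : j ∈ RR σ β c K) : σ j = (1 - c) / 2 := by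
  have h1 := mem_RR.1 hj
  have h2 := h.sum j h1.1
  linarith [h1.2]

theorem sigma_ge (h : Stk σ β c K 𝒜) {j : J} (hj : j ∈ K) : (1 - c) / 2 ≤ σ j := by
  have h1 := h.ty hj
  have h2 := h.sum j hj
  linarith

theorem third (h : Stk σ β c K 𝒜) {j : J} (hj : j ∈ K) (A B : Finset J) :
    ∃ C ∈ dbl 𝒜 j, C ≠ A ∧ C ≠ B := by
  by_contra hcon
  push Not at hcon
  have : dbl 𝒜 j ⊆ {A, B} := by
    intro C hC
    rw [mem_insert, mem_singleton]
    by_cases hCA : C = A
    · exact Or.inl hCA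
    · exact Or.inr (hcon C hC hCA)
  have := card_le_card this
  have h2 := h.three j hj
  have h3 := card_le_two (a := A) (b := B)
  omega

theorem sep1 (h : Stk σ β c K 𝒜) {j r : J} (hj : j ∈ RR σ β c K) {Q Q' Q'' : Finset J}
    (hQ : Q ∈ dbl 𝒜 j) (hQ' : Q' ∈ dbl 𝒜 j) (hQ'' : Q'' ∈ dbl 𝒜 j) (hne : Q' ≠ Q'')
    (h1 : r ∈ Q' ↔ r ∉ Q) (h2 : r ∈ Q'' ↔ r ∉ Q) : r ∈ RR σ β c K ∧ r ∈ Q := by
  obtain ⟨hr, C, s, hC, hs, e⟩ := h.corner (mem_RR.1 hj).1 hQ hQ' hQ'' hne h1 h2
  have h3 := h.beta_eq hj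
  have h4 := h.vl_ge (S := C) hr
  have h5 := h.vl_ge (S := C) hs
  have h6 := h.sigma_ge hr
  have h7 := h.sigma_ge hs
  have h8 : vl σ β C r = (1 - c) / 2 := by linarith
  have h9 : σ r = (1 - c) / 2 := by linarith
  have h10 := h.sum r hr
  have h0 := h.c0
  have hrC : r ∉ C := by
    intro hrC
    rw [vl, if_pos hrC] at h8
    linarith
  refine ⟨mem_RR.2 ⟨hr, by linarith⟩, ?_⟩
  by_contra hrQ
  rcases hC with rfl | rfl
  · exact hrC (h1.2 hrQ)
  · exact hrC (h2.2 hrQ)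

theorem uniq (h : Stk σ β c K 𝒜) {j r : J} (hj : j ∈ RR σ β c K) {Q Q' : Finset J}
    (hQ : Q ∈ dbl 𝒜 j) (hQ' : Q' ∈ dbl 𝒜 j) (h1 : r ∈ Q) (h2 : r ∉ Q') :
    r ∈ RR σ β c K := by
  have hne : Q ≠ Q' := by
    rintro rfl
    exact h2 h1
  obtain ⟨Q3, hQ3, h3, h4⟩ := h.third (mem_RR.1 hj).1 Q Q'
  by_cases h5 : r ∈ Q3
  · exact absurd (h.sep1 hj hQ' hQ hQ3 h3.symm (by tauto) (by tauto)).2 h2
  · exact (h.sep1 hj hQ hQ' hQ3 h4.symm (by tauto) (by tauto)).1

theorem disj (h : Stk σ β c K 𝒜) {j r : J} (hj : j ∈ RR σ β c K) (hr : r ∈ RR σ β c K)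
    {Q Q' : Finset J} (hQ : Q ∈ dbl 𝒜 j) (hQ' : Q' ∈ dbl 𝒜 j) (hne : Q ≠ Q') (h1 : r ∈ Q) :
    r ∉ Q' := by
  intro h2
  rw [mem_dbl] at hQ hQ'
  have h0 := h.c0
  have h3 := h.beta_eq hr
  obtain ⟨s, hs⟩ : ∃ s, ¬ (s ∈ Q ↔ s ∈ Q') := by
    by_contra hcon
    push Not at hcon
    exact hne (Finset.ext hcon)
  have hrs : r ≠ s := by
    rintro rfl
    exact hs ⟨fun _ => h2, fun _ => h1⟩
  have hjs : j ≠ s := by
    rintro rfl
    exact hs ⟨fun h => absurd h hQ.2.1, fun h => absurd h hQ'.2.1⟩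
  have hjr : j ≠ r := by
    rintro rfl
    exact hQ.2.1 h1
  have hsK : s ∈ K := by
    by_contra hsK
    exact hs ⟨fun h' => absurd (h.sub Q hQ.1 h') hsK, fun h' => absurd (h.sub Q' hQ'.1 h') hsK⟩
  have main : ∀ A B : Finset J, (A ∈ 𝒜 ∧ j ∉ A ∧ insert j A ∈ 𝒜) →
      (B ∈ 𝒜 ∧ j ∉ B ∧ insert j B ∈ 𝒜) → r ∈ A → r ∈ B → s ∈ A → s ∉ B → False := by
    intro A B hA hB hrA hrB hsA hsB
    exact h.sq j (mem_RR.1 hj).1 s hsK r (mem_RR.1 hr).1 hjs hjr hrs.symm (by linarith)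
      B hB.1 (insert j B) hB.2.2 A hA.1 (insert j A) hA.2.2 hrB (mem_insert_of_mem hrB) hrA
      (mem_insert_of_mem hrA) hB.2.1 hsB (mem_insert_self _ _)
      (by simp [hjs.symm, hsB]) hA.2.1 hsA (mem_insert_self _ _) (mem_insert_of_mem hsA)
  by_cases hsQ : s ∈ Q
  · exact main Q Q' hQ hQ' h1 h2 hsQ (fun h => hs ⟨fun _ => h, fun _ => hsQ⟩)
  · exact main Q' Q hQ' hQ h2 h1 (by by_contra h; exact hs ⟨fun h' => absurd h' hsQ,
      fun h' => absurd h' h⟩) hsQ

theorem differ (h : Stk σ β c K 𝒜) {j : J} (hj : j ∈ RR σ β c K)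
    {Q Q' : Finset J} (hQ : Q ∈ dbl 𝒜 j) (hQ' : Q' ∈ dbl 𝒜 j) (hne : Q ≠ Q') :
    ∃ r ∈ RR σ β c K, ¬ (r ∈ Q ↔ r ∈ Q') := by
  obtain ⟨s, hs⟩ : ∃ s, ¬ (s ∈ Q ↔ s ∈ Q') := by
    by_contra hcon
    push Not at hcon
    exact hne (Finset.ext hcon)
  refine ⟨s, ?_, hs⟩
  by_cases hsQ : s ∈ Q
  · exact h.uniq hj hQ hQ' hsQ (fun h => hs ⟨fun _ => h, fun _ => hsQ⟩)
  · exact h.uniq hj hQ' hQ (by by_contra h; exact hs ⟨fun h' => absurd h' hsQ,
      fun h' => absurd h' h⟩) hsQ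

theorem agree (h : Stk σ β c K 𝒜) {j l : J} (hj : j ∈ RR σ β c K) (hl : l ∉ RR σ β c K)
    {Q Q' : Finset J} (hQ : Q ∈ dbl 𝒜 j) (hQ' : Q' ∈ dbl 𝒜 j) : l ∈ Q ↔ l ∈ Q' := by
  by_contra hs
  apply hl
  by_cases hsQ : l ∈ Q
  · exact h.uniq hj hQ hQ' hsQ (fun h => hs ⟨fun _ => h, fun _ => hsQ⟩)
  · exact h.uniq hj hQ' hQ (by by_contra h; exact hs ⟨fun h' => absurd h' hsQ,
      fun h' => absurd h' h⟩) hsQ

/-- three members, two of which meet `R` -/
theorem triple (h : Stk σ β c K 𝒜) {j : J} (hj : j ∈ RR σ β c K) (T : Finset J) :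
    ∃ A ∈ dbl 𝒜 j, A ≠ T ∧ ∃ r ∈ RR σ β c K, r ∈ A := by
  obtain ⟨B, hB, hBT, -⟩ := h.third (mem_RR.1 hj).1 T T
  obtain ⟨C, hC, hCT, hCB⟩ := h.third (mem_RR.1 hj).1 T B
  obtain ⟨r, hr, hne⟩ := h.differ hj hB hC hCB.symm
  by_cases hrB : r ∈ B
  · exact ⟨B, hB, hBT, r, hr, hrB⟩
  · exact ⟨C, hC, hCT, r, hr, by by_contra h; exact hne ⟨fun h' => absurd h' hrB,
      fun h' => absurd h' h⟩⟩

/-- no set of the family contains `r` and `s` -/
theorem sep (h : Stk σ β c K 𝒜) {j r s : J} (hj : j ∈ RR σ β c K) (hr : r ∈ RR σ β c K)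
    (hs : s ∈ RR σ β c K) {A B : Finset J} (hA : A ∈ dbl 𝒜 j) (hB : B ∈ dbl 𝒜 j)
    (hAB : A ≠ B) (hrA : r ∈ A) (hsB : s ∈ B) {S : Finset J} (hS : S ∈ 𝒜) (hrS : r ∈ S) :
    s ∉ S := by
  intro hsS
  obtain ⟨C, hC, hCA, hCB⟩ := h.third (mem_RR.1 hj).1 A B
  have hrB := h.disj hj hr hA hB hAB hrA
  have hrC := h.disj hj hr hA hC hCA.symm hrA
  have hsA := h.disj hj hs hB hA hAB.symm hsB
  have hsC := h.disj hj hs hB hC hCB.symm hsB
  have e1 := h.beta_eq hj
  have e2 := h.beta_eq hr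
  have e3 := h.sigma_eq hs
  have h0 := h.c0
  rw [mem_dbl] at hA hB hC
  have hjr : j ≠ r := by
    rintro rfl
    exact hA.2.1 hrA
  have hjs : j ≠ s := by
    rintro rfl
    exact hB.2.1 hsB
  have hrs : r ≠ s := by
    rintro rfl
    exact hrB hsB
  by_cases hjS : j ∈ S
  · have e := h.star3 (S := insert j A) (A := A) (B := insert j C) (C := S) (a := j) (b := r)
      (d := s) hA.2.2 hA.1 hC.2.2 hS (mem_RR.1 hj).1 (mem_RR.1 hr).1 (mem_RR.1 hs).1 hjr hjs hrs
      (by simp [hA.2.1]) (by simp [hjr.symm]) (by simp [hjs.symm]) (by simp)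
      (by simp [hjr.symm, hrC, hrA]) (by simp [hjs.symm, hsC, hsA]) (by simp [hjS])
      (by simp [hrS, hrA]) (by simp [hsS, hjs.symm, hsA])
    have e4 : vl σ β (insert j A) j = β j := by simp [vl]
    have e5 : vl σ β (insert j A) r = β r := by simp [vl, hrA]
    have e6 : vl σ β (insert j A) s = σ s := by simp [vl, hjs.symm, hsA]
    rw [e4, e5, e6] at e
    linarith
  · exact h.tet r (mem_RR.1 hr).1 s (mem_RR.1 hs).1 j (mem_RR.1 hj).1 hrs hjr.symm hjs.symm
      C hC.1 S hS (insert j A) hA.2.2 (insert j B) hB.2.2 hrC hsC hC.2.1 hrS hsS hjS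
      (by simp [hrA]) (by simp [hjs.symm, hsA]) (by simp) (by simp [hjr.symm, hrB])
      (by simp [hsB]) (by simp)

theorem c_le (h : Stk σ β c K 𝒜) {j r : J} (hj : j ∈ RR σ β c K) (hr : r ∈ RR σ β c K)
    {A : Finset J} (hA : A ∈ dbl 𝒜 j) (hrA : r ∈ A) : c ≤ 1 / 3 := by
  obtain ⟨C, hC, hCA, -⟩ := h.third (mem_RR.1 hj).1 A A
  have hrC := h.disj hj hr hA hC hCA.symm hrA
  have e1 := h.beta_eq hj
  have e2 := h.beta_eq hr
  rw [mem_dbl] at hA hC
  have hjr : j ≠ r := by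
    rintro rfl
    exact hA.2.1 hrA
  have e := h.star2 (S := insert j A) (A := A) (B := insert j C) (a := j) (b := r)
    hA.2.2 hA.1 hC.2.2 (mem_RR.1 hj).1 (mem_RR.1 hr).1 hjr
    (by simp [hA.2.1]) (by simp [hjr.symm]) (by simp) (by simp [hjr.symm, hrC, hrA])
  have e4 : vl σ β (insert j A) j = β j := by simp [vl]
  have e5 : vl σ β (insert j A) r = β r := by simp [vl, hrA]
  rw [e4, e5] at e
  linarith

/-- symmetry -/
theorem symm (h : Stk σ β c K 𝒜) {j r s : J} (hj : j ∈ RR σ β c K) (hr : r ∈ RR σ β c K)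
    (hs : s ∈ RR σ β c K) {A B : Finset J} (hA : A ∈ dbl 𝒜 j) (hB : B ∈ dbl 𝒜 j)
    (hAB : A ≠ B) (hrA : r ∈ A) (hsB : s ∈ B) : ∃ T ∈ dbl 𝒜 r, j ∈ T := by
  by_contra hcon
  push Not at hcon
  obtain ⟨C, hC, hCA, hCB⟩ := h.third (mem_RR.1 hj).1 A B
  have hc := h.c_le hj hr hA hrA
  obtain ⟨T1, hT1, -, k, hk, hkT1⟩ := h.triple hr ∅
  obtain ⟨T2, hT2, hT21, l, hl, hlT2⟩ := h.triple hr T1
  obtain ⟨T3, hT3, hT31, hT32⟩ := h.third (mem_RR.1 hr).1 T1 T2
  have hkT2 := h.disj hr hk hT1 hT2 hT21.symm hkT1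
  have hkT3 := h.disj hr hk hT1 hT3 hT31.symm hkT1
  have hlT1 := h.disj hr hl hT2 hT1 hT21 hlT2
  have hlT3 := h.disj hr hl hT2 hT3 hT32.symm hlT2
  have hrB := h.disj hj hr hA hB hAB hrA
  have hrC := h.disj hj hr hA hC hCA.symm hrA
  have hsC := h.disj hj hs hB hC hCB.symm hsB
  have m1 := mem_dbl.1 hT1
  have m2 := mem_dbl.1 hT2
  have m3 := mem_dbl.1 hT3
  have mA := mem_dbl.1 hA
  have mB := mem_dbl.1 hB
  have mC := mem_dbl.1 hC
  have hkB : k ∉ B := fun hkB => h.sep hj hr hk hA hB hAB hrA hkB m1.2.2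
    (mem_insert_self _ _) (mem_insert_of_mem hkT1)
  have hkC : k ∉ C := fun hkC => h.sep hj hr hk hA hC hCA.symm hrA hkC m1.2.2
    (mem_insert_self _ _) (mem_insert_of_mem hkT1)
  have hlB : l ∉ B := fun hlB => h.sep hj hr hl hA hB hAB hrA hlB m2.2.2
    (mem_insert_self _ _) (mem_insert_of_mem hlT2)
  have hlC : l ∉ C := fun hlC => h.sep hj hr hl hA hC hCA.symm hrA hlC m2.2.2
    (mem_insert_self _ _) (mem_insert_of_mem hlT2)
  have hsT : ∀ T ∈ dbl 𝒜 r, s ∉ T := fun T hT hsT => h.sep hj hr hs hA hB hAB hrA hsB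
    (mem_dbl.1 hT).2.2 (mem_insert_self _ _) (mem_insert_of_mem hsT)
  have hjr : j ≠ r := by rintro rfl; exact mA.2.1 hrA
  have hjs : j ≠ s := by rintro rfl; exact mB.2.1 hsB
  have hrs : r ≠ s := by rintro rfl; exact hrB hsB
  have hjk : j ≠ k := by rintro rfl; exact hcon _ hT1 hkT1
  have hjl : j ≠ l := by rintro rfl; exact hcon _ hT2 hlT2
  have hrk : r ≠ k := by rintro rfl; exact m1.2.1 hkT1
  have hrl : r ≠ l := by rintro rfl; exact m2.2.1 hlT2
  have hsk : s ≠ k := by rintro rfl; exact hsT _ hT1 hkT1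
  have hsl : s ≠ l := by rintro rfl; exact hsT _ hT2 hlT2
  have hkl : k ≠ l := by rintro rfl; exact hlT1 hkT1
  have e := h.star0 (S := C) (T := {j, r, s, k, l}) mC.1 (by
    intro x
    simp only [mem_insert, mem_singleton]
    rintro (rfl | rfl | rfl | rfl | rfl)
    · exact (mem_RR.1 hj).1
    · exact (mem_RR.1 hr).1
    · exact (mem_RR.1 hs).1
    · exact (mem_RR.1 hk).1
    · exact (mem_RR.1 hl).1) (by
    intro x
    simp only [mem_insert, mem_singleton]
    rintro (rfl | rfl | rfl | rfl | rfl)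
    · exact mC.2.1
    · exact hrC
    · exact hsC
    · exact hkC
    · exact hlC) (by
    intro x
    simp only [mem_insert, mem_singleton]
    rintro (rfl | rfl | rfl | rfl | rfl)
    · refine ⟨insert x C, mC.2.2, mem_insert_self _ _, ?_⟩
      rintro v (rfl | rfl | rfl | rfl | rfl) hv
      · exact absurd rfl hv
      · simp [hv, hrC]
      · simp [hv, hsC]
      · simp [hv, hkC]
      · simp [hv, hlC]
    · refine ⟨insert x T3, m3.2.2, mem_insert_self _ _, ?_⟩
      rintro v (rfl | rfl | rfl | rfl | rfl) hv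
      · simp [hv, hcon _ hT3]
      · exact absurd rfl hv
      · simp [hv, hsT _ hT3]
      · simp [hv, hkT3]
      · simp [hv, hlT3]
    · refine ⟨B, mB.1, hsB, ?_⟩
      rintro v (rfl | rfl | rfl | rfl | rfl) hv
      · exact mB.2.1
      · exact hrB
      · exact absurd rfl hv
      · exact hkB
      · exact hlB
    · refine ⟨T1, m1.1, hkT1, ?_⟩
      rintro v (rfl | rfl | rfl | rfl | rfl) hv
      · exact hcon _ hT1
      · exact m1.2.1
      · exact hsT _ hT1
      · exact absurd rfl hv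
      · exact hlT1
    · refine ⟨T2, m2.1, hlT2, ?_⟩
      rintro v (rfl | rfl | rfl | rfl | rfl) hv
      · exact hcon _ hT2
      · exact m2.2.1
      · exact hsT _ hT2
      · exact hkT2
      · exact absurd rfl hv)
  rw [sum_insert (by simp [hjr, hjs, hjk, hjl]), sum_insert (by simp [hrs, hrk, hrl]),
    sum_insert (by simp [hsk, hsl]), sum_pair hkl, h.sigma_eq hj, h.sigma_eq hr, h.sigma_eq hs,
    h.sigma_eq hk, h.sigma_eq hl] at e
  linarith

/-- some member of `dbl` does not meet `R` -/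
theorem empty (h : Stk σ β c K 𝒜) {j : J} (hj : j ∈ RR σ β c K) :
    ∃ Q ∈ dbl 𝒜 j, ∀ u ∈ RR σ β c K, u ∉ Q := by
  by_contra hcon
  push Not at hcon
  obtain ⟨A, hA, -, -⟩ := h.third (mem_RR.1 hj).1 ∅ ∅
  obtain ⟨B, hB, hBA, -⟩ := h.third (mem_RR.1 hj).1 A A
  obtain ⟨C, hC, hCA, hCB⟩ := h.third (mem_RR.1 hj).1 A B
  obtain ⟨r, hr, hrA⟩ := hcon A hA
  obtain ⟨s, hs, hsB⟩ := hcon B hB
  obtain ⟨u, hu, huC⟩ := hcon C hC
  obtain ⟨T1, hT1, hjT1⟩ := h.symm hj hr hs hA hB hBA.symm hrA hsB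
  obtain ⟨T3, hT3, hT31, -⟩ := h.third (mem_RR.1 hr).1 T1 T1
  have hjT3 := h.disj hr hj hT1 hT3 hT31.symm hjT1
  have hrB := h.disj hj hr hA hB hBA.symm hrA
  have hrC := h.disj hj hr hA hC hCA.symm hrA
  have hsC := h.disj hj hs hB hC hCB.symm hsB
  have huB := h.disj hj hu hC hB hCB huC
  have m1 := mem_dbl.1 hT1
  have m3 := mem_dbl.1 hT3
  have mA := mem_dbl.1 hA
  have mB := mem_dbl.1 hB
  have mC := mem_dbl.1 hC
  have hsT : ∀ T ∈ dbl 𝒜 r, s ∉ T := fun T hT hsT => h.sep hj hr hs hA hB hBA.symm hrA hsB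
    (mem_dbl.1 hT).2.2 (mem_insert_self _ _) (mem_insert_of_mem hsT)
  have huT : ∀ T ∈ dbl 𝒜 r, u ∉ T := fun T hT huT => h.sep hj hr hu hA hC hCA.symm hrA huC
    (mem_dbl.1 hT).2.2 (mem_insert_self _ _) (mem_insert_of_mem huT)
  have hjr : j ≠ r := by rintro rfl; exact mA.2.1 hrA
  have hjs : j ≠ s := by rintro rfl; exact mB.2.1 hsB
  have hju : j ≠ u := by rintro rfl; exact mC.2.1 huC
  have hrs : r ≠ s := by rintro rfl; exact hrB hsB
  have hru : r ≠ u := by rintro rfl; exact hrC huC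
  have hsu : s ≠ u := by rintro rfl; exact hsC huC
  have e := h.star4 (S := T1) (A := T3) (B := insert r T1) (C := insert j B) (D := insert j C)
    (a := j) (b := r) (d := s) (e := u) m1.1 m3.1 m1.2.2 mB.2.2 mC.2.2 (mem_RR.1 hj).1
    (mem_RR.1 hr).1 (mem_RR.1 hs).1 (mem_RR.1 hu).1 hjr hjs hju hrs hru hsu
    (by simp [hjT1, hjT3, m1.2.1, m3.2.1, hsT _ hT1, hsT _ hT3, huT _ hT1, huT _ hT3])
    (by simp [hjT1, m1.2.1, hsT _ hT1, huT _ hT1, hrs.symm, hru.symm])
    (by simp [hjT1, m1.2.1, hsT _ hT1, huT _ hT1, hsB, hrB, huB, hjr.symm, hju.symm])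
    (by simp [hjT1, m1.2.1, hsT _ hT1, huT _ hT1, huC, hrC, hsC, hjr.symm, hjs.symm])
  have e4 : vl σ β T1 j = β j := by simp [vl, hjT1]
  have e5 : vl σ β T1 r = σ r := by simp [vl, m1.2.1]
  have e6 : vl σ β T1 s = σ s := by simp [vl, hsT _ hT1]
  have e7 : vl σ β T1 u = σ u := by simp [vl, huT _ hT1]
  rw [e4, e5, e6, e7, h.beta_eq hj, h.sigma_eq hr, h.sigma_eq hs, h.sigma_eq hu] at e
  have := h.c1
  linarith

theorem sum_le (h : Stk σ β c K 𝒜) {T : Finset J} (hT : T ⊆ RR σ β c K) (hne : T.Nonempty) :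
    (T.card : ℝ) * ((1 - c) / 2) ≤ (3 - c) / 2 := by
  obtain ⟨j, hj⟩ := hne
  obtain ⟨Q, hQ, hQR⟩ := h.empty (hT hj)
  have e := h.star0 (S := Q) (T := T) (mem_dbl.1 hQ).1 (fun x hx => (mem_RR.1 (hT hx)).1)
    (fun u hu => hQR u (hT hu)) (by
      intro u hu
      obtain ⟨Q', hQ', hQR'⟩ := h.empty (hT hu)
      refine ⟨insert u Q', (mem_dbl.1 hQ').2.2, mem_insert_self _ _, fun v hv hne => ?_⟩
      simp [hne, hQR' v (hT hv)])
  rw [sum_congr rfl (fun u hu => h.sigma_eq (hT hu)), sum_const, nsmul_eq_mul] at e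
  exact e

/-- the stuck case -/
theorem card_le (h : Stk σ β c K 𝒜) (hK : K.Nonempty) : 𝒜.card ≤ 2 * K.card + 1 := by
  have h0 := h.c0
  -- a row with maximal difference
  obtain ⟨j, hjK, hmax⟩ := K.exists_max_image (fun j => β j - σ j) hK
  have hj : j ∈ RR σ β c K := by
    obtain ⟨A, hA, -, -⟩ := h.third hjK ∅ ∅
    obtain ⟨B, hB, hBA, -⟩ := h.third hjK A A
    obtain ⟨C, hC, hCA, hCB⟩ := h.third hjK A B
    obtain ⟨r, hr⟩ : ∃ s, ¬ (s ∈ A ↔ s ∈ B) := by
      by_contra hcon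
      push Not at hcon
      exact hBA (Finset.ext hcon).symm
    have main : ∀ Q Q' Q'' : Finset J, Q ∈ dbl 𝒜 j → Q' ∈ dbl 𝒜 j → Q'' ∈ dbl 𝒜 j →
        Q' ≠ Q'' → (r ∈ Q' ↔ r ∉ Q) → (r ∈ Q'' ↔ r ∉ Q) → j ∈ RR σ β c K := by
      intro Q Q' Q'' hQ hQ' hQ'' hne h1 h2
      obtain ⟨hr, D, s, -, hs, e⟩ := h.corner hjK hQ hQ' hQ'' hne h1 h2
      have h4 := h.vl_ge (S := D) hr
      have h5 := h.vl_ge (S := D) hs
      have h6 := hmax r hr
      have h7 := hmax s hs
      have h8 := h.sum r hr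
      have h9 := h.sum s hs
      have h10 := h.sum j hjK
      have h11 := h.ty hjK
      exact mem_RR.2 ⟨hjK, by linarith⟩
    by_cases hrC : r ∈ A ↔ r ∈ C
    · exact main B A C hB hA hC hCA.symm (by tauto) (by tauto)
    · exact main A B C hA hB hC hCB.symm (by tauto) (by tauto)
  -- the four rows
  obtain ⟨A, hA, -, r, hr, hrA⟩ := h.triple hj ∅
  obtain ⟨B, hB, hBA, s, hs, hsB⟩ := h.triple hj A
  obtain ⟨C, hC, hCA, hCB⟩ := h.third hjK A B
  obtain ⟨T1, hT1, hjT1⟩ := h.symm hj hr hs hA hB hBA.symm hrA hsB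
  obtain ⟨T2, hT2, hT21, k, hk, hkT2⟩ := h.triple hr T1
  obtain ⟨T3, hT3, hT31, hT32⟩ := h.third (mem_RR.1 hr).1 T1 T2
  have mA := mem_dbl.1 hA
  have mB := mem_dbl.1 hB
  have mC := mem_dbl.1 hC
  have m1 := mem_dbl.1 hT1
  have m2 := mem_dbl.1 hT2
  have m3 := mem_dbl.1 hT3
  have hrB := h.disj hj hr hA hB hBA.symm hrA
  have hrC := h.disj hj hr hA hC hCA.symm hrA
  have hsA := h.disj hj hs hB hA hBA hsB
  have hsC := h.disj hj hs hB hC hCB.symm hsB
  have hjT2 := h.disj hr hj hT1 hT2 hT21.symm hjT1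
  have hjT3 := h.disj hr hj hT1 hT3 hT31.symm hjT1
  have hkT1 := h.disj hr hk hT2 hT1 hT21 hkT2
  have hkT3 := h.disj hr hk hT2 hT3 hT32.symm hkT2
  have hrs' : ∀ S ∈ 𝒜, r ∈ S → s ∉ S := fun S hS => h.sep hj hr hs hA hB hBA.symm hrA hsB hS
  have hjk' : ∀ S ∈ 𝒜, j ∈ S → k ∉ S := fun S hS => h.sep hr hj hk hT1 hT2 hT21.symm hjT1 hkT2 hS
  have hsT1 : s ∉ T1 := fun hx => hrs' _ m1.2.2 (mem_insert_self _ _) (mem_insert_of_mem hx)
  have hsT2 : s ∉ T2 := fun hx => hrs' _ m2.2.2 (mem_insert_self _ _) (mem_insert_of_mem hx)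
  have hsT3 : s ∉ T3 := fun hx => hrs' _ m3.2.2 (mem_insert_self _ _) (mem_insert_of_mem hx)
  have hkA : k ∉ A := fun hx => hjk' _ mA.2.2 (mem_insert_self _ _) (mem_insert_of_mem hx)
  have hkB : k ∉ B := fun hx => hjk' _ mB.2.2 (mem_insert_self _ _) (mem_insert_of_mem hx)
  have hkC : k ∉ C := fun hx => hjk' _ mC.2.2 (mem_insert_self _ _) (mem_insert_of_mem hx)
  have hjr : j ≠ r := by rintro rfl; exact mA.2.1 hrA
  have hjs : j ≠ s := by rintro rfl; exact mB.2.1 hsB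
  have hrs : r ≠ s := by rintro rfl; exact hrB hsB
  have hjk : j ≠ k := by rintro rfl; exact hjT2 hkT2
  have hrk : r ≠ k := by rintro rfl; exact m2.2.1 hkT2
  have hsk : s ≠ k := by rintro rfl; exact hsT2 hkT2
  have hc3 := h.c_le hj hr hA hrA
  -- `c = 1 / 3` and `R` has four elements
  have hsub : ({j, r, s, k} : Finset J) ⊆ RR σ β c K := by
    intro x
    simp only [mem_insert, mem_singleton]
    rintro (rfl | rfl | rfl | rfl) <;> assumption
  have hcard4 : ({j, r, s, k} : Finset J).card = 4 := by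
    rw [card_insert_of_notMem (by simp [hjr, hjs, hjk]), card_insert_of_notMem (by simp [hrs, hrk]),
      card_pair hsk]
  have hc : c = 1 / 3 := by
    have := h.sum_le hsub ⟨j, by simp⟩
    rw [hcard4] at this
    push_cast at this
    linarith
  have hR : RR σ β c K = {j, r, s, k} := by
    refine (eq_of_subset_of_card_le hsub ?_).symm
    rw [hcard4]
    by_contra hcon
    obtain ⟨T, hT, hTc⟩ := exists_subset_card_eq (show 5 ≤ (RR σ β c K).card by omega)
    have := h.sum_le hT (card_pos.1 (by omega))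
    rw [hTc] at this
    push_cast at this
    linarith
  -- there are no further rows
  have hKR : K = {j, r, s, k} := by
    rw [← hR]
    refine Finset.Subset.antisymm ?_ (fun x hx => (mem_RR.1 hx).1)
    intro l hl
    by_contra hlR
    have hσl : 1 / 3 < σ l := by
      have h1 := h.ty hl
      have h2 := h.sum l hl
      have h3 : β l - σ l ≠ c := fun h' => hlR (mem_RR.2 ⟨hl, h'⟩)
      have h4 := lt_of_le_of_ne h1 h3
      linarith
    have hlj : l ≠ j := by rintro rfl; exact hlR hj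
    have hlr : l ≠ r := by rintro rfl; exact hlR hr
    have hls : l ≠ s := by rintro rfl; exact hlR hs
    have hlk : l ≠ k := by rintro rfl; exact hlR hk
    have aAC : l ∈ A ↔ l ∈ C := h.agree hj hlR hA hC
    have aBC : l ∈ B ↔ l ∈ C := h.agree hj hlR hB hC
    have a13 : l ∈ T1 ↔ l ∈ T3 := h.agree hr hlR hT1 hT3
    have a23 : l ∈ T2 ↔ l ∈ T3 := h.agree hr hlR hT2 hT3
    have vlg : ∀ S : Finset J, σ l ≤ vl σ β S l := fun S => h.vl_ge hl
    have bj := h.beta_eq hj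
    have br := h.beta_eq hr
    have bs := h.beta_eq hs
    have bk := h.beta_eq hk
    have sj := h.sigma_eq hj
    have sr := h.sigma_eq hr
    have ss := h.sigma_eq hs
    have sk := h.sigma_eq hk
    have Kj := (mem_RR.1 hj).1
    have Kr := (mem_RR.1 hr).1
    have Ks := (mem_RR.1 hs).1
    have Kk := (mem_RR.1 hk).1
    have aC3 : l ∈ C ↔ l ∈ T3 := by
      by_contra hne
      have e := h.star4 (S := C) (A := insert j C) (B := A) (C := B) (D := T3)
        (a := j) (b := r) (d := s) (e := l) mC.1 mC.2.2 mA.1 mB.1 m3.1 Kj Kr Ks hl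
        hjr hjs hlj.symm hrs hlr.symm hls.symm
        (by simp [mC.2.1, hjr.symm, hjs.symm, hlj])
        (by simp [mA.2.1, mC.2.1, hrA, hrC, hsA, hsC, aAC])
        (by simp [mB.2.1, mC.2.1, hrB, hrC, hsB, hsC, aBC])
        (by refine ⟨by simp [hjT3, mC.2.1], by simp [m3.2.1, hrC], by simp [hsT3, hsC], ?_⟩
            tauto)
      have e4 : vl σ β C j = σ j := by simp [vl, mC.2.1]
      have e5 : vl σ β C r = σ r := by simp [vl, hrC]
      have e6 : vl σ β C s = σ s := by simp [vl, hsC]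
      rw [e4, e5, e6] at e
      have := vlg C
      linarith
    have a1C : l ∈ T1 ↔ l ∈ C := a13.trans aC3.symm
    have a2C : l ∈ T2 ↔ l ∈ C := a23.trans aC3.symm
    obtain ⟨X, hX, X', hX', hXC, hXC', hXX⟩ : ∃ X ∈ 𝒜, ∃ X' ∈ 𝒜, (l ∈ X ↔ l ∈ C) ∧
        (l ∈ X' ↔ l ∉ C) ∧ ∀ u, u ≠ l → (u ∈ X' ↔ u ∈ X) := by
      obtain ⟨Q, hQ, -, -⟩ := h.third hl ∅ ∅
      have mQ := mem_dbl.1 hQ
      by_cases hlC : l ∈ C
      · exact ⟨insert l Q, mQ.2.2, Q, mQ.1, by simp [hlC], by simp [hlC, mQ.2.1],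
          fun u hu => by simp [hu]⟩
      · exact ⟨Q, mQ.1, insert l Q, mQ.2.2, by simp [hlC, mQ.2.1], by simp [hlC],
          fun u hu => by simp [hu]⟩
    have xj := hXX j hlj.symm
    have xr := hXX r hlr.symm
    have xs := hXX s hls.symm
    have xk := hXX k hlk.symm
    have yrs := hrs' X hX
    have yjk := hjk' X hX
    by_cases jX : j ∈ X
    · have kX := yjk jX
      by_cases sX : s ∈ X
      · have rX : r ∉ X := fun h' => yrs h' sX
        have e := h.star3 (S := insert j B) (A := B) (B := insert j C) (C := X') (a := j) (b := s)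
          (d := l) mB.2.2 mB.1 mC.2.2 hX' Kj Ks hl hjs hlj.symm hls.symm
          (by simp [mB.2.1]) (by simp [hjs.symm]) (by simp [hlj]) (by simp)
          (by simp [hsB, hsC, hjs.symm]) (by simp [hlj, aBC]) (by simp [xj, jX])
          (by simp [xs, sX, hsB]) (by simp [hlj, aBC, hXC'])
        have e4 : vl σ β (insert j B) j = β j := by simp [vl]
        have e5 : vl σ β (insert j B) s = β s := by simp [vl, hsB]
        rw [e4, e5] at e
        have := vlg (insert j B)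
        linarith
      · by_cases rX : r ∈ X
        · have e := h.star3 (S := insert j A) (A := A) (B := insert j C) (C := X') (a := j)
            (b := r) (d := l) mA.2.2 mA.1 mC.2.2 hX' Kj Kr hl hjr hlj.symm hlr.symm
            (by simp [mA.2.1]) (by simp [hjr.symm]) (by simp [hlj]) (by simp)
            (by simp [hrA, hrC, hjr.symm]) (by simp [hlj, aAC]) (by simp [xj, jX])
            (by simp [xr, rX, hrA]) (by simp [hlj, aAC, hXC'])
          have e4 : vl σ β (insert j A) j = β j := by simp [vl]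
          have e5 : vl σ β (insert j A) r = β r := by simp [vl, hrA]
          rw [e4, e5] at e
          have := vlg (insert j A)
          linarith
        · have e := h.star3 (S := insert j C) (A := C) (B := insert j A) (C := X') (a := j)
            (b := r) (d := l) mC.2.2 mC.1 mA.2.2 hX' Kj Kr hl hjr hlj.symm hlr.symm
            (by simp [mC.2.1]) (by simp [hjr.symm]) (by simp [hlj]) (by simp)
            (by simp [hrA, hrC, hjr.symm]) (by simp [hlj, aAC]) (by simp [xj, jX])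
            (by simp [xr, rX, hrC, hjr.symm]) (by simp [hlj, hXC'])
          have e4 : vl σ β (insert j C) j = β j := by simp [vl]
          have e5 : vl σ β (insert j C) r = σ r := by simp [vl, hrC, hjr.symm]
          rw [e4, e5] at e
          have := vlg (insert j C)
          linarith
    · by_cases kX : k ∈ X
      · by_cases sX : s ∈ X
        · have rX : r ∉ X := fun h' => yrs h' sX
          have e := h.star3 (S := X) (A := B) (B := T2) (C := X') (a := k) (b := s)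
            (d := l) hX mB.1 m2.1 hX' Kk Ks hl hsk.symm hlk.symm hls.symm
            (by simp [hkB, kX]) (by simp [hsB, sX]) (aBC.trans hXC.symm) (by simp [hkT2, kX])
            (by simp [hsT2, sX]) (a2C.trans hXC.symm) (by simp [xk, kX])
            (by simp [xs, sX]) (by rw [hXC, hXC'])
          have e4 : vl σ β X k = β k := by simp [vl, kX]
          have e5 : vl σ β X s = β s := by simp [vl, sX]
          rw [e4, e5] at e
          have := vlg X
          linarith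
        · by_cases rX : r ∈ X
          · have e := h.star3 (S := insert r T2) (A := insert r T3) (B := T2) (C := X') (a := k)
              (b := r) (d := l) m2.2.2 m3.2.2 m2.1 hX' Kk Kr hl hrk.symm hlk.symm hlr.symm
              (by simp [hkT2, hkT3, hrk.symm]) (by simp) (by simp [hlr, a23])
              (by simp [hrk.symm]) (by simp [m2.2.1]) (by simp [hlr])
              (by simp [xk, kX, hkT2]) (by simp [xr, rX]) (by simp [hlr, a2C, hXC'])
            have e4 : vl σ β (insert r T2) k = β k := by simp [vl, hkT2]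
            have e5 : vl σ β (insert r T2) r = β r := by simp [vl]
            rw [e4, e5] at e
            have := vlg (insert r T2)
            linarith
          · have e := h.star3 (S := T2) (A := T3) (B := insert r T2) (C := X') (a := k)
              (b := r) (d := l) m2.1 m3.1 m2.2.2 hX' Kk Kr hl hrk.symm hlk.symm hlr.symm
              (by simp [hkT2, hkT3]) (by simp [m2.2.1, m3.2.1]) (by simp [a23])
              (by simp [hrk.symm]) (by simp [m2.2.1]) (by simp [hlr])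
              (by simp [xk, kX, hkT2]) (by simp [xr, rX, m2.2.1]) (by simp [a2C, hXC'])
            have e4 : vl σ β T2 k = β k := by simp [vl, hkT2]
            have e5 : vl σ β T2 r = σ r := by simp [vl, m2.2.1]
            rw [e4, e5] at e
            have := vlg T2
            linarith
      · by_cases sX : s ∈ X
        · have rX : r ∉ X := fun h' => yrs h' sX
          have e := h.star3 (S := B) (A := insert j B) (B := C) (C := X') (a := j) (b := s)
            (d := l) mB.1 mB.2.2 mC.1 hX' Kj Ks hl hjs hlj.symm hls.symm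
            (by simp [mB.2.1]) (by simp [hjs.symm]) (by simp [hlj]) (by simp [mB.2.1, mC.2.1])
            (by simp [hsB, hsC]) (by simp [aBC]) (by simp [xj, jX, mB.2.1])
            (by simp [xs, sX, hsB]) (by simp [aBC, hXC'])
          have e4 : vl σ β B j = σ j := by simp [vl, mB.2.1]
          have e5 : vl σ β B s = β s := by simp [vl, hsB]
          rw [e4, e5] at e
          have := vlg B
          linarith
        · by_cases rX : r ∈ X
          · have e := h.star3 (S := A) (A := insert j A) (B := C) (C := X') (a := j) (b := r)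
              (d := l) mA.1 mA.2.2 mC.1 hX' Kj Kr hl hjr hlj.symm hlr.symm
              (by simp [mA.2.1]) (by simp [hjr.symm]) (by simp [hlj]) (by simp [mA.2.1, mC.2.1])
              (by simp [hrA, hrC]) (by simp [aAC]) (by simp [xj, jX, mA.2.1])
              (by simp [xr, rX, hrA]) (by simp [aAC, hXC'])
            have e4 : vl σ β A j = σ j := by simp [vl, mA.2.1]
            have e5 : vl σ β A r = β r := by simp [vl, hrA]
            rw [e4, e5] at e
            have := vlg A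
            linarith
          · have e := h.star4 (S := C) (A := insert j C) (B := A) (C := B) (D := X')
              (a := j) (b := r) (d := s) (e := l) mC.1 mC.2.2 mA.1 mB.1 hX' Kj Kr Ks hl
              hjr hjs hlj.symm hrs hlr.symm hls.symm
              (by simp [mC.2.1, hjr.symm, hjs.symm, hlj])
              (by simp [mA.2.1, mC.2.1, hrA, hrC, hsA, hsC, aAC])
              (by simp [mB.2.1, mC.2.1, hrB, hrC, hsB, hsC, aBC])
              (by simp [xj, xr, xs, jX, rX, sX, mC.2.1, hrC, hsC, hXC'])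
            have e4 : vl σ β C j = σ j := by simp [vl, mC.2.1]
            have e5 : vl σ β C r = σ r := by simp [vl, hrC]
            have e6 : vl σ β C s = σ s := by simp [vl, hsC]
            rw [e4, e5, e6] at e
            have := vlg C
            linarith
  -- the count
  have hcardK : K.card = 4 := by rw [hKR, hcard4]
  have hsub9 : 𝒜 ⊆ (({∅, {r}, {s}} : Finset (Finset J)) ×ˢ
      ({∅, {j}, {k}} : Finset (Finset J))).image (fun p => p.1 ∪ p.2) := by
    intro S hS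
    have hSK := h.sub S hS
    rw [hKR] at hSK
    have h1 := hrs' S hS
    have h2 := hjk' S hS
    rw [mem_image]
    refine ⟨(S ∩ {r, s}, S ∩ {j, k}), ?_, ?_⟩
    · rw [mem_product]
      constructor
      · simp only [mem_insert, mem_singleton]
        by_cases hrS : r ∈ S
        · right; left
          ext x
          simp only [mem_inter, mem_insert, mem_singleton]
          constructor
          · rintro ⟨hx, rfl | rfl⟩
            · rfl
            · exact absurd hx (h1 hrS)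
          · rintro rfl
            exact ⟨hrS, Or.inl rfl⟩
        · by_cases hsS : s ∈ S
          · right; right
            ext x
            simp only [mem_inter, mem_insert, mem_singleton]
            constructor
            · rintro ⟨hx, rfl | rfl⟩
              · exact absurd hx hrS
              · rfl
            · rintro rfl
              exact ⟨hsS, Or.inr rfl⟩
          · left
            ext x
            simp only [mem_inter, mem_insert, mem_singleton, notMem_empty, iff_false]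
            rintro ⟨hx, rfl | rfl⟩
            · exact hrS hx
            · exact hsS hx
      · simp only [mem_insert, mem_singleton]
        by_cases hjS : j ∈ S
        · right; left
          ext x
          simp only [mem_inter, mem_insert, mem_singleton]
          constructor
          · rintro ⟨hx, rfl | rfl⟩
            · rfl
            · exact absurd hx (h2 hjS)
          · rintro rfl
            exact ⟨hjS, Or.inl rfl⟩
        · by_cases hkS : k ∈ S
          · right; right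
            ext x
            simp only [mem_inter, mem_insert, mem_singleton]
            constructor
            · rintro ⟨hx, rfl | rfl⟩
              · exact absurd hx hjS
              · rfl
            · rintro rfl
              exact ⟨hkS, Or.inr rfl⟩
          · left
            ext x
            simp only [mem_inter, mem_insert, mem_singleton, notMem_empty, iff_false]
            rintro ⟨hx, rfl | rfl⟩
            · exact hjS hx
            · exact hkS hx
    · ext x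
      simp only [mem_union, mem_inter, mem_insert, mem_singleton]
      constructor
      · rintro (⟨hx, -⟩ | ⟨hx, -⟩) <;> exact hx
      · intro hx
        have := hSK hx
        simp only [mem_insert, mem_singleton] at this
        tauto
  calc 𝒜.card ≤ _ := card_le_card hsub9
    _ ≤ _ := card_image_le
    _ = ({∅, {r}, {s}} : Finset (Finset J)).card * ({∅, {j}, {k}} : Finset (Finset J)).card :=
      card_product _ _
    _ ≤ 3 * 3 := Nat.mul_le_mul card_le_three card_le_three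
    _ = 2 * K.card + 1 := by rw [hcardK]

end Stk

/-- The bound for good families. -/
theorem Good.card_le (n : ℕ) : ∀ (K : Finset J) (𝒜 : Finset (Finset J)), K.card = n →
    Good σ β c K 𝒜 → 𝒜.card ≤ 2 * n + 1 := by
  induction n with
  | zero =>
    intro K 𝒜 hK h
    rw [card_eq_zero] at hK
    subst hK
    have : 𝒜 ⊆ {∅} := by
      intro S hS
      rw [mem_singleton]
      exact subset_empty.1 (h.sub S hS)
    simpa using card_le_card this
  | succ n ih =>
    intro K 𝒜 hK h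
    by_cases hex : ∃ j ∈ K, (dbl 𝒜 j).card ≤ 2
    · obtain ⟨j, hj, h2⟩ := hex
      have h1 := ih (K.erase j) (𝒜.image fun S => S.erase j)
        (by rw [card_erase_of_mem hj, hK]; rfl) (h.erase j)
      have h3 := card_le_add 𝒜 j
      omega
    · push Not at hex
      have hs : Stk σ β c K 𝒜 := ⟨h, hex⟩
      have := hs.card_le (card_pos.1 (by omega))
      rwa [hK] at this

end Pool.Agent.Lib.MP_74dbbd_co
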