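import Mathlib
import Pool.Agent.Lib.MP_74dbbd_co.Fam

/-!
Totally 1-submodular sets `t + S`, and the double fibres over a row which is neither integral nor
half-integral.
-/

namespace Pool.Agent.Lib.MP_74dbbd_co

open Finset Matrix

set_option linter.unusedSectionVars false

variable {ι : Type} [Fintype ι] [DecidableEq ι]

/-- All minors of the matrix with columns `t + a`, `a ∈ S`, are at most 1 in absolute value. -/
def TS (t : ι → ℝ) (S : Finset (ι → ℤ)) : Prop :=
  ∀ (k : ℕ) (r : Fin k → ι) (a : Fin k → ι → ℤ), (∀ b, a b ∈ S) →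
    |(Matrix.of fun x y => t (r x) + (a y (r x) : ℝ)).det| ≤ 1

omit [Fintype ι] [DecidableEq ι] in
theorem TS.gen {t : ι → ℝ} {S : Finset (ι → ℤ)} (h : TS t S) {κ : Type} [Fintype κ]
    [DecidableEq κ] (r : κ → ι) (a : κ → ι → ℤ) (ha : ∀ b, a b ∈ S) :
    |(Matrix.of fun x y => t (r x) + (a y (r x) : ℝ)).det| ≤ 1 := by
  let e := Fintype.equivFin κ
  have := h (Fintype.card κ) (fun x => r (e.symm x)) (fun x => a (e.symm x))
    (fun b => ha _)
  rw [← Matrix.det_submatrix_equiv_self e.symm]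
  exact this

/-- The matrix of a star. -/
def starM {τ : Type} [DecidableEq τ] (a η : ℝ) (x δ : τ → ℝ) : Matrix (Unit ⊕ τ) (Unit ⊕ τ) ℝ :=
  fromBlocks (Matrix.of fun _ _ => a) (Matrix.of fun _ _ => a + η) (Matrix.of fun v _ => x v)
    (Matrix.of fun v u => x v + if v = u then δ u else 0)

/-- determinant of a star -/
theorem det_star {τ : Type} [Fintype τ] [DecidableEq τ] (a η : ℝ) (x δ : τ → ℝ)
    (hδ : ∀ v, δ v * δ v = 1) :
    (starM a η x δ).det = (a - η * ∑ v, x v * δ v) * ∏ v, δ v := by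
  set M : Matrix (Unit ⊕ τ) (Unit ⊕ τ) ℝ := starM a η x δ with hM
  let P : Matrix (Unit ⊕ τ) (Unit ⊕ τ) ℝ := fromBlocks 1 (Matrix.of fun _ _ => (-1 : ℝ)) 0 1
  let Q : Matrix (Unit ⊕ τ) (Unit ⊕ τ) ℝ := fromBlocks 1 0 (Matrix.of fun v _ => - x v * δ v) 1
  let U : Matrix (Unit ⊕ τ) (Unit ⊕ τ) ℝ := fromBlocks
    (Matrix.of fun _ _ => a - η * ∑ v, x v * δ v) (Matrix.of fun _ _ => η) 0 (diagonal δ)
  have h1 : M * P = fromBlocks (Matrix.of fun _ _ => a) (Matrix.of fun _ _ => η)
      (Matrix.of fun v _ => x v) (diagonal δ) := by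
    ext p q
    rw [Matrix.mul_apply, Fintype.sum_sum_type]
    rcases p with p | p <;> rcases q with q | q
    · simp [P, hM, starM]
    · simp [P, hM, starM, Matrix.one_apply]
    · simp [P, hM, starM]
    · simp [P, hM, starM, Matrix.one_apply, Matrix.diagonal_apply]
      by_cases hpq : p = q
      · subst hpq; simp
      · simp [hpq]
  have h2 : M * P * Q = U := by
    rw [h1]
    simp only [Q, U, fromBlocks_multiply]
    congr 1
    · ext p q
      simp only [Matrix.add_apply, Matrix.mul_apply, Matrix.of_apply, Matrix.one_apply]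
      simp
      rw [mul_sum]
      simp only [sub_eq_add_neg]
    · ext p q
      simp
    · ext p q
      simp only [Matrix.add_apply, Matrix.mul_apply, Matrix.of_apply]
      simp [Matrix.diagonal_apply]
      have := hδ p
      linear_combination (-x p) * this
    · ext p q
      simp
  have h3 : P.det = 1 := by simp [P]
  have h4 : Q.det = 1 := by simp [Q]
  have h5 : U.det = (a - η * ∑ v, x v * δ v) * ∏ v, δ v := by
    simp [U, det_fromBlocks_zero₂₁, det_diagonal]
  rw [← h5, ← h2, Matrix.det_mul, Matrix.det_mul, h3, h4, mul_one, mul_one]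

/-- determinant of a tetrahedron -/
theorem det_tet (v u₁ u₂ u₃ d₁ d₂ d₃ : ℝ) :
    (!![v, v, v, v; u₁, u₁ + d₁, u₁ + d₁, u₁; u₂, u₂ + d₂, u₂, u₂ + d₂;
      u₃, u₃, u₃ + d₃, u₃ + d₃] : Matrix (Fin 4) (Fin 4) ℝ).det = -2 * v * d₁ * d₂ * d₃ := by
  simp [Matrix.det_succ_row_zero, Fin.sum_univ_succ, Fin.succAbove]
  ring

/-- Two-valued sets of vectors, with both values in the row `i`. -/
structure Two (t : ι → ℝ) (S D : Finset (ι → ℤ)) (i : ι) (A B : ι → ℤ) : Prop where
  ts : TS t S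
  mem : ∀ a ∈ D, a ∈ S
  zero : ∀ a ∈ D, a i = 0
  upd : ∀ a ∈ D, Function.update a i (-1) ∈ S
  val : ∀ a ∈ D, ∀ j, j ≠ i → a j = A j ∨ a j = B j
  AB : ∀ j, j ≠ i → (A j - B j = 1 ∨ A j - B j = -1)
  sgn : ∀ j, j ≠ i → (t j + A j) * (t j + B j) ≤ 0
  big : ∀ j, j ≠ i → |t j + B j| ≤ |t j + A j|
  typ : ∀ j, j ≠ i → |t j + A j| - |t j + B j| ≤ |2 * t i - 1| ∨ t j + B j = 0
  ti0 : 0 < t i
  ti1 : t i < 1
  tih : t i ≠ 1 / 2

/-- The pattern of a vector. -/
def pat (i : ι) (A : ι → ℤ) (a : ι → ℤ) : Finset ι := univ.filter fun j => j ≠ i ∧ a j = A j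

namespace Two

variable {t : ι → ℝ} {S D : Finset (ι → ℤ)} {i : ι} {A B : ι → ℤ}

theorem mem_pat {a : ι → ℤ} {j : ι} : j ∈ pat i A a ↔ j ≠ i ∧ a j = A j := by
  simp [pat]

theorem eq_A {a : ι → ℤ} {j : ι} (hp : j ∈ pat i A a) : a j = A j := (mem_pat.1 hp).2

theorem eq_B (h : Two t S D i A B) {a : ι → ℤ} (ha : a ∈ D) {j : ι} (hj : j ≠ i)
    (hp : j ∉ pat i A a) : a j = B j := by
  rcases h.val a ha j hj with h1 | h1
  · exact absurd (mem_pat.2 ⟨hj, h1⟩) hp
  · exact h1

theorem vl_eq (h : Two t S D i A B) {a : ι → ℤ} (ha : a ∈ D) {j : ι} (hj : j ≠ i) :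
    vl (fun j => |t j + B j|) (fun j => |t j + A j|) (pat i A a) j = |t j + a j| := by
  unfold vl
  split_ifs with hp
  · rw [eq_A hp]
  · rw [h.eq_B ha hj hp]

theorem inj (h : Two t S D i A B) : Set.InjOn (pat i A) (D : Set (ι → ℤ)) := by
  intro a ha b hb hab
  funext j
  by_cases hj : j = i
  · rw [hj, h.zero a ha, h.zero b hb]
  · by_cases hp : j ∈ pat i A a
    · have hp' : j ∈ pat i A b := hab ▸ hp
      exact (eq_A hp).trans (eq_A hp').symm
    · have hp' : j ∉ pat i A b := hab ▸ hp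
      exact (h.eq_B ha hj hp).trans (h.eq_B hb hj hp').symm

omit [Fintype ι] in
/-- the difference of the two values has square 1 -/
theorem sq_one (h : Two t S D i A B) {j : ι} (hj : j ≠ i) : ((A j - B j : ℤ) : ℝ) *
    ((A j - B j : ℤ) : ℝ) = 1 := by
  rcases h.AB j hj with h1 | h1 <;> rw [h1] <;> norm_num

omit [Fintype ι] in
theorem abs_add (h : Two t S D i A B) {j : ι} (hj : j ≠ i) :
    |t j + B j| + |t j + A j| = 1 := by
  have h1 := h.sgn j hj
  have h2 := h.sq_one hj
  push_cast at h2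
  have h3 : (|t j + B j| + |t j + A j|) ^ 2 = 1 := by
    have h4 : |t j + B j| * |t j + A j| = - ((t j + A j) * (t j + B j)) := by
      rw [← abs_mul, mul_comm, abs_of_nonpos h1]
    have h5 : |t j + B j| ^ 2 = (t j + B j) ^ 2 := sq_abs _
    have h6 : |t j + A j| ^ 2 = (t j + A j) ^ 2 := sq_abs _
    nlinarith
  have h4 : 0 ≤ |t j + B j| + |t j + A j| := by positivity
  nlinarith

/-- the star inequality -/
theorem star (h : Two t S D i A B) {a : ι → ℤ} (ha : a ∈ D) {T : Finset ι} (hT : i ∉ T)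
    (hW : ∀ r ∈ T, ∃ p ∈ D, p r ≠ a r ∧ ∀ u ∈ T, u ≠ r → p u = a u) :
    ∑ r ∈ T, |t r + a r| ≤ (3 - |2 * t i - 1|) / 2 := by
  classical
  choose! p hp hpr hpu using hW
  have hne : ∀ v : T, (v : ι) ≠ i := fun v hv => hT (hv ▸ v.2)
  -- the differences
  let δ : T → ℝ := fun v => (p v v : ℝ) - a v
  have hδ2 : ∀ v : T, δ v * δ v = 1 ∧ (t v + a v) * δ v = - |t v + a v| := by
    intro v
    have h1 := hpr v v.2
    have hs := h.sgn v (hne v)
    have hq := h.sq_one (hne v)
    push_cast at hq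
    have habs := h.abs_add (hne v)
    simp only [δ]
    rcases h.val a ha v (hne v) with h2 | h2 <;> rcases h.val (p v) (hp v v.2) v (hne v) with h3 | h3
    · exact absurd (h3.trans h2.symm) h1
    · rw [h2, h3]
      refine ⟨by linear_combination hq, ?_⟩
      have h4 : |t v + (A v : ℝ)| = |(t v + A v) * ((B v : ℝ) - A v)| := by
        have : |(B v : ℝ) - A v| = 1 := by
          have : |(B v : ℝ) - A v| ^ 2 = 1 := by rw [sq_abs]; linear_combination hq
          have h0 := abs_nonneg ((B v : ℝ) - A v)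
          nlinarith
        rw [abs_mul, this, mul_one]
      rw [h4, abs_of_nonpos (by nlinarith [sq_nonneg (t v + (A v : ℝ))]), neg_neg]
    · rw [h2, h3]
      refine ⟨by linear_combination hq, ?_⟩
      have h4 : |t v + (B v : ℝ)| = |(t v + B v) * ((A v : ℝ) - B v)| := by
        have : |(A v : ℝ) - B v| = 1 := by
          have : |(A v : ℝ) - B v| ^ 2 = 1 := by rw [sq_abs]; linear_combination hq
          have h0 := abs_nonneg ((A v : ℝ) - B v)
          nlinarith
        rw [abs_mul, this, mul_one]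
      rw [h4, abs_of_nonpos (by nlinarith [sq_nonneg (t v + (B v : ℝ))]), neg_neg]
    · exact absurd (h3.trans h2.symm) h1
  have hprod : |∏ v : T, δ v| = 1 := by
    rw [abs_prod]
    refine prod_eq_one fun v _ => ?_
    have h1 := (hδ2 v).1
    have h2 : |δ v| ^ 2 = 1 := by rw [sq_abs, sq]; exact h1
    have h0 := abs_nonneg (δ v)
    nlinarith
  have hsum : ∑ v : T, (t v + a v) * δ v = - ∑ r ∈ T, |t r + a r| := by
    rw [← sum_coe_sort T, ← sum_neg_distrib]
    exact sum_congr rfl fun v _ => (hδ2 v).2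
  -- the two choices of the base point
  have key : ∀ (b₀ b₁ : ℤ), (∀ q ∈ D, Function.update q i b₀ ∈ S) →
      (∀ q ∈ D, Function.update q i b₁ ∈ S) →
      |(t i + b₀) + ((b₁ : ℝ) - b₀) * (∑ r ∈ T, |t r + a r|)| ≤ 1 := by
    intro b₀ b₁ h0 h1
    have e := h.ts.gen (κ := Unit ⊕ T) (Sum.elim (fun _ => i) fun v : T => (v : ι))
      (Sum.elim (fun _ => Function.update a i b₀) fun v : T => Function.update (p v) i b₁) (by
        rintro (_ | v)
        · exact h0 a ha
        · exact h1 _ (hp v v.2))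
    have e2 := det_star (τ := T) (t i + b₀) ((b₁ : ℝ) - b₀) (fun v => t v + a v) δ
      (fun v => (hδ2 v).1)
    rw [hsum] at e2
    have e3 : (Matrix.of fun (x y : Unit ⊕ T) => t (Sum.elim (fun _ => i) (fun v : T => (v : ι)) x) +
      (((Sum.elim (fun _ => Function.update a i b₀) (fun v : T => Function.update (p v) i b₁) y :
        ι → ℤ) (Sum.elim (fun _ => i) (fun v : T => (v : ι)) x) : ℤ) : ℝ)) =
      starM (t i + b₀) ((b₁ : ℝ) - b₀) (fun v : T => t v + a v) δ := by
      ext x y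
      rcases x with x | x <;> rcases y with y | y
      · simp [starM]
      · simp [starM]
      · simp [starM, hne x]
      · simp only [starM, fromBlocks_apply₂₂, Matrix.of_apply, Sum.elim_inr,
          Function.update_of_ne (hne x)]
        by_cases hxy : x = y
        · subst hxy
          simp [δ]
        · rw [if_neg hxy, add_zero, hpu y y.2 x x.2 (fun h => hxy (Subtype.ext h))]
    rw [e3, e2, abs_mul, hprod, mul_one] at e
    have e4 : (t i + b₀) + ((b₁ : ℝ) - b₀) * ∑ r ∈ T, |t r + a r| =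
        t i + b₀ - ((b₁ : ℝ) - b₀) * - ∑ r ∈ T, |t r + a r| := by ring
    rw [e4]
    exact e
  have hu0 : ∀ q ∈ D, Function.update q i 0 ∈ S := by
    intro q hq
    have : Function.update q i 0 = q := by
      rw [← h.zero q hq, Function.update_eq_self]
    rw [this]
    exact h.mem q hq
  have hi0 := h.ti0
  have hi1 := h.ti1
  rcases le_total (t i) (1 / 2) with hle | hle
  · have e := key 0 (-1) hu0 h.upd
    push_cast at e
    rw [abs_of_nonpos (by linarith : 2 * t i - 1 ≤ 0)]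
    have := abs_le.1 e
    linarith [this.1]
  · have e := key (-1) 0 h.upd hu0
    push_cast at e
    rw [abs_of_nonneg (by linarith : 0 ≤ 2 * t i - 1)]
    have := abs_le.1 e
    linarith [this.2]

omit [Fintype ι] in
theorem upd0 (h : Two t S D i A B) {q : ι → ℤ} (hq : q ∈ D) : Function.update q i 0 ∈ S := by
  have : Function.update q i 0 = q := by
    rw [← h.zero q hq, Function.update_eq_self]
  rw [this]
  exact h.mem q hq

omit [Fintype ι] in
theorem abs_one (h : Two t S D i A B) {j : ι} (hj : j ≠ i) :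
    |((A j : ℝ) - B j)| = 1 := by
  have h1 := h.sq_one hj
  push_cast at h1
  have h2 : |((A j : ℝ) - B j)| ^ 2 = 1 := by rw [sq_abs, sq]; exact h1
  have h0 := abs_nonneg ((A j : ℝ) - B j)
  nlinarith

/-- no tetrahedra -/
theorem tet (h : Two t S D i A B) {a b d : ι} (ha : a ≠ i) (hb : b ≠ i) (hd : d ≠ i)
    {q0 q1 q2 q3 : ι → ℤ} (h0 : q0 ∈ D) (h1 : q1 ∈ D) (h2 : q2 ∈ D) (h3 : q3 ∈ D)
    (a0 : q0 a = B a) (b0 : q0 b = B b) (d0 : q0 d = B d)
    (a1 : q1 a = A a) (b1 : q1 b = A b) (d1 : q1 d = B d)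
    (a2 : q2 a = A a) (b2 : q2 b = B b) (d2 : q2 d = A d)
    (a3 : q3 a = B a) (b3 : q3 b = A b) (d3 : q3 d = A d) : False := by
  have key : ∀ c : ℤ, (∀ q ∈ D, Function.update q i c ∈ S) → |2 * (t i + c)| ≤ 1 := by
    intro c hc
    have e := h.ts.gen (κ := Fin 4) ![i, a, b, d] ![Function.update q0 i c,
      Function.update q1 i c, Function.update q2 i c, Function.update q3 i c] (by
        intro x
        fin_cases x
        · exact hc _ h0
        · exact hc _ h1
        · exact hc _ h2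
        · exact hc _ h3)
    have e2 := det_tet (t i + c) (t a + B a) (t b + B b) (t d + B d) ((A a : ℝ) - B a)
      ((A b : ℝ) - B b) ((A d : ℝ) - B d)
    have e3 : (Matrix.of fun x y => t (![i, a, b, d] x) + ((![Function.update q0 i c,
      Function.update q1 i c, Function.update q2 i c, Function.update q3 i c] y
        (![i, a, b, d] x) : ℤ) : ℝ)) =
        (!![t i + c, t i + c, t i + c, t i + c;
          t a + B a, t a + B a + ((A a : ℝ) - B a), t a + B a + ((A a : ℝ) - B a), t a + B a;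
          t b + B b, t b + B b + ((A b : ℝ) - B b), t b + B b, t b + B b + ((A b : ℝ) - B b);
          t d + B d, t d + B d, t d + B d + ((A d : ℝ) - B d),
            t d + B d + ((A d : ℝ) - B d)] : Matrix (Fin 4) (Fin 4) ℝ) := by
      ext x y
      fin_cases x <;> fin_cases y <;> simp [ha, hb, hd, a0, a1, a2, a3, b0, b1, b2, b3, d0, d1,
        d2, d3]
    rw [e3, e2] at e
    have e4 : |-2 * (t i + c) * ((A a : ℝ) - B a) * ((A b : ℝ) - B b) * ((A d : ℝ) - B d)| =
        |2 * (t i + c)| := by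
      rw [abs_mul, abs_mul, abs_mul, h.abs_one ha, h.abs_one hb, h.abs_one hd, mul_one, mul_one,
        mul_one, abs_mul, abs_mul, abs_neg]
    rwa [e4] at e
  have k0 := abs_le.1 (key 0 fun q hq => h.upd0 hq)
  have k1 := abs_le.1 (key (-1) h.upd)
  push_cast at k0 k1
  apply h.tih
  linarith [k0.2, k1.1]

/-- no squares over a big value -/
theorem sq (h : Two t S D i A B) {a b r : ι} (ha : a ≠ i) (hb : b ≠ i) (hr : r ≠ i)
    {q0 q1 q2 q3 : ι → ℤ} (h0 : q0 ∈ D) (h1 : q1 ∈ D) (h2 : q2 ∈ D) (h3 : q3 ∈ D)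
    (r0 : q0 r = A r) (r1 : q1 r = A r) (r2 : q2 r = A r) (r3 : q3 r = A r)
    (a0 : q0 a = B a) (b0 : q0 b = B b) (a1 : q1 a = A a) (b1 : q1 b = B b)
    (a2 : q2 a = B a) (b2 : q2 b = A b) (a3 : q3 a = A a) (b3 : q3 b = A b) :
    |t r + A r| ≤ 1 / 2 := by
  have e := h.ts.gen (κ := Fin 4) ![r, i, a, b] ![Function.update q0 i 0,
    Function.update q1 i (-1), Function.update q2 i (-1), Function.update q3 i 0] (by
      intro x
      fin_cases x
      · exact h.upd0 h0
      · exact h.upd _ h1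
      · exact h.upd _ h2
      · exact h.upd0 h3)
  have e2 := det_tet (t r + A r) (t i) (t a + B a) (t b + B b) (-1) ((A a : ℝ) - B a)
    ((A b : ℝ) - B b)
  have e3 : (Matrix.of fun x y => t (![r, i, a, b] x) + ((![Function.update q0 i 0,
    Function.update q1 i (-1), Function.update q2 i (-1), Function.update q3 i 0] y
      (![r, i, a, b] x) : ℤ) : ℝ)) =
      (!![t r + A r, t r + A r, t r + A r, t r + A r; t i, t i + -1, t i + -1, t i;
        t a + B a, t a + B a + ((A a : ℝ) - B a), t a + B a, t a + B a + ((A a : ℝ) - B a);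
        t b + B b, t b + B b, t b + B b + ((A b : ℝ) - B b), t b + B b + ((A b : ℝ) - B b)] :
        Matrix (Fin 4) (Fin 4) ℝ) := by
    ext x y
    fin_cases x <;> fin_cases y <;> simp [ha, hb, hr, a0, a1, a2, a3, b0, b1, b2, b3, r0, r1,
      r2, r3]
  rw [e3, e2] at e
  have e4 : |-2 * (t r + A r) * (-1) * ((A a : ℝ) - B a) * ((A b : ℝ) - B b)| =
      2 * |t r + A r| := by
    rw [abs_mul, abs_mul, h.abs_one ha, h.abs_one hb, mul_one, mul_one, abs_mul, abs_mul]
    simp
  rw [e4] at e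
  linarith

theorem good (h : Two t S D i A B) : Good (fun j => |t j + B j|) (fun j => |t j + A j|)
    |2 * t i - 1| (univ.erase i) (D.image (pat i A)) where
  c0 := by
    rw [abs_pos]
    intro h0
    exact h.tih (by linarith)
  c1 := by
    rw [abs_lt]
    constructor <;> linarith [h.ti0, h.ti1]
  sum := fun j hj => h.abs_add (ne_of_mem_erase hj)
  nn := fun _ _ => abs_nonneg _
  le := fun j hj => h.big j (ne_of_mem_erase hj)
  typ := fun j hj => by
    rcases h.typ j (ne_of_mem_erase hj) with h1 | h1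
    · exact Or.inl h1
    · exact Or.inr (by simp only [h1, abs_zero])
  sub := by
    intro P hP
    obtain ⟨a, _, rfl⟩ := mem_image.1 hP
    intro j hj
    exact mem_erase.2 ⟨(mem_pat.1 hj).1, mem_univ _⟩
  star := by
    intro P hP T hT hW
    obtain ⟨a, ha, rfl⟩ := mem_image.1 hP
    have hTi : ∀ r ∈ T, r ≠ i := fun r hr => ne_of_mem_erase (hT hr)
    have e := h.star ha (T := T) (fun hi => hTi i hi rfl) (by
      intro r hr
      obtain ⟨P', hP', h1, h2⟩ := hW r hr
      obtain ⟨p, hp, rfl⟩ := mem_image.1 hP'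
      refine ⟨p, hp, ?_, ?_⟩
      · intro heq
        rw [mem_pat, mem_pat, heq] at h1
        have := hTi r hr
        tauto
      · intro u hu hne
        have h3 := h2 u hu hne
        have hui := hTi u hu
        by_cases hup : u ∈ pat i A a
        · exact (eq_A (h3.2 hup)).trans (eq_A hup).symm
        · exact (h.eq_B hp hui (fun h' => hup (h3.1 h'))).trans (h.eq_B ha hui hup).symm)
    refine le_trans (le_of_eq (sum_congr rfl fun r hr => ?_)) e
    exact h.vl_eq ha (hTi r hr)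
  tet := by
    intro a ha b hb d hd _ _ _ S0 h0 S1 h1 S2 h2 S3 h3
    obtain ⟨q0, g0, rfl⟩ := mem_image.1 h0
    obtain ⟨q1, g1, rfl⟩ := mem_image.1 h1
    obtain ⟨q2, g2, rfl⟩ := mem_image.1 h2
    obtain ⟨q3, g3, rfl⟩ := mem_image.1 h3
    have ha := ne_of_mem_erase ha
    have hb := ne_of_mem_erase hb
    have hd := ne_of_mem_erase hd
    intro a0 b0 d0 a1 b1 d1 a2 b2 d2 a3 b3 d3
    exact h.tet ha hb hd g0 g1 g2 g3 (h.eq_B g0 ha a0) (h.eq_B g0 hb b0) (h.eq_B g0 hd d0)
      (eq_A a1) (eq_A b1) (h.eq_B g1 hd d1) (eq_A a2) (h.eq_B g2 hb b2) (eq_A d2)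
      (h.eq_B g3 ha a3) (eq_A b3) (eq_A d3)
  sq := by
    intro a ha b hb r hr _ _ _ hβ S0 h0 S1 h1 S2 h2 S3 h3
    obtain ⟨q0, g0, rfl⟩ := mem_image.1 h0
    obtain ⟨q1, g1, rfl⟩ := mem_image.1 h1
    obtain ⟨q2, g2, rfl⟩ := mem_image.1 h2
    obtain ⟨q3, g3, rfl⟩ := mem_image.1 h3
    have ha := ne_of_mem_erase ha
    have hb := ne_of_mem_erase hb
    have hr := ne_of_mem_erase hr
    intro r0 r1 r2 r3 a0 b0 a1 b1 a2 b2 a3 b3
    have := h.sq ha hb hr g0 g1 g2 g3 (eq_A r0) (eq_A r1) (eq_A r2) (eq_A r3)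
      (h.eq_B g0 ha a0) (h.eq_B g0 hb b0) (eq_A a1) (h.eq_B g1 hb b1) (h.eq_B g2 ha a2)
      (eq_A b2) (eq_A a3) (eq_A b3)
    exact absurd this (not_le.2 hβ)

theorem card_le (h : Two t S D i A B) : D.card ≤ 2 * (Fintype.card ι - 1) + 1 := by
  rw [← card_image_of_injOn h.inj]
  refine h.good.card_le (Fintype.card ι - 1) _ _ ?_
  rw [card_erase_of_mem (mem_univ _), card_univ]

end Two

end Pool.Agent.Lib.MP_74dbbd_co
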