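import Mathlib
import Pool.Agent.Lib.MP_74dbbd_co.TS

section

/-!
Deletion of a row which is neither integral nor half-integral.
-/

namespace Pool.Agent.Lib.MP_74dbbd_co

open Finset Matrix

set_option linter.unusedSectionVars false

variable {ι : Type} [Fintype ι] [DecidableEq ι]

/-- Deletion of the row `i`. -/
def del (i : ι) (S : Finset (ι → ℤ)) : Finset ({j // j ≠ i} → ℤ) :=
  S.image fun a j => a j

theorem mem_del {i : ι} {S : Finset (ι → ℤ)} {b : {j // j ≠ i} → ℤ} :
    b ∈ del i S ↔ ∃ a ∈ S, (fun j : {j // j ≠ i} => a j) = b := by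
  simp [del]

theorem TS.del {t : ι → ℝ} {S : Finset (ι → ℤ)} (h : TS t S) (i : ι) :
    TS (fun j : {j // j ≠ i} => t j) (del i S) := by
  intro k r a ha
  choose b hb hab using fun x => mem_del.1 (ha x)
  have := h k (fun x => r x) b hb
  convert this using 6 with x y
  rw [← hab y]

theorem TS.entry {t : ι → ℝ} {S : Finset (ι → ℤ)} (h : TS t S) {a : ι → ℤ} (ha : a ∈ S) (j : ι) :
    |t j + a j| ≤ 1 := by
  have := h.gen (κ := Unit) (fun _ => j) (fun _ => a) (fun _ => ha)
  rwa [Matrix.det_unique] at this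

theorem TS.ge {t : ι → ℝ} {S : Finset (ι → ℤ)} (h : TS t S) {a : ι → ℤ} (ha : a ∈ S) {j : ι}
    (ht1 : t j < 1) : -1 ≤ a j := by
  have h1 := (abs_le.1 (h.entry ha j)).1
  have h2 : (-2 : ℝ) < a j := by linarith
  have h3 : (-2 : ℤ) < a j := by exact_mod_cast h2
  omega

theorem TS.le {t : ι → ℝ} {S : Finset (ι → ℤ)} (h : TS t S) {a : ι → ℤ} (ha : a ∈ S) {j : ι}
    (ht0 : 0 ≤ t j) : a j ≤ 1 := by
  have h1 := (abs_le.1 (h.entry ha j)).2
  have h2 : (a j : ℝ) ≤ 1 := by linarith
  exact_mod_cast h2

theorem TS.le' {t : ι → ℝ} {S : Finset (ι → ℤ)} (h : TS t S) {a : ι → ℤ} (ha : a ∈ S) {j : ι}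
    (ht0 : 0 < t j) : a j ≤ 0 := by
  have h1 := (abs_le.1 (h.entry ha j)).2
  have h2 : (a j : ℝ) < 1 := by linarith
  have h3 : a j < 1 := by exact_mod_cast h2
  omega

/-- The double fibres over a row which is not integral. -/
def dfib (S : Finset (ι → ℤ)) (i : ι) : Finset (ι → ℤ) :=
  S.filter fun a => a i = 0 ∧ Function.update a i (-1) ∈ S

theorem mem_dfib {S : Finset (ι → ℤ)} {i : ι} {a : ι → ℤ} :
    a ∈ dfib S i ↔ a ∈ S ∧ a i = 0 ∧ Function.update a i (-1) ∈ S := by
  simp [dfib]

theorem card_le_del {t : ι → ℝ} {S : Finset (ι → ℤ)} (h : TS t S) {i : ι} (h0 : 0 < t i)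
    (h1 : t i < 1) : S.card ≤ (del i S).card + (dfib S i).card := by
  classical
  have hinj : ∀ c : ℤ, Set.InjOn (fun (a : ι → ℤ) (j : {j // j ≠ i}) => a j)
      ((S.filter fun a => a i = c : Finset (ι → ℤ)) : Set (ι → ℤ)) := by
    intro c a ha b hb hab
    rw [mem_coe, mem_filter] at ha hb
    funext j
    by_cases hj : j = i
    · rw [hj, ha.2, hb.2]
    · exact congrFun hab ⟨j, hj⟩
  have hS : S = (S.filter fun a => a i = 0) ∪ (S.filter fun a => a i = -1) := by
    ext a
    rw [mem_union, mem_filter, mem_filter]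
    constructor
    · intro ha
      have e1 := h.ge ha h1
      have e2 := h.le' ha h0
      have : a i = 0 ∨ a i = -1 := by omega
      tauto
    · tauto
  have hc : S.card ≤ (S.filter fun a => a i = 0).card + (S.filter fun a => a i = -1).card := by
    conv_lhs => rw [hS]
    exact card_union_le _ _
  rw [← card_image_of_injOn (hinj 0), ← card_image_of_injOn (hinj (-1)),
    ← card_union_add_card_inter] at hc
  refine hc.trans (add_le_add (card_le_card ?_) ?_)
  · refine union_subset ?_ ?_ <;> exact image_subset_image (filter_subset _ _)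
  · refine le_trans (card_le_card ?_) (card_image_le (f := fun (a : ι → ℤ) (j : {j // j ≠ i}) => a j)
      (s := dfib S i))
    intro b hb
    rw [mem_inter, mem_image, mem_image] at hb
    obtain ⟨⟨a, ha, rfl⟩, a', ha', haa⟩ := hb
    rw [mem_filter] at ha ha'
    refine mem_image.2 ⟨a, mem_dfib.2 ⟨ha.1, ha.2, ?_⟩, rfl⟩
    have : Function.update a i (-1) = a' := by
      funext j
      by_cases hj : j = i
      · rw [hj, Function.update_self, ha'.2]
      · rw [Function.update_of_ne hj]
        exact (congrFun haa ⟨j, hj⟩).symm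
    rw [this]
    exact ha'.1

theorem dfib_pm {t : ι → ℝ} {S : Finset (ι → ℤ)} (h : TS t S) {i j : ι} (hij : j ≠ i)
    (hh : t i ≠ 1 / 2) (hj : t j = 0) {a a' : ι → ℤ} (ha : a ∈ dfib S i) (ha' : a' ∈ dfib S i)
    (h1 : a j = 1) (h2 : a' j = -1) : False := by
  rw [mem_dfib] at ha ha'
  have key : ∀ c : ℤ, Function.update a i c ∈ S → Function.update a' i c ∈ S →
      |2 * (t i + c)| ≤ 1 := by
    intro c hc hc'
    have e := h.gen (κ := Fin 2) ![i, j] ![Function.update a i c, Function.update a' i c] (by
      intro x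
      fin_cases x
      · exact hc
      · exact hc')
    rw [Matrix.det_fin_two] at e
    simp [hij, h1, h2, hj] at e
    have e2 : |2 * (t i + c)| = |-(c : ℝ) + -t i - (t i + ↑c)| := by
      rw [← abs_neg]
      congr 1
      ring
    rw [e2]
    exact e
  have u0 : ∀ q : ι → ℤ, q i = 0 → Function.update q i 0 = q := by
    intro q hq
    rw [← hq, Function.update_eq_self]
  have k0 := abs_le.1 (key 0 (by rw [u0 a ha.2.1]; exact ha.1) (by rw [u0 a' ha'.2.1]; exact ha'.1))
  have k1 := abs_le.1 (key (-1) ha.2.2 ha'.2.2)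
  push_cast at k0 k1
  apply hh
  linarith [k0.2, k1.1]

theorem two_dfib {t : ι → ℝ} {S : Finset (ι → ℤ)} (h : TS t S) (ht0 : ∀ j, 0 ≤ t j)
    (ht1 : ∀ j, t j < 1) {i : ι} (hi0 : t i ≠ 0) (hih : t i ≠ 1 / 2)
    (hmax : ∀ j, j ≠ i → t j = 0 ∨ |2 * t j - 1| ≤ |2 * t i - 1|) :
    ∃ A B : ι → ℤ, Two t S (dfib S i) i A B := by
  classical
  have hz : ∀ j, j ≠ i → ∃ A B : ℤ, (∀ a ∈ dfib S i, a j = A ∨ a j = B) ∧
      (A - B = 1 ∨ A - B = -1) ∧ (t j + A) * (t j + B) ≤ 0 ∧ |t j + B| ≤ |t j + A| ∧
      (|t j + A| - |t j + B| ≤ |2 * t i - 1| ∨ t j + B = 0) := by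
    intro j hj
    rcases eq_or_lt_of_le (ht0 j) with hj0 | hj0
    · by_cases hex : ∃ a ∈ dfib S i, a j = 1
      · obtain ⟨a, ha, ha1⟩ := hex
        refine ⟨1, 0, ?_, Or.inl rfl, by simp [← hj0], by simp [← hj0], Or.inr (by simp [← hj0])⟩
        intro a' ha'
        have e1 := h.ge (mem_dfib.1 ha').1 (ht1 j)
        have e2 := h.le (mem_dfib.1 ha').1 (ht0 j)
        have e3 : a' j ≠ -1 := fun h' => dfib_pm h hj hih hj0.symm ha ha' ha1 h'
        omega
      · push Not at hex
        refine ⟨-1, 0, ?_, Or.inr rfl, by simp [← hj0], by simp [← hj0], Or.inr (by simp [← hj0])⟩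
        intro a' ha'
        have e1 := h.ge (mem_dfib.1 ha').1 (ht1 j)
        have e2 := h.le (mem_dfib.1 ha').1 (ht0 j)
        have e3 := hex a' ha'
        omega
    · have hm := (hmax j hj).resolve_left hj0.ne'
      have hj1 := ht1 j
      rcases le_or_gt (1 / 2) (t j) with hle | hlt
      · have e3 : |t j| = t j := abs_of_pos hj0
        have e4 : |t j + -1| = 1 - t j := by rw [abs_of_neg (by linarith)]; ring
        have e5 : |2 * t j - 1| = 2 * t j - 1 := abs_of_nonneg (by linarith)
        refine ⟨0, -1, ?_, Or.inl rfl, ?_, ?_, Or.inl ?_⟩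
        · intro a' ha'
          have e1 := h.ge (mem_dfib.1 ha').1 (ht1 j)
          have e2 := h.le' (mem_dfib.1 ha').1 hj0
          omega
        · push_cast; nlinarith
        · push_cast; rw [add_zero, e3, e4]; linarith
        · push_cast; rw [add_zero, e3, e4]; linarith
      · have e3 : |t j| = t j := abs_of_pos hj0
        have e4 : |t j + -1| = 1 - t j := by rw [abs_of_neg (by linarith)]; ring
        have e5 : |2 * t j - 1| = 1 - 2 * t j := by rw [abs_of_neg (by linarith)]; ring
        refine ⟨-1, 0, ?_, Or.inr rfl, ?_, ?_, Or.inl ?_⟩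
        · intro a' ha'
          have e1 := h.ge (mem_dfib.1 ha').1 (ht1 j)
          have e2 := h.le' (mem_dfib.1 ha').1 hj0
          omega
        · push_cast; nlinarith
        · push_cast; rw [add_zero, e3, e4]; linarith
        · push_cast; rw [add_zero, e3, e4]; linarith
  have : Nonempty ℤ := ⟨0⟩
  choose! A B h1 h2 h3 h4 h5 using hz
  refine ⟨A, B, ⟨h, fun a ha => (mem_dfib.1 ha).1, fun a ha => (mem_dfib.1 ha).2.1,
    fun a ha => (mem_dfib.1 ha).2.2, fun a ha j hj => h1 j hj a ha, h2, h3, h4, h5,
    lt_of_le_of_ne (ht0 i) hi0.symm, ht1 i, hih⟩⟩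

/-- deletion of a generic row with the largest `|2 t_i - 1|` -/
theorem gen_step {t : ι → ℝ} {S : Finset (ι → ℤ)} (h : TS t S) (ht0 : ∀ j, 0 ≤ t j)
    (ht1 : ∀ j, t j < 1) {i : ι} (hi0 : t i ≠ 0) (hih : t i ≠ 1 / 2)
    (hmax : ∀ j, j ≠ i → t j = 0 ∨ |2 * t j - 1| ≤ |2 * t i - 1|) :
    S.card ≤ (del i S).card + (2 * (Fintype.card ι - 1) + 1) := by
  obtain ⟨A, B, hT⟩ := two_dfib h ht0 ht1 hi0 hih hmax
  have h1 := card_le_del h (lt_of_le_of_ne (ht0 i) hi0.symm) (ht1 i)
  have h2 := hT.card_le
  omega

end Pool.Agent.Lib.MP_74dbbd_co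
end

section

/-!
Half-integral shifts, in doubled coordinates: stars and the averaging inequality.
-/

namespace Pool.Agent.Lib.MP_74dbbd_co

open Finset Matrix

set_option linter.unusedSectionVars false

variable {ι : Type} [Fintype ι] [DecidableEq ι]

/-- All `k × k` minors of the matrix with the columns `y ∈ Y` are at most `2^k`. -/
def TS2 (Y : Finset (ι → ℤ)) : Prop :=
  ∀ (k : ℕ) (r : Fin k → ι) (y : Fin k → ι → ℤ), (∀ b, y b ∈ Y) →
    |(Matrix.of fun a b => y b (r a)).det| ≤ 2 ^ k

theorem TS2.gen {Y : Finset (ι → ℤ)} (h : TS2 Y) {κ : Type} [Fintype κ]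
    [DecidableEq κ] (r : κ → ι) (y : κ → ι → ℤ) (hy : ∀ b, y b ∈ Y) :
    |(Matrix.of fun a b => y b (r a)).det| ≤ 2 ^ Fintype.card κ := by
  let e := Fintype.equivFin κ
  have := h (Fintype.card κ) (fun x => r (e.symm x)) (fun x => y (e.symm x))
    (fun b => hy _)
  rw [← Matrix.det_submatrix_equiv_self e.symm]
  exact this

theorem TS2.del {Y : Finset (ι → ℤ)} (h : TS2 Y) (i : ι) : TS2 (del i Y) := by
  intro k r a ha
  choose b hb hab using fun x => mem_del.1 (ha x)
  have := h k (fun x => r x) b hb
  have e : (Matrix.of fun (x y : Fin k) => a y (r x)) =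
      Matrix.of fun (x y : Fin k) => b y (r x : ι) := by
    ext x y
    simp only [Matrix.of_apply]
    rw [← hab y]
  rw [e]
  exact this

theorem TS2.mono {Y Y' : Finset (ι → ℤ)} (h : TS2 Y) (hs : Y' ⊆ Y) : TS2 Y' :=
  fun k r y hy => h k r y fun b => hs (hy b)

/-- The class of sets of vectors with odd rows `H`. -/
structure Cls (H : Finset ι) (Y : Finset (ι → ℤ)) : Prop where
  odd : ∀ y ∈ Y, ∀ i ∈ H, y i = 1 ∨ y i = -1
  even : ∀ y ∈ Y, ∀ i, i ∉ H → y i = 0 ∨ y i = 2 ∨ y i = -2
  ts : TS2 Y

/-- determinant of a star -/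
theorem det_star2 {τ : Type} [Fintype τ] [DecidableEq τ] (y δ w : τ → ℤ)
    (h : ∀ v, 2 * y v = - w v * δ v) :
    2 * (Matrix.of fun v u => y v + if v = u then δ u else 0 : Matrix τ τ ℤ).det =
      (2 - ∑ v, w v) * ∏ v, δ v := by
  let M : Matrix (Unit ⊕ τ) (Unit ⊕ τ) ℤ :=
    fromBlocks 1 (Matrix.of fun _ _ => -1) (Matrix.of fun v _ => y v) (diagonal δ)
  let Q : Matrix (Unit ⊕ τ) (Unit ⊕ τ) ℤ :=
    fromBlocks (Matrix.of fun _ _ => 2) 0 (Matrix.of fun v _ => w v) 1
  let U : Matrix (Unit ⊕ τ) (Unit ⊕ τ) ℤ :=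
    fromBlocks (Matrix.of fun _ _ => 2 - ∑ v, w v) (Matrix.of fun _ _ => -1) 0 (diagonal δ)
  have h1 : M.det = (Matrix.of fun v u => y v + if v = u then δ u else 0 : Matrix τ τ ℤ).det := by
    simp only [M]
    rw [det_fromBlocks_one₁₁]
    congr 1
    ext v u
    simp [Matrix.mul_apply, Matrix.diagonal_apply]
    by_cases hvu : v = u
    · subst hvu; simp; ring
    · simp [hvu]
  have h2 : M * Q = U := by
    simp only [M, Q, U, fromBlocks_multiply]
    congr 1
    · ext p q
      simp [Matrix.mul_apply]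
      ring
    · ext p q
      simp
    · ext p q
      simp [Matrix.mul_apply, Matrix.diagonal_apply]
      have := h p
      linarith
    · ext p q
      simp
  have h3 : Q.det = 2 := by simp [Q]
  have h4 : U.det = (2 - ∑ v, w v) * ∏ v, δ v := by
    simp [U, det_fromBlocks_zero₂₁, det_diagonal]
  rw [← h1, ← h4, ← h2, Matrix.det_mul, h3, mul_comm]

/-- The weight of the row `i` at the vector `y`. -/
def W (Y : Finset (ι → ℤ)) (i : ι) (y : ι → ℤ) : ℤ :=
  if y i = 1 ∨ y i = -1 then (if Function.update y i (-y i) ∈ Y then 1 else 0)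
  else if y i = 2 ∨ y i = -2 then
    (if Function.update y i 0 ∈ Y then 2 else if Function.update y i (-y i) ∈ Y then 1 else 0)
  else 0

/-- The step of the row `i` at the vector `y`. -/
def dl (Y : Finset (ι → ℤ)) (i : ι) (y : ι → ℤ) : ℤ :=
  if y i = 1 ∨ y i = -1 then -2 * y i
  else if Function.update y i 0 ∈ Y then - y i else -2 * y i

theorem W_spec {Y : Finset (ι → ℤ)} {i : ι} {y : ι → ℤ} (hW : W Y i y ≠ 0) :
    2 * y i = - W Y i y * dl Y i y ∧ Function.update y i (y i + dl Y i y) ∈ Y ∧
      2 ≤ |dl Y i y| := by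
  by_cases h1 : y i = 1 ∨ y i = -1
  · have hdl : dl Y i y = -2 * y i := by unfold dl; rw [if_pos h1]
    unfold W at hW ⊢
    rw [if_pos h1] at hW ⊢
    by_cases h2 : Function.update y i (-y i) ∈ Y
    · rw [if_pos h2, hdl]
      refine ⟨by ring, ?_, ?_⟩
      · have : y i + -2 * y i = - y i := by ring
        rw [this]; exact h2
      · rcases h1 with h1 | h1 <;> rw [h1] <;> decide
    · rw [if_neg h2] at hW
      exact absurd rfl hW
  · by_cases h3 : y i = 2 ∨ y i = -2
    · by_cases h4 : Function.update y i 0 ∈ Y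
      · have hdl : dl Y i y = - y i := by unfold dl; rw [if_neg h1, if_pos h4]
        unfold W at hW ⊢
        rw [if_neg h1, if_pos h3, if_pos h4] at hW ⊢
        rw [hdl]
        refine ⟨by ring, ?_, ?_⟩
        · have : y i + - y i = 0 := by ring
          rw [this]; exact h4
        · rcases h3 with h3 | h3 <;> rw [h3] <;> decide
      · have hdl : dl Y i y = -2 * y i := by unfold dl; rw [if_neg h1, if_neg h4]
        unfold W at hW ⊢
        rw [if_neg h1, if_pos h3, if_neg h4] at hW ⊢
        by_cases h2 : Function.update y i (-y i) ∈ Y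
        · rw [if_pos h2, hdl]
          refine ⟨by ring, ?_, ?_⟩
          · have : y i + -2 * y i = - y i := by ring
            rw [this]; exact h2
          · rcases h3 with h1 | h1 <;> rw [h1] <;> decide
        · rw [if_neg h2] at hW
          exact absurd rfl hW
    · unfold W at hW
      rw [if_neg h1, if_neg h3] at hW
      exact absurd rfl hW

theorem W_dbl {Y : Finset (ι → ℤ)} {i : ι} {y : ι → ℤ} (hW : W Y i y = 1)
    (hi : y i = 2 ∨ y i = -2) : |dl Y i y| = 4 := by
  unfold W at hW
  unfold dl
  have h0 : ¬ (y i = 1 ∨ y i = -1) := by omega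
  rw [if_neg h0, if_pos hi] at hW
  rw [if_neg h0]
  by_cases h1 : Function.update y i 0 ∈ Y
  · rw [if_pos h1] at hW
    exact absurd hW (by decide)
  · rw [if_neg h1]
    rcases hi with hi | hi <;> rw [hi] <;> decide

theorem W_nonneg (Y : Finset (ι → ℤ)) (i : ι) (y : ι → ℤ) : 0 ≤ W Y i y := by
  unfold W; split_ifs <;> decide

theorem W_le_two (Y : Finset (ι → ℤ)) (i : ι) (y : ι → ℤ) : W Y i y ≤ 2 := by
  unfold W; split_ifs <;> decide

/-- The star inequality. -/
theorem star_le {Y : Finset (ι → ℤ)} (hY : TS2 Y) (y : ι → ℤ) :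
    ∑ i, W Y i y ≤ 4 ∧
      ∀ i, W Y i y = 1 → (y i = 2 ∨ y i = -2) → ∑ i, W Y i y ≤ 3 := by
  classical
  let T := {i : ι // W Y i y ≠ 0}
  have hsum : ∑ i, W Y i y = ∑ v : T, W Y v y := by
    rw [← Finset.sum_subtype (univ.filter fun i => W Y i y ≠ 0)
      (fun x => by simp) (fun i => W Y i y), Finset.sum_filter_ne_zero]
  have hdet := hY.gen (κ := T) (fun v => v)
    (fun u => Function.update y u (y u + dl Y u y)) (fun u => (W_spec u.2).2.1)
  have hM : (Matrix.of fun (v u : T) => Function.update y (u : ι) (y u + dl Y u y) (v : ι)) =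
      (Matrix.of fun (v u : T) => y v + if v = u then dl Y u y else 0) := by
    ext v u
    simp only [Matrix.of_apply]
    by_cases hvu : v = u
    · subst hvu; simp
    · rw [if_neg hvu, add_zero, Function.update_of_ne]
      exact fun h => hvu (Subtype.ext h)
  rw [hM] at hdet
  have h2 := det_star2 (fun v : T => y v) (fun v : T => dl Y v y) (fun v : T => W Y v y)
    (fun v => (W_spec v.2).1)
  rw [← hsum] at h2
  set D := (Matrix.of fun (v u : T) => y v + if v = u then dl Y u y else 0).det
  have h3 : |2 - ∑ i, W Y i y| * ∏ v : T, |dl Y v y| ≤ 2 * 2 ^ Fintype.card T := by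
    rw [← Finset.abs_prod, ← abs_mul, ← h2, abs_mul]
    simpa using hdet
  have h4 : (2 : ℤ) ^ Fintype.card T ≤ ∏ v : T, |dl Y v y| := by
    have := Finset.prod_le_prod (s := (univ : Finset T)) (f := fun _ => (2 : ℤ))
      (g := fun v : T => |dl Y v y|) (fun _ _ => by norm_num) (fun v _ => (W_spec v.2).2.2)
    simpa using this
  have h5 : (0 : ℤ) < 2 ^ Fintype.card T := by positivity
  constructor
  · have : |2 - ∑ i, W Y i y| * 2 ^ Fintype.card T ≤ 2 * 2 ^ Fintype.card T :=
      le_trans (mul_le_mul_of_nonneg_left h4 (abs_nonneg _)) h3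
    have h6 := le_of_mul_le_mul_right this h5
    have := (abs_le.1 h6).1
    linarith
  · intro i hi hyi
    have hT : W Y i y ≠ 0 := by rw [hi]; decide
    have h7 : 2 * (2 : ℤ) ^ Fintype.card T ≤ ∏ v : T, |dl Y v y| := by
      rw [← Finset.mul_prod_erase univ (fun v : T => |dl Y v y|) (mem_univ (⟨i, hT⟩ : T))]
      simp only
      rw [W_dbl hi hyi]
      have := Finset.prod_le_prod (s := (univ : Finset T).erase ⟨i, hT⟩) (f := fun _ => (2 : ℤ))
        (g := fun v : T => |dl Y v y|) (fun _ _ => by norm_num) (fun v _ => (W_spec v.2).2.2)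
      rw [Finset.prod_const, Finset.card_erase_of_mem (mem_univ _), card_univ] at this
      have h8 : 0 < Fintype.card T := Fintype.card_pos_iff.2 ⟨⟨i, hT⟩⟩
      have h9 : (2 : ℤ) ^ Fintype.card T = 2 * 2 ^ (Fintype.card T - 1) := by
        rw [← pow_succ']
        congr 1
        omega
      rw [h9]
      linarith
    have : |2 - ∑ i, W Y i y| * (2 * 2 ^ Fintype.card T) ≤ 1 * (2 * 2 ^ Fintype.card T) := by
      rw [one_mul]
      exact le_trans (mul_le_mul_of_nonneg_left h7 (abs_nonneg _)) h3
    have h6 := le_of_mul_le_mul_right this (by positivity)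
    have := (abs_le.1 h6).1
    linarith


theorem W_update (Y : Finset (ι → ℤ)) (i : ι) (y : ι → ℤ) (c : ℤ) :
    W Y i (Function.update y i c) =
      if c = 1 ∨ c = -1 then (if Function.update y i (-c) ∈ Y then 1 else 0)
      else if c = 2 ∨ c = -2 then
        (if Function.update y i 0 ∈ Y then 2 else if Function.update y i (-c) ∈ Y then 1 else 0)
      else 0 := by
  unfold W
  simp only [Function.update_self, Function.update_idem]

theorem fib_sum {H : Finset ι} {Y : Finset (ι → ℤ)} (hY : Cls H Y) (i : ι) :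
    ∑ y ∈ Y, (2 - W Y i y) ≤ 2 * ((del i Y).card : ℤ) := by
  classical
  have hmap : ∀ y ∈ Y, (fun j : {j // j ≠ i} => y j) ∈ del i Y :=
    fun y hy => mem_del.2 ⟨y, hy, rfl⟩
  rw [← Finset.sum_fiberwise_of_maps_to hmap]
  have hfib : ∀ z ∈ del i Y,
      ∑ y ∈ Y with (fun j : {j // j ≠ i} => y j) = z, (2 - W Y i y) ≤ 2 := by
    intro z hz
    obtain ⟨y0, hy0, rfl⟩ := mem_del.1 hz
    have key : ∀ V : Finset ℤ, (∀ y ∈ Y, y i ∈ V) →
        ∑ y ∈ Y with (fun j : {j // j ≠ i} => y j) = (fun j : {j // j ≠ i} => y0 j),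
          (2 - W Y i y) = ∑ c ∈ V, if Function.update y0 i c ∈ Y then
            2 - W Y i (Function.update y0 i c) else 0 := by
      intro V hV
      rw [← Finset.sum_filter]
      symm
      refine Finset.sum_bij (fun c _ => Function.update y0 i c) ?_ ?_ ?_ ?_
      · intro c hc
        rw [mem_filter] at hc ⊢
        refine ⟨hc.2, ?_⟩
        funext j
        rw [Function.update_of_ne j.2]
      · intro c _ c' _ h
        have := congrFun h i
        rwa [Function.update_self, Function.update_self] at this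
      · intro y hy
        rw [mem_filter] at hy
        have e : Function.update y0 i (y i) = y := by
          funext j
          by_cases hj : j = i
          · rw [hj, Function.update_self]
          · rw [Function.update_of_ne hj]
            exact (congrFun hy.2 ⟨j, hj⟩).symm
        exact ⟨y i, mem_filter.2 ⟨hV y hy.1, by rw [e]; exact hy.1⟩, e⟩
      · intro c _
        rfl
    by_cases hi : i ∈ H
    · rw [key {1, -1} (fun y hy => by
        rcases hY.odd y hy i hi with h | h <;> simp [h])]
      rw [Finset.sum_pair (by decide), W_update, W_update, neg_neg]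
      rw [if_pos (Or.inl rfl), if_pos (Or.inr rfl)]
      split_ifs <;> norm_num
    · rw [key {0, 2, -2} (fun y hy => by
        rcases hY.even y hy i hi with h | h | h <;> simp [h])]
      rw [Finset.sum_insert (by decide), Finset.sum_pair (by decide), W_update, W_update, W_update,
        neg_neg]
      rw [if_neg (show ¬ ((0 : ℤ) = 1 ∨ (0 : ℤ) = -1) by decide),
        if_neg (show ¬ ((0 : ℤ) = 2 ∨ (0 : ℤ) = -2) by decide),
        if_neg (show ¬ ((2 : ℤ) = 1 ∨ (2 : ℤ) = -1) by decide),
        if_pos (show ((2 : ℤ) = 2 ∨ (2 : ℤ) = -2) by decide),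
        if_neg (show ¬ ((-2 : ℤ) = 1 ∨ (-2 : ℤ) = -1) by decide),
        if_pos (show ((-2 : ℤ) = 2 ∨ (-2 : ℤ) = -2) by decide)]
      split_ifs <;> norm_num
  calc _ ≤ ∑ z ∈ del i Y, (2 : ℤ) := Finset.sum_le_sum hfib
    _ = _ := by rw [Finset.sum_const, nsmul_eq_mul]; ring

/-- The total weight. -/
def Wt (Y : Finset (ι → ℤ)) (y : ι → ℤ) : ℤ := ∑ i, W Y i y

/-- The averaging inequality. -/
theorem avg {H : Finset ι} {Y : Finset (ι → ℤ)} (hY : Cls H Y) :
    2 * ((Fintype.card ι : ℤ) - 2) * Y.card + ∑ y ∈ Y, (4 - Wt Y y) ≤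
      2 * ∑ i, ((del i Y).card : ℤ) := by
  have h1 : ∑ i, ∑ y ∈ Y, (2 - W Y i y) ≤ ∑ i, 2 * ((del i Y).card : ℤ) :=
    Finset.sum_le_sum fun i _ => fib_sum hY i
  rw [Finset.sum_comm, ← Finset.mul_sum] at h1
  refine le_trans (le_of_eq ?_) h1
  have h2 : ∀ y ∈ Y, ∑ i, (2 - W Y i y) = 2 * ((Fintype.card ι : ℤ) - 2) + (4 - Wt Y y) := by
    intro y _
    rw [Finset.sum_sub_distrib, Finset.sum_const, card_univ, nsmul_eq_mul]
    unfold Wt
    ring
  rw [Finset.sum_congr rfl h2, Finset.sum_add_distrib, Finset.sum_const, nsmul_eq_mul]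
  ring

theorem Wt_le {Y : Finset (ι → ℤ)} (hY : TS2 Y) (y : ι → ℤ) : Wt Y y ≤ 4 := (star_le hY y).1

theorem Wt_nonneg (Y : Finset (ι → ℤ)) (y : ι → ℤ) : 0 ≤ Wt Y y :=
  Finset.sum_nonneg fun i _ => W_nonneg Y i y

/-- Vectors with a step in a single odd row have weight at most 3. -/
theorem Wt_le_three_of_odd {Y : Finset (ι → ℤ)} {i : ι} {H : Finset ι} (hY : Cls H Y)
    (hH : H = {i}) {y : ι → ℤ} (hy : y ∈ Y) (hW : W Y i y = 1) : Wt Y y ≤ 3 := by
  by_cases hd : ∃ j, W Y j y = 1 ∧ (y j = 2 ∨ y j = -2)
  · obtain ⟨j, hj, hj2⟩ := hd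
    exact (star_le hY.ts y).2 j hj hj2
  · push Not at hd
    have h4 := Wt_le hY.ts y
    have hodd : ¬ (2 ∣ Wt Y y) := by
      have h1 : Wt Y y = W Y i y + ∑ j ∈ univ.erase i, W Y j y := by
        exact (Finset.add_sum_erase univ (fun j => W Y j y) (mem_univ i)).symm
      have h2 : 2 ∣ ∑ j ∈ univ.erase i, W Y j y := by
        refine Finset.dvd_sum fun j hj => ?_
        have hji : j ≠ i := (mem_erase.1 hj).1
        have hjH : j ∉ H := by rw [hH, mem_singleton]; exact hji
        have hj0 : ¬ (y j = 1 ∨ y j = -1) := by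
          rcases hY.even y hy j hjH with h | h | h <;> omega
        by_cases hj2 : y j = 2 ∨ y j = -2
        · have := hd j
          have h3 : W Y j y ≠ 1 := by
            intro h
            have := this h
            omega
          have h4 := W_nonneg Y j y
          have h5 := W_le_two Y j y
          omega
        · unfold W
          rw [if_neg hj0, if_neg hj2]
          exact dvd_zero 2
      rw [h1, hW]
      omega
    omega

end Pool.Agent.Lib.MP_74dbbd_co
end

section

/-!
Closure operations and Heller's bound.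
-/

namespace Pool.Agent.Lib.MP_74dbbd_co

open Finset Matrix

set_option linter.unusedSectionVars false

variable {ι : Type} [Fintype ι] [DecidableEq ι]

/-- The symmetrization. -/
def sym (Y : Finset (ι → ℤ)) : Finset (ι → ℤ) := Y ∪ Y.image fun y => -y

theorem mem_sym {Y : Finset (ι → ℤ)} {y : ι → ℤ} : y ∈ sym Y ↔ y ∈ Y ∨ -y ∈ Y := by
  unfold sym
  rw [mem_union, mem_image]
  constructor
  · rintro (h | ⟨z, hz, rfl⟩)
    · exact Or.inl h
    · right; rwa [neg_neg]
  · rintro (h | h)
    · exact Or.inl h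
    · exact Or.inr ⟨-y, h, neg_neg y⟩

theorem TS2.sym {Y : Finset (ι → ℤ)} (h : TS2 Y) : TS2 (sym Y) := by
  intro k r y hy
  have h1 : ∀ b, ∃ e : ℤ, ∃ y' ∈ Y, (e = 1 ∨ e = -1) ∧ ∀ i, y b i = e * y' i := by
    intro b
    rcases mem_sym.1 (hy b) with h | h
    · exact ⟨1, y b, h, Or.inl rfl, fun i => (one_mul _).symm⟩
    · exact ⟨-1, -y b, h, Or.inr rfl, fun i => by simp⟩
  choose e y' hy' he hey using h1
  have h2 : (Matrix.of fun a b => y b (r a)) =
      Matrix.of fun a b => e b * (Matrix.of fun a b => y' b (r a)) a b := by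
    ext a b
    simp only [Matrix.of_apply]
    exact hey b (r a)
  rw [h2, Matrix.det_mul_row, abs_mul, Finset.abs_prod]
  have h3 : ∏ b, |e b| = 1 := Finset.prod_eq_one fun b _ => by
    rcases he b with h | h <;> rw [h] <;> decide
  rw [h3, one_mul]
  exact h k r y' hy'

theorem Cls.sym {H : Finset ι} {Y : Finset (ι → ℤ)} (h : Cls H Y) : Cls H (sym Y) := by
  refine ⟨?_, ?_, h.ts.sym⟩
  · intro y hy i hi
    rcases mem_sym.1 hy with h1 | h1
    · exact h.odd y h1 i hi
    · have := h.odd _ h1 i hi
      simp only [Pi.neg_apply] at this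
      omega
  · intro y hy i hi
    rcases mem_sym.1 hy with h1 | h1
    · exact h.even y h1 i hi
    · have := h.even _ h1 i hi
      simp only [Pi.neg_apply] at this
      omega

theorem Cls.del {H : Finset ι} {Y : Finset (ι → ℤ)} (h : Cls H Y) (i : ι) :
    Cls (H.subtype fun j => j ≠ i) (del i Y) := by
  refine ⟨?_, ?_, h.ts.del i⟩
  · intro z hz j hj
    obtain ⟨y, hy, rfl⟩ := mem_del.1 hz
    exact h.odd y hy j (mem_subtype.1 hj)
  · intro z hz j hj
    obtain ⟨y, hy, rfl⟩ := mem_del.1 hz
    exact h.even y hy j fun h' => hj (mem_subtype.2 h')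

/-- Adding the zero vector and the vectors with a single nonzero coordinate `±2`. -/
def unt (Y : Finset (ι → ℤ)) : Finset (ι → ℤ) :=
  Y ∪ univ.image fun x : Option (ι ⊕ ι) => match x with
    | none => 0
    | some (Sum.inl i) => Pi.single i 2
    | some (Sum.inr i) => Pi.single i (-2)

/-- The unit vectors. -/
def uv (x : Option (ι ⊕ ι)) : ι → ℤ := match x with
  | none => 0
  | some (Sum.inl i) => Pi.single i 2
  | some (Sum.inr i) => Pi.single i (-2)

theorem mem_unt {Y : Finset (ι → ℤ)} {y : ι → ℤ} : y ∈ unt Y ↔ y ∈ Y ∨ ∃ x, uv x = y := by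
  unfold unt
  rw [mem_union, mem_image]
  constructor
  · rintro (h | ⟨x, _, rfl⟩)
    · exact Or.inl h
    · exact Or.inr ⟨x, rfl⟩
  · rintro (h | ⟨x, rfl⟩)
    · exact Or.inl h
    · exact Or.inr ⟨x, mem_univ _, rfl⟩

theorem uv_spec (x : Option (ι ⊕ ι)) : uv x = 0 ∨ ∃ i, ∃ c : ℤ, |c| = 2 ∧ uv x = Pi.single i c := by
  rcases x with _ | x | x
  · exact Or.inl rfl
  · exact Or.inr ⟨x, 2, by decide, rfl⟩
  · exact Or.inr ⟨x, -2, by decide, rfl⟩

theorem uv_inj : Function.Injective (uv : Option (ι ⊕ ι) → ι → ℤ) := by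
  intro x x' h
  rcases x with _ | x | x <;> rcases x' with _ | x' | x' <;> simp only [uv] at h
  · rfl
  · have := congrFun h x'
    simp at this
  · have := congrFun h x'
    simp at this
  · have := congrFun h x
    simp at this
  · have := congrFun h x
    rw [Pi.single_eq_same] at this
    by_cases hx : x = x'
    · rw [hx]
    · rw [Pi.single_eq_of_ne hx] at this
      exact absurd this (by decide)
  · have := congrFun h x
    rw [Pi.single_eq_same] at this
    by_cases hx : x = x'
    · rw [hx, Pi.single_eq_same] at this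
      exact absurd this (by decide)
    · rw [Pi.single_eq_of_ne hx] at this
      exact absurd this (by decide)
  · have := congrFun h x
    simp at this
  · have := congrFun h x
    rw [Pi.single_eq_same] at this
    by_cases hx : x = x'
    · rw [hx, Pi.single_eq_same] at this
      exact absurd this (by decide)
    · rw [Pi.single_eq_of_ne hx] at this
      exact absurd this (by decide)
  · have := congrFun h x
    rw [Pi.single_eq_same] at this
    by_cases hx : x = x'
    · rw [hx]
    · rw [Pi.single_eq_of_ne hx] at this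
      exact absurd this (by decide)

theorem TS2.unt {Y : Finset (ι → ℤ)} (h : TS2 Y) : TS2 (unt Y) := by
  intro k
  induction k with
  | zero => intro r y hy; simp
  | succ k ih =>
    intro r y hy
    by_cases hall : ∀ b, y b ∈ Y
    · exact h _ r y hall
    · push Not at hall
      obtain ⟨b, hb⟩ := hall
      obtain ⟨x, hx⟩ := (mem_unt.1 (hy b)).resolve_left hb
      have hminor : ∀ a : Fin (k + 1), |((Matrix.of fun a b => y b (r a)).submatrix a.succAbove
          b.succAbove).det| ≤ 2 ^ k := by
        intro a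
        exact ih (fun c => r (a.succAbove c)) (fun c => y (b.succAbove c)) (fun c => hy _)
      rw [Matrix.det_succ_column _ b]
      simp only [Matrix.of_apply]
      rw [← hx]
      rcases uv_spec x with h0 | ⟨i, c, hc, h0⟩
      · rw [h0]
        simp
      · by_cases hr : ∃ a, r a = i
        · obtain ⟨a, ha⟩ := hr
          by_cases hinj : ∀ a', r a' = i → a' = a
          · rw [Finset.sum_eq_single a]
            · rw [h0, ha, Pi.single_eq_same, abs_mul, abs_mul, abs_pow, abs_neg, abs_one, one_pow,
                one_mul, hc, pow_succ, mul_comm (2 ^ k : ℤ)]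
              exact mul_le_mul_of_nonneg_left (hminor a) (by norm_num)
            · intro a' _ ha'
              have : r a' ≠ i := fun h => ha' (hinj a' h)
              rw [h0, Pi.single_eq_of_ne this]
              simp
            · intro h
              exact absurd (mem_univ _) h
          · push Not at hinj
            obtain ⟨a', ha', hne⟩ := hinj
            have hz : (Matrix.of fun a b => y b (r a)).det = 0 := by
              refine Matrix.det_zero_of_row_eq hne ?_
              funext b
              simp only [Matrix.of_apply]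
              rw [ha, ha']
            have := Matrix.det_succ_column (Matrix.of fun a b => y b (r a)) b
            simp only [Matrix.of_apply] at this
            rw [hz, ← hx] at this
            rw [← this]
            simp
        · push Not at hr
          have : ∀ a, uv x (r a) = 0 := fun a => by
            rw [h0, Pi.single_eq_of_ne (hr a)]
          simp [this]

theorem Cls.unt {Y : Finset (ι → ℤ)} (h : Cls ∅ Y) : Cls ∅ (unt Y) := by
  refine ⟨fun y _ i hi => absurd hi (notMem_empty i), ?_, h.ts.unt⟩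
  intro y hy i hi
  rcases mem_unt.1 hy with h1 | ⟨x, rfl⟩
  · exact h.even y h1 i hi
  · rcases x with _ | x | x
    · exact Or.inl rfl
    · simp only [uv]
      by_cases hx : i = x
      · rw [hx, Pi.single_eq_same]; exact Or.inr (Or.inl rfl)
      · rw [Pi.single_eq_of_ne hx]; exact Or.inl rfl
    · simp only [uv]
      by_cases hx : i = x
      · rw [hx, Pi.single_eq_same]; exact Or.inr (Or.inr rfl)
      · rw [Pi.single_eq_of_ne hx]; exact Or.inl rfl

/-- The trivial bound. -/
theorem Cls.card_le {H : Finset ι} {Y : Finset (ι → ℤ)} (h : Cls H Y) :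
    Y.card ≤ 2 ^ H.card * 3 ^ (Fintype.card ι - H.card) := by
  classical
  have h1 : Y ⊆ Fintype.piFinset fun i => if i ∈ H then ({1, -1} : Finset ℤ) else {0, 2, -2} := by
    intro y hy
    rw [Fintype.mem_piFinset]
    intro i
    by_cases hi : i ∈ H
    · rw [if_pos hi]
      rcases h.odd y hy i hi with h2 | h2 <;> simp [h2]
    · rw [if_neg hi]
      rcases h.even y hy i hi with h2 | h2 | h2 <;> simp [h2]
  refine le_trans (card_le_card h1) ?_
  rw [Fintype.card_piFinset]
  have h2 : ∀ i : ι, (if i ∈ H then ({1, -1} : Finset ℤ) else {0, 2, -2}).card =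
      if i ∈ H then 2 else 3 := by
    intro i
    split_ifs <;> rfl
  rw [Finset.prod_congr rfl fun i _ => h2 i, Finset.prod_ite, Finset.prod_const, Finset.prod_const]
  apply le_of_eq
  congr 2
  · congr 1
    ext i; simp
  · rw [← Finset.card_univ, ← Finset.card_sdiff_of_subset (subset_univ H)]
    congr 1
    ext i; simp

theorem heller (n : ℕ) : ∀ (ι : Type) [Fintype ι] [DecidableEq ι] (_ : Fintype.card ι = n)
    (Y : Finset (ι → ℤ)) (_ : Cls ∅ Y), Y.card ≤ n ^ 2 + n + 1 := by
  induction n with
  | zero =>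
    intro ι _ _ hn Y hY
    have := hY.card_le
    simpa [hn] using this
  | succ n ih =>
    intro ι _ _ hn Y hY
    rcases Nat.lt_or_ge n 2 with h2 | h2
    · interval_cases n
      · have := hY.card_le
        simpa [hn] using this
      · -- two rows
        obtain ⟨i, j, hij, huniv⟩ := Finset.card_eq_two.1 (by
          rw [Finset.card_univ]; exact hn : (univ : Finset ι).card = 2)
        have hinj : Set.InjOn (fun y : ι → ℤ => (y i, y j)) (Y : Set (ι → ℤ)) := by
          intro y _ y' _ h
          funext x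
          have hx : x ∈ ({i, j} : Finset ι) := huniv ▸ mem_univ x
          rw [mem_insert, mem_singleton] at hx
          simp only [Prod.mk.injEq] at h
          rcases hx with rfl | rfl
          · exact h.1
          · exact h.2
        rw [← card_image_of_injOn hinj]
        have hv : ∀ y ∈ Y, ∀ x, y x = 0 ∨ y x = 2 ∨ y x = -2 :=
          fun y hy x => hY.even y hy x (notMem_empty x)
        by_cases hc : ∃ y ∈ Y, y i * y j = 4
        · obtain ⟨y, hy, hy4⟩ := hc
          have hsub : Y.image (fun y : ι → ℤ => (y i, y j)) ⊆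
              ((({0, 2, -2} : Finset ℤ) ×ˢ ({0, 2, -2} : Finset ℤ)).filter
                fun p => p.1 * p.2 ≠ -4) := by
            intro p hp
            obtain ⟨y', hy', rfl⟩ := mem_image.1 hp
            rw [mem_filter, mem_product]
            refine ⟨⟨by rcases hv y' hy' i with h | h | h <;> simp [h],
              by rcases hv y' hy' j with h | h | h <;> simp [h]⟩, ?_⟩
            intro h4
            have e := hY.ts 2 ![i, j] ![y, y'] (by
              intro b
              fin_cases b
              · exact hy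
              · exact hy')
            rw [Matrix.det_fin_two] at e
            simp at e h4
            rcases hv y hy i with h | h | h <;> rcases hv y hy j with h' | h' | h' <;>
              rcases hv y' hy' i with k | k | k <;> rcases hv y' hy' j with k' | k' | k' <;>
              simp [h, h', k, k'] at hy4 h4 e
          exact le_trans (card_le_card hsub) (by decide)
        · push Not at hc
          have hsub : Y.image (fun y : ι → ℤ => (y i, y j)) ⊆
              ((({0, 2, -2} : Finset ℤ) ×ˢ ({0, 2, -2} : Finset ℤ)).filter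
                fun p => p.1 * p.2 ≠ 4) := by
            intro p hp
            obtain ⟨y', hy', rfl⟩ := mem_image.1 hp
            rw [mem_filter, mem_product]
            exact ⟨⟨by rcases hv y' hy' i with h | h | h <;> simp [h],
              by rcases hv y' hy' j with h | h | h <;> simp [h]⟩, hc y' hy'⟩
          exact le_trans (card_le_card hsub) (by decide)
    · -- at least three rows
      set Y' := unt Y with hY'
      have hYc : Cls ∅ Y' := hY.unt
      have hcard : Y.card ≤ Y'.card := card_le_card fun y hy => mem_unt.2 (Or.inl hy)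
      have hdel : ∀ i, ((del i Y').card : ℤ) ≤ n ^ 2 + n + 1 := by
        intro i
        have h1 : Fintype.card {j // j ≠ i} = n := by
          rw [Fintype.card_subtype_compl, Fintype.card_subtype_eq, hn]
          rfl
        have := ih {j // j ≠ i} h1 (del i Y') (by
          have := hYc.del i
          have e : (∅ : Finset ι).subtype (fun j => j ≠ i) = ∅ := by ext x; simp
          rwa [e] at this)
        exact_mod_cast this
      have havg := avg hYc
      have hsum : ∑ i, ((del i Y').card : ℤ) ≤ (n + 1) * (n ^ 2 + n + 1) := by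
        refine le_trans (Finset.sum_le_sum fun i _ => hdel i) ?_
        rw [Finset.sum_const, card_univ, hn, nsmul_eq_mul]
        push_cast
        exact le_refl _
      have hW : (4 : ℤ) + 4 * (n + 1) ≤ ∑ y ∈ Y', (4 - Wt Y' y) := by
        have h1 : ∑ y ∈ univ.image (uv : Option (ι ⊕ ι) → ι → ℤ), (4 - Wt Y' y) ≤
            ∑ y ∈ Y', (4 - Wt Y' y) := by
          refine Finset.sum_le_sum_of_subset_of_nonneg ?_ fun y _ _ => ?_
          · intro y hy
            obtain ⟨x, _, rfl⟩ := mem_image.1 hy
            exact mem_unt.2 (Or.inr ⟨x, rfl⟩)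
          · have := Wt_le hYc.ts y
            linarith
        refine le_trans (le_of_eq ?_) h1
        rw [Finset.sum_image fun x _ x' _ h => uv_inj h, Fintype.sum_option, Fintype.sum_sum_type]
        have h0 : Wt Y' (uv none) = 0 := by
          unfold Wt
          refine Finset.sum_eq_zero fun i _ => ?_
          unfold W
          simp [uv]
        have hs : ∀ (i : ι) (c : ℤ), (c = 2 ∨ c = -2) → Wt Y' (Pi.single i c) = 2 := by
          intro i c hc
          unfold Wt
          rw [Finset.sum_eq_single i]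
          · unfold W
            rw [Pi.single_eq_same, if_neg (by omega), if_pos hc, if_pos]
            refine mem_unt.2 (Or.inr ⟨none, ?_⟩)
            funext j
            by_cases hj : j = i
            · rw [hj, Function.update_self]; rfl
            · rw [Function.update_of_ne hj, Pi.single_eq_of_ne hj]; rfl
          · intro j _ hj
            unfold W
            rw [Pi.single_eq_of_ne hj]
            rfl
          · intro h
            exact absurd (mem_univ _) h
        rw [h0]
        have h3 : ∀ x : ι, 4 - Wt Y' (uv (some (Sum.inl x))) = 2 := fun x => by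
          rw [show uv (some (Sum.inl x)) = Pi.single x (2 : ℤ) from rfl, hs x 2 (Or.inl rfl)]
          rfl
        have h4 : ∀ x : ι, 4 - Wt Y' (uv (some (Sum.inr x))) = 2 := fun x => by
          rw [show uv (some (Sum.inr x)) = Pi.single x (-2 : ℤ) from rfl, hs x _ (Or.inr rfl)]
          rfl
        rw [Finset.sum_congr rfl fun x _ => h3 x, Finset.sum_congr rfl fun x _ => h4 x,
          Finset.sum_const, card_univ, hn, nsmul_eq_mul]
        push_cast
        ring
      rw [hn] at havg
      push_cast at havg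
      have h5 : ((Y'.card : ℤ)) ≤ (n + 1) ^ 2 + (n + 1) + 1 := by
        by_contra hcon
        push Not at hcon
        have h6 : ((n : ℤ) + 1) ^ 2 + (n + 1) + 2 ≤ Y'.card := by linarith
        have h7 : (2 : ℤ) ≤ n := by exact_mod_cast h2
        nlinarith [mul_le_mul_of_nonneg_left h6 (show (0 : ℤ) ≤ 2 * (n + 1 - 2) by linarith)]
      have h8 : Y'.card ≤ (n + 1) ^ 2 + (n + 1) + 1 := by exact_mod_cast h5
      exact le_trans hcard h8

end Pool.Agent.Lib.MP_74dbbd_co
end
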