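import Mathlib
import Pool.Agent.Lib.MP_74dbbd_co.Heller

section

/-!
A verified branch and bound search, for the classes with few rows.
-/

namespace Pool.Agent.Lib.MP_74dbbd_co

open Finset Matrix

set_option linter.unusedSectionVars false

/-! ### The search -/

theorem lt_of_blt {a b : ℕ} (h : Nat.blt a b = true) : a < b := by
  rw [Nat.blt_eq] at h
  exact h

theorem getD_map' {α β : Type} (f : α → β) (l : List α) (a : ℕ) (d : β) (d' : α)
    (h : a < l.length) : (l.map f).getD a d = f (l.getD a d') := by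
  rw [List.getD_eq_getElem (l.map f) d (by rw [List.length_map]; exact h), List.getElem_map,
    List.getD_eq_getElem l d' h]

/-- An item of the search: an index, a bound for the number of elements among this item and the
following ones, and a list of conflicts (a mask, the rows, the columns). -/
abbrev Item := ℕ × ℕ × List (ℕ × List ℕ × List ℕ)

/-- The bound of a list of items. -/
def bnd : List Item → ℕ
  | [] => 0
  | it :: _ => it.2.1

/-- The search. -/
def srch : List Item → ℕ → ℕ → Bool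
  | [], _, need => !(Nat.beq need 0)
  | it :: rest, mask, need =>
    bif Nat.beq need 0 then false else
    bif Nat.blt it.2.1 need then true else
    ((it.2.2.any fun c => Nat.beq (Nat.land c.1 mask) c.1) ||
      srch rest (Nat.lor mask (Nat.pow 2 it.1)) (Nat.sub need 1)) && srch rest mask need

/-- The check of all bounds. -/
def chk : List Item → Bool
  | [] => true
  | it :: rest => chk rest && (Nat.ble (Nat.add (bnd rest) 1) it.2.1 ||
      (Nat.beq (bnd rest) it.2.1 && srch rest (Nat.pow 2 it.1) it.2.1))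

/-- The number of items satisfying `P`. -/
noncomputable def cnt (P : ℕ → Prop) (l : List Item) : ℕ :=
  open Classical in l.countP fun it => decide (P it.1)

theorem cnt_nil (P : ℕ → Prop) : cnt P [] = 0 := rfl

theorem cnt_cons_pos {P : ℕ → Prop} {it : Item} {l : List Item} (h : P it.1) :
    cnt P (it :: l) = cnt P l + 1 := by
  classical
  unfold cnt
  exact List.countP_cons_of_pos (by simpa using h)

theorem cnt_cons_neg {P : ℕ → Prop} {it : Item} {l : List Item} (h : ¬ P it.1) :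
    cnt P (it :: l) = cnt P l := by
  classical
  unfold cnt
  exact List.countP_cons_of_neg (by simpa using h)

theorem cnt_eq (P : ℕ → Prop) (inst : ∀ it : Item, Decidable (P it.1)) (l : List Item) :
    cnt P l = (l.filter fun it => @decide (P it.1) (inst it)).length := by
  classical
  unfold cnt
  rw [List.countP_eq_length_filter]
  congr 1
  exact List.filter_congr fun x _ => decide_eq_decide.2 Iff.rfl

/-- The conflicts of the item `it` are conflicts for `P`. -/
def Conf (P : ℕ → Prop) (it : Item) : Prop :=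
  ∀ c ∈ it.2.2, P it.1 → (∀ j, Nat.testBit c.1 j = true → P j) → False

/-- All bounds are valid. -/
def Valid (P : ℕ → Prop) : List Item → Prop
  | [] => True
  | it :: rest => Valid P rest ∧ cnt P (it :: rest) ≤ it.2.1

theorem srch_sound {P : ℕ → Prop} : ∀ (l : List Item) (mask need : ℕ), srch l mask need = true →
    (∀ it ∈ l, Conf P it) → Valid P l → (∀ j, Nat.testBit mask j = true → P j) →
    cnt P l < need
  | [], mask, need, hs, _, _, _ => by
    unfold srch at hs
    have : need ≠ 0 := by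
      intro h
      subst h
      exact absurd hs (by decide)
    rw [cnt_nil]
    omega
  | it :: rest, mask, need, hs, hc, hv, hm => by
    unfold srch at hs
    by_cases h0 : Nat.beq need 0 = true
    · rw [h0] at hs
      exact absurd hs (by simp)
    · rw [Bool.not_eq_true] at h0
      rw [h0, cond_false] at hs
      have hn0 : need ≠ 0 := by
        intro h
        subst h
        exact absurd h0 (by decide)
      by_cases h1 : Nat.blt it.2.1 need = true
      · have : it.2.1 < need := lt_of_blt h1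
        exact lt_of_le_of_lt hv.2 this
      · rw [Bool.not_eq_true] at h1
        rw [h1, cond_false, Bool.and_eq_true, Bool.or_eq_true] at hs
        have hc' : ∀ it' ∈ rest, Conf P it' := fun it' h => hc it' (List.mem_cons_of_mem _ h)
        by_cases hP : P it.1
        · rw [cnt_cons_pos hP]
          rcases hs.1 with h2 | h2
          · rw [List.any_eq_true] at h2
            obtain ⟨c, hcm, hc1⟩ := h2
            have hc2 : c.1 &&& mask = c.1 := Nat.eq_of_beq_eq_true hc1
            exfalso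
            refine hc it List.mem_cons_self c hcm hP fun j hj => hm j ?_
            rw [← hc2, Nat.testBit_and, Bool.and_eq_true] at hj
            exact hj.2
          · have := srch_sound rest _ _ h2 hc' hv.1 (by
              intro j hj
              have hj' : Nat.testBit (mask ||| 2 ^ it.1) j = true := hj
              rw [Nat.testBit_or, Bool.or_eq_true] at hj'
              rcases hj' with h | h
              · exact hm j h
              · rw [Nat.testBit_two_pow] at h
                have : it.1 = j := by simpa using h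
                rw [← this]
                exact hP)
            have h3 : Nat.sub need 1 = need - 1 := rfl
            rw [h3] at this
            omega
        · rw [cnt_cons_neg hP]
          exact srch_sound rest _ _ hs.2 hc' hv.1 hm

theorem chk_valid {P : ℕ → Prop} : ∀ l : List Item, chk l = true → (∀ it ∈ l, Conf P it) →
    Valid P l
  | [], _, _ => trivial
  | it :: rest, hk, hc => by
    unfold chk at hk
    rw [Bool.and_eq_true] at hk
    have hc' : ∀ it' ∈ rest, Conf P it' := fun it' h => hc it' (List.mem_cons_of_mem _ h)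
    have hv := chk_valid rest hk.1 hc'
    have hb : cnt P rest ≤ bnd rest := by
      cases rest with
      | nil => rw [cnt_nil]; exact Nat.zero_le _
      | cons a b => exact hv.2
    refine ⟨hv, ?_⟩
    have hle : cnt P (it :: rest) ≤ cnt P rest + 1 := by
      by_cases hP : P it.1
      · rw [cnt_cons_pos hP]
      · rw [cnt_cons_neg hP]; omega
    have h2 := hk.2
    rw [Bool.or_eq_true, Bool.and_eq_true] at h2
    rcases h2 with h2 | ⟨h2, h3⟩
    · have : bnd rest + 1 ≤ it.2.1 := Nat.le_of_ble_eq_true h2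
      omega
    · have h4 : bnd rest = it.2.1 := Nat.eq_of_beq_eq_true h2
      by_cases hP : P it.1
      · have := srch_sound rest _ _ h3 hc' hv (by
          intro j hj
          have hj' : Nat.testBit (2 ^ it.1) j = true := hj
          rw [Nat.testBit_two_pow] at hj'
          have : it.1 = j := by simpa using hj'
          rw [← this]
          exact hP)
        rw [cnt_cons_pos hP]
        omega
      · rw [cnt_cons_neg hP]
        omega

theorem chk_sound {P : ℕ → Prop} (l : List Item) (hk : chk l = true)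
    (hc : ∀ it ∈ l, Conf P it) : cnt P l ≤ bnd l := by
  have := chk_valid l hk hc
  cases l with
  | nil => rw [cnt_nil]; exact Nat.zero_le _
  | cons a b => exact this.2

/-! ### Determinants of lists -/

/-- The sum `f 0 + ... + f (n - 1)`. -/
def rsum : ℕ → (ℕ → ℤ) → ℤ
  | 0, _ => 0
  | n + 1, f => rsum n f + f n

theorem rsum_eq (n : ℕ) (f : ℕ → ℤ) : rsum n f = ∑ j ∈ range n, f j := by
  induction n with
  | zero => rfl
  | succ n ih => rw [Finset.sum_range_succ, ← ih]; rfl

/-- The determinant of a list of rows. -/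
def ldet : ℕ → List (List ℤ) → ℤ
  | 0, _ => 1
  | k + 1, L => rsum (k + 1) fun j =>
      (if j % 2 = 0 then (L.headD []).getD j 0 else - (L.headD []).getD j 0) *
        ldet k (L.tail.map fun r => r.eraseIdx j)

theorem getD_eraseIdx (l : List ℤ) (j b : ℕ) :
    (l.eraseIdx j).getD b 0 = if b < j then l.getD b 0 else l.getD (b + 1) 0 := by
  simp only [List.getD_eq_getElem?_getD, List.getElem?_eraseIdx]
  split_ifs <;> rfl

theorem ldet_eq (k : ℕ) : ∀ L : List (List ℤ),
    ldet k L = (Matrix.of fun (a b : Fin k) => (L.getD a []).getD b 0).det := by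
  induction k with
  | zero => intro L; simp [ldet]
  | succ k ih =>
    intro L
    rw [Matrix.det_succ_row_zero]
    unfold ldet
    rw [rsum_eq, ← Fin.sum_univ_eq_sum_range (fun j =>
      (if j % 2 = 0 then (L.headD []).getD j 0 else - (L.headD []).getD j 0) *
        ldet k (L.tail.map fun r => r.eraseIdx j))]
    refine Finset.sum_congr rfl fun j _ => ?_
    congr 1
    · have h0 : (L.headD []) = L.getD 0 [] := by cases L <;> rfl
      rw [h0]
      simp only [Matrix.of_apply]
      split_ifs with hj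
      · rw [Even.neg_one_pow (Nat.even_iff.2 hj), one_mul]
        rfl
      · rw [Odd.neg_one_pow (Nat.odd_iff.2 (by omega)), neg_one_mul]
        rfl
    · rw [ih]
      congr 1
      ext a b
      simp only [Matrix.of_apply, Matrix.submatrix_apply]
      have h1 : ((L.tail.map fun r => r.eraseIdx (j : ℕ)).getD a []) =
          (L.getD (a + 1) []).eraseIdx j := by
        cases L with
        | nil => simp
        | cons x L =>
          rw [List.tail_cons, List.getD_cons_succ]
          simp only [List.getD_eq_getElem?_getD, List.getElem?_map]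
          cases L[(a : ℕ)]? <;> simp
      rw [h1, getD_eraseIdx]
      have h2 : ((Fin.succ a : Fin (k + 1)) : ℕ) = a + 1 := rfl
      rw [h2]
      by_cases hb : (b : ℕ) < j
      · rw [if_pos hb, Fin.succAbove_of_castSucc_lt _ _ (by
          rw [Fin.lt_def]; exact hb)]
        rfl
      · rw [if_neg hb, Fin.succAbove_of_le_castSucc _ _ (by
          rw [Fin.le_def]; simpa using hb)]
        rfl

/-! ### The bound from the search -/

/-- The check of a conflict. -/
def okC (V : List (List ℤ)) (m i : ℕ) (c : ℕ × List ℕ × List ℕ) : Bool :=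
  (c.2.2.all fun j => Nat.beq j i || Nat.testBit c.1 j) && (c.2.1.all fun r => Nat.blt r m) &&
    Nat.beq c.2.1.length c.2.2.length &&
    Nat.blt (Nat.pow 2 c.2.1.length)
      (ldet c.2.1.length (c.2.1.map fun r => c.2.2.map fun j => (V.getD j []).getD r 0)).natAbs

/-- The check of all conflicts. -/
def okAll (V : List (List ℤ)) (m : ℕ) (l : List Item) : Bool :=
  l.all fun it => it.2.2.all fun c => okC V m it.1 c

/-- The product of lists. -/
def prodL : List (List ℤ) → List (List ℤ)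
  | [] => [[]]
  | a :: as => a.flatMap fun x => (prodL as).map fun l => x :: l

theorem mem_prodL : ∀ (D : List (List ℤ)) (v : List ℤ), v.length = D.length →
    (∀ i, i < D.length → v.getD i 0 ∈ D.getD i []) → v ∈ prodL D
  | [], v, hl, _ => by
    have : v = [] := List.length_eq_zero_iff.1 hl
    rw [this]
    exact List.mem_singleton.2 rfl
  | a :: as, v, hl, h => by
    cases v with
    | nil => simp at hl
    | cons x v =>
      unfold prodL
      rw [List.mem_flatMap]
      refine ⟨x, ?_, ?_⟩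
      · have := h 0 (by simp)
        simpa using this
      · rw [List.mem_map]
        refine ⟨v, mem_prodL as v (by simpa using hl) fun i hi => ?_, rfl⟩
        have := h (i + 1) (by simpa using hi)
        simpa using this

/-- The check that all vectors are listed. -/
def okV (V D : List (List ℤ)) : Bool := (prodL D).all fun v => V.contains v

/-- The check that all indices occur. -/
def okI (n : ℕ) (l : List Item) : Bool :=
  (List.range n).all fun j => l.any fun it => Nat.beq it.1 j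

theorem comp {ι : Type} [Fintype ι] [DecidableEq ι] {m : ℕ} (e : ι ≃ Fin m) (i0 : ι)
    (V D : List (List ℤ)) (l : List Item) (hD : D.length = m) (h1 : chk l = true)
    (h2 : okAll V m l = true) (h3 : okV V D = true) (h4 : okI V.length l = true)
    {Y : Finset (ι → ℤ)} (hY : TS2 Y)
    (hdom : ∀ y ∈ Y, y i0 = 1 → ∀ i, y i ∈ D.getD (e i) []) :
    (Y.filter fun y => y i0 = 1).card ≤ bnd l := by
  classical
  set vec : ℕ → ι → ℤ := fun j i => (V.getD j []).getD (e i) 0 with hvec
  set P : ℕ → Prop := fun j => vec j ∈ Y with hP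
  have hconf : ∀ it ∈ l, Conf P it := by
    intro it hit c hc hPi hPj
    unfold okAll at h2
    rw [List.all_eq_true] at h2
    have h5 := h2 it hit
    rw [List.all_eq_true] at h5
    have h6 := h5 c hc
    unfold okC at h6
    rw [Bool.and_eq_true, Bool.and_eq_true, Bool.and_eq_true, List.all_eq_true,
      List.all_eq_true] at h6
    obtain ⟨⟨⟨h7, h8⟩, h9⟩, h10⟩ := h6
    set k := c.2.1.length with hk
    have h9' : k = c.2.2.length := Nat.eq_of_beq_eq_true h9
    have hR : ∀ a : Fin k, c.2.1.getD a 0 < m := by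
      intro a
      have ha : (a : ℕ) < c.2.1.length := a.2
      rw [List.getD_eq_getElem _ _ ha]
      exact lt_of_blt (h8 _ (List.getElem_mem ha))
    have hCm : ∀ b : Fin k, vec (c.2.2.getD b 0) ∈ Y := by
      intro b
      have hb : (b : ℕ) < c.2.2.length := by rw [← h9']; exact b.2
      rw [List.getD_eq_getElem _ _ hb]
      have := h7 _ (List.getElem_mem hb)
      rw [Bool.or_eq_true] at this
      rcases this with h | h
      · rw [Nat.eq_of_beq_eq_true h]
        exact hPi
      · exact hPj _ h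
    have hts := hY k (fun a => e.symm ⟨c.2.1.getD a 0, hR a⟩) (fun b => vec (c.2.2.getD b 0)) hCm
    have hM : (Matrix.of fun (a b : Fin k) =>
        vec (c.2.2.getD b 0) (e.symm ⟨c.2.1.getD a 0, hR a⟩)) =
        Matrix.of fun (a b : Fin k) => ((c.2.1.map fun r => c.2.2.map fun j =>
          (V.getD j []).getD r 0).getD a []).getD b 0 := by
      ext a b
      have ha : (a : ℕ) < c.2.1.length := a.2
      have hb : (b : ℕ) < c.2.2.length := by rw [← h9']; exact b.2
      simp only [Matrix.of_apply, hvec, Equiv.apply_symm_apply]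
      rw [getD_map' _ c.2.1 a [] 0 ha, getD_map' _ c.2.2 b 0 0 hb]
    rw [hM, ← ldet_eq] at hts
    have h11 : 2 ^ k < (ldet k (c.2.1.map fun r => c.2.2.map fun j =>
      (V.getD j []).getD r 0)).natAbs := lt_of_blt h10
    rw [Int.abs_eq_natAbs] at hts
    have h12 : (ldet k (c.2.1.map fun r => c.2.2.map fun j =>
      (V.getD j []).getD r 0)).natAbs ≤ 2 ^ k := by exact_mod_cast hts
    omega
  have hcnt := chk_sound l h1 hconf
  refine le_trans ?_ hcnt
  have hsub : (Y.filter fun y => y i0 = 1) ⊆ ((range V.length).filter P).image vec := by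
    intro y hy
    rw [mem_filter] at hy
    have hmem : List.ofFn (fun a : Fin m => y (e.symm a)) ∈ prodL D := by
      refine mem_prodL D _ (by rw [List.length_ofFn, hD]) fun i hi => ?_
      have hi' : i < m := hD ▸ hi
      rw [List.getD_eq_getElem (List.ofFn fun a : Fin m => y (e.symm a)) 0
        (by rw [List.length_ofFn]; exact hi'), List.getElem_ofFn]
      have := hdom y hy.1 hy.2 (e.symm ⟨i, hi'⟩)
      rwa [Equiv.apply_symm_apply] at this
    unfold okV at h3
    rw [List.all_eq_true] at h3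
    have hV := h3 _ hmem
    rw [List.contains_iff_mem] at hV
    obtain ⟨j, hj, hj2⟩ := List.getElem_of_mem hV
    have hvj : vec j = y := by
      funext i
      simp only [hvec]
      rw [List.getD_eq_getElem _ _ hj, hj2,
        List.getD_eq_getElem (List.ofFn fun a : Fin m => y (e.symm a)) 0
          (by rw [List.length_ofFn]; exact (e i).2), List.getElem_ofFn]
      simp
    refine mem_image.2 ⟨j, mem_filter.2 ⟨mem_range.2 hj, ?_⟩, hvj⟩
    show vec j ∈ Y
    rw [hvj]
    exact hy.1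
  refine le_trans (card_le_card hsub) (le_trans card_image_le ?_)
  have hsub2 : (range V.length).filter P ⊆
      ((l.filter fun it => decide (P it.1)).map fun it => it.1).toFinset := by
    intro j hj
    rw [mem_filter, mem_range] at hj
    unfold okI at h4
    rw [List.all_eq_true] at h4
    have := h4 j (List.mem_range.2 hj.1)
    rw [List.any_eq_true] at this
    obtain ⟨it, hit, hij⟩ := this
    have hij' : it.1 = j := Nat.eq_of_beq_eq_true hij
    rw [List.mem_toFinset, List.mem_map]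
    refine ⟨it, List.mem_filter.2 ⟨hit, ?_⟩, hij'⟩
    rw [hij']
    simpa using hj.2
  refine le_trans (card_le_card hsub2) (le_trans (List.toFinset_card_le _) ?_)
  rw [List.length_map, cnt_eq]

end Pool.Agent.Lib.MP_74dbbd_co
end

section

/-!
The data of the searches.
-/

namespace Pool.Agent.Lib.MP_74dbbd_co

set_option maxRecDepth 100000

/-- The vectors with 1 odd rows and 2 even rows. -/
def vecs12 : List (List ℤ) :=
  [[1, -2, -2],
   [1, 0, -2],
   [1, 2, -2],
   [1, -2, 0],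
   [1, 0, 0],
   [1, 2, 0],
   [1, -2, 2],
   [1, 0, 2],
   [1, 2, 2]]

/-- The search data with 1 odd rows and 2 even rows. -/
def items12 : List Item :=
  [(8, 6, []),
   (2, 6, [(256, [1, 2], [2, 8])]),
   (6, 5, []),
   (1, 5, []),
   (0, 4, [(64, [1, 2], [0, 6])]),
   (5, 4, [(66, [0, 1, 2], [1, 5, 6])]),
   (7, 3, [(33, [0, 1, 2], [0, 5, 7])]),
   (3, 2, []),
   (4, 1, [])]

/-- The vectors with 3 odd rows and 1 even rows. -/
def vecs31 : List (List ℤ) :=
  [[1, -1, -1, -2],
   [1, 1, -1, -2],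
   [1, -1, 1, -2],
   [1, 1, 1, -2],
   [1, -1, -1, 0],
   [1, 1, -1, 0],
   [1, -1, 1, 0],
   [1, 1, 1, 0],
   [1, -1, -1, 2],
   [1, 1, -1, 2],
   [1, -1, 1, 2],
   [1, 1, 1, 2]]

/-- The search data with 3 odd rows and 1 even rows. -/
def items31 : List Item :=
  [(0, 9, []),
   (10, 9, []),
   (3, 8, []),
   (9, 7, [(1033, [0, 1, 2, 3], [0, 3, 9, 10])]),
   (4, 6, []),
   (6, 6, []),
   (7, 5, []),
   (1, 4, []),
   (5, 3, []),
   (11, 3, []),
   (2, 2, [(2066, [0, 1, 2, 3], [1, 2, 4, 11])]),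
   (8, 1, [(2084, [0, 1, 2, 3], [2, 5, 8, 11]), (2114, [0, 1, 2, 3], [1, 6, 8, 11]), (134, [0, 1, 2, 3], [1, 2, 7, 8])])]

/-- The vectors with 2 odd rows and 2 even rows. -/
def vecs22 : List (List ℤ) :=
  [[1, -1, -2, -2],
   [1, 1, -2, -2],
   [1, -1, 0, -2],
   [1, 1, 0, -2],
   [1, -1, 2, -2],
   [1, 1, 2, -2],
   [1, -1, -2, 0],
   [1, 1, -2, 0],
   [1, -1, 0, 0],
   [1, 1, 0, 0],
   [1, -1, 2, 0],
   [1, 1, 2, 0],
   [1, -1, -2, 2],
   [1, 1, -2, 2],
   [1, -1, 0, 2],
   [1, 1, 0, 2],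
   [1, -1, 2, 2],
   [1, 1, 2, 2]]

/-- The search data with 2 odd rows and 2 even rows. -/
def items22 : List Item :=
  [(15, 8, []),
   (8, 8, []),
   (9, 7, []),
   (11, 6, []),
   (12, 6, []),
   (3, 6, [(6144, [0, 2, 3], [3, 11, 12])]),
   (16, 6, [(4096, [2, 3], [12, 16]), (34816, [1, 2, 3], [11, 15, 16])]),
   (10, 5, [(4104, [0, 2, 3], [3, 10, 12]), (36864, [1, 2, 3], [10, 12, 15])]),
   (6, 5, [(65544, [0, 2, 3], [3, 6, 16]), (33800, [0, 1, 2, 3], [3, 6, 10, 15]), (98304, [1, 2, 3], [6, 15, 16])]),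
   (4, 4, [(65536, [2, 3], [4, 16]), (72, [1, 2, 3], [3, 4, 6]), (32832, [0, 2, 3], [4, 6, 15]), (2056, [1, 2, 3], [3, 4, 11]), (36872, [0, 1, 2, 3], [3, 4, 12, 15])]),
   (0, 4, [(4096, [2, 3], [0, 12]), (1032, [1, 2, 3], [0, 3, 10]), (34816, [0, 2, 3], [0, 11, 15]), (16, [2, 3], [0, 4]), (98312, [0, 1, 2, 3], [0, 3, 15, 16]), (33792, [0, 2, 3], [0, 10, 15])]),
   (13, 4, [(65536, [2, 3], [13, 16]), (72, [1, 2, 3], [3, 6, 13]), (1032, [0, 2, 3], [3, 10, 13]), (1, [2, 3], [0, 13]), (2056, [0, 2, 3], [3, 11, 13])]),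
   (1, 4, [(4096, [2, 3], [1, 12]), (33792, [0, 2, 3], [1, 10, 15]), (32832, [1, 2, 3], [1, 6, 15]), (16, [2, 3], [1, 4]), (8192, [2, 3], [1, 13]), (34816, [0, 2, 3], [1, 11, 15])]),
   (14, 3, [(8256, [1, 2, 3], [6, 13, 14]), (1026, [0, 2, 3], [1, 10, 14]), (2064, [1, 2, 3], [4, 11, 14]), (2049, [0, 2, 3], [0, 11, 14]), (10240, [1, 2, 3], [11, 13, 14]), (2050, [0, 2, 3], [1, 11, 14]), (80, [0, 2, 3], [4, 6, 14]), (1025, [0, 2, 3], [0, 10, 14])]),
   (7, 2, [(6160, [0, 1, 2, 3], [4, 7, 11, 12]), (65544, [0, 2, 3], [3, 7, 16]), (67585, [0, 1, 2, 3], [0, 7, 11, 16]), (36864, [1, 2, 3], [7, 12, 15]), (16400, [0, 2, 3], [4, 7, 14]), (9, [1, 2, 3], [0, 3, 7]), (16385, [1, 2, 3], [0, 7, 14]), (32784, [0, 2, 3], [4, 7, 15])]),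
   (2, 2, [(9216, [0, 2, 3], [2, 10, 13]), (66, [1, 2, 3], [1, 2, 6]), (6144, [0, 2, 3], [2, 11, 12]), (18560, [0, 1, 2, 3], [2, 7, 11, 14]), (2050, [1, 2, 3], [1, 2, 11]), (65600, [0, 2, 3], [2, 6, 16]), (67584, [1, 2, 3], [2, 11, 16])]),
   (5, 1, [(16448, [0, 2, 3], [5, 6, 14]), (9280, [0, 1, 2, 3], [5, 6, 10, 13]), (1, [2, 3], [0, 5]), (2, [2, 3], [1, 5]), (1028, [1, 2, 3], [2, 5, 10]), (24580, [0, 1, 2, 3], [2, 5, 13, 14]), (132, [1, 2, 3], [2, 5, 7]), (16512, [0, 2, 3], [5, 7, 14])]),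
   (17, 1, [(16512, [1, 2, 3], [7, 14, 17]), (16, [2, 3], [4, 17]), (1090, [0, 1, 2, 3], [1, 6, 10, 17]), (68, [0, 2, 3], [2, 6, 17]), (4096, [2, 3], [12, 17]), (16390, [0, 1, 2, 3], [1, 2, 14, 17]), (1032, [1, 2, 3], [3, 10, 17]), (32, [2, 3], [5, 17]), (132, [0, 2, 3], [2, 7, 17]), (8192, [2, 3], [13, 17])])]

/-- The vectors with 1 odd rows and 3 even rows. -/
def vecs13 : List (List ℤ) :=
  [[1, -2, -2, -2],
   [1, 0, -2, -2],
   [1, 2, -2, -2],
   [1, -2, 0, -2],
   [1, 0, 0, -2],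
   [1, 2, 0, -2],
   [1, -2, 2, -2],
   [1, 0, 2, -2],
   [1, 2, 2, -2],
   [1, -2, -2, 0],
   [1, 0, -2, 0],
   [1, 2, -2, 0],
   [1, -2, 0, 0],
   [1, 0, 0, 0],
   [1, 2, 0, 0],
   [1, -2, 2, 0],
   [1, 0, 2, 0],
   [1, 2, 2, 0],
   [1, -2, -2, 2],
   [1, 0, -2, 2],
   [1, 2, -2, 2],
   [1, -2, 0, 2],
   [1, 0, 0, 2],
   [1, 2, 0, 2],
   [1, -2, 2, 2],
   [1, 0, 2, 2],
   [1, 2, 2, 2]]

/-- The search data with 1 odd rows and 3 even rows. -/
def items13 : List Item :=
  [(2, 8, []),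
   (13, 8, []),
   (9, 7, [(4, [1, 2], [2, 9])]),
   (4, 7, []),
   (23, 7, [(4, [1, 3], [2, 23]), (528, [0, 1, 3], [4, 9, 23])]),
   (21, 7, [(8388608, [1, 3], [21, 23])]),
   (26, 7, [(2097152, [1, 3], [21, 26]), (4, [1, 2], [2, 26]), (528, [0, 1, 3], [4, 9, 26])]),
   (19, 7, [(67108864, [2, 3], [19, 26]), (4, [2, 3], [2, 19]), (2097664, [1, 2, 3], [9, 19, 21])]),
   (24, 7, [(512, [1, 2], [9, 24]), (524288, [2, 3], [19, 24]), (8388608, [1, 3], [23, 24]), (67108864, [1, 2], [24, 26])]),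
   (6, 6, [(512, [1, 2], [6, 9]), (4, [1, 3], [2, 6]), (2097152, [1, 3], [6, 21]), (67108864, [1, 2], [6, 26]), (8912896, [0, 1, 2], [6, 19, 23]), (16777216, [1, 3], [6, 24])]),
   (0, 6, [(524288, [2, 3], [0, 19]), (4, [1, 2], [0, 2]), (2097152, [1, 3], [0, 21]), (64, [1, 2], [0, 6]), (16777216, [1, 2], [0, 24])]),
   (15, 6, [(1, [1, 2], [0, 15]), (512, [1, 2], [9, 15]), (524304, [0, 2, 3], [4, 15, 19]), (2097156, [0, 2, 3], [2, 15, 21]), (67108864, [1, 2], [15, 26]), (8388624, [0, 1, 3], [4, 15, 23]), (8912896, [0, 1, 2], [15, 19, 23])]),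
   (14, 6, [(2097168, [0, 1, 3], [4, 14, 21]), (16777232, [0, 1, 3], [4, 14, 24]), (557056, [0, 1, 2], [14, 15, 19]), (524352, [0, 1, 2], [6, 14, 19])]),
   (20, 5, [(1, [1, 2], [0, 20]), (4, [1, 3], [2, 20]), (512, [1, 2], [9, 20]), (2097152, [1, 3], [20, 21]), (67108864, [1, 2], [20, 26]), (16777216, [1, 3], [20, 24])]),
   (1, 5, [(524288, [2, 3], [1, 19]), (64, [2, 3], [1, 6]), (8389120, [0, 1, 3], [1, 9, 23]), (49152, [0, 1, 2], [1, 14, 15]), (2113536, [0, 1, 3], [1, 14, 21]), (2129920, [0, 2, 3], [1, 15, 21]), (67109376, [0, 1, 3], [1, 9, 26]), (1048576, [2, 3], [1, 20]), (16793600, [0, 1, 2], [1, 14, 24])]),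
   (16, 5, [(16385, [0, 1, 2], [0, 14, 16]), (524304, [0, 2, 3], [4, 16, 19]), (8388609, [0, 1, 2], [0, 16, 23]), (16896, [0, 1, 2], [9, 14, 16]), (2097154, [0, 2, 3], [1, 16, 21]), (2097156, [0, 1, 2], [2, 16, 21]), (8388610, [0, 2, 3], [1, 16, 23]), (1048592, [0, 2, 3], [4, 16, 20]), (8389120, [0, 1, 2], [9, 16, 23])]),
   (18, 4, [(1, [1, 3], [0, 18]), (2, [2, 3], [1, 18]), (64, [1, 2], [6, 18]), (8388608, [1, 3], [18, 23]), (4, [1, 2], [2, 18]), (32768, [1, 2], [15, 18]), (81920, [0, 1, 2], [14, 16, 18]), (1048576, [1, 2], [18, 20]), (16777216, [1, 2], [18, 24]), (65552, [0, 2, 3], [4, 16, 18]), (16400, [0, 1, 3], [4, 14, 18])]),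
   (8, 4, [(1, [1, 3], [0, 8]), (2, [2, 3], [1, 8]), (64, [1, 2], [6, 8]), (8388608, [1, 3], [8, 23]), (4, [1, 2], [2, 8]), (32768, [1, 2], [8, 15]), (1048576, [1, 2], [8, 20]), (16777216, [1, 2], [8, 24]), (2621440, [0, 1, 2], [8, 19, 21]), (67108864, [1, 3], [8, 26]), (2097664, [0, 2, 3], [8, 9, 21]), (524800, [0, 1, 3], [8, 9, 19])]),
   (25, 4, [(64, [2, 3], [6, 25]), (16385, [0, 1, 2], [0, 14, 25]), (32772, [0, 1, 3], [2, 15, 25]), (524288, [2, 3], [19, 25]), (2129920, [1, 2, 3], [15, 21, 25]), (528, [0, 2, 3], [4, 9, 25]), (8388609, [0, 1, 2], [0, 23, 25]), (2097156, [0, 1, 2], [2, 21, 25]), (1048576, [2, 3], [20, 25]), (256, [2, 3], [8, 25]), (262144, [2, 3], [18, 25]), (16896, [0, 1, 2], [9, 14, 25])]),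
   (7, 4, [(2, [2, 3], [1, 7]), (4, [2, 3], [2, 7]), (1, [2, 3], [0, 7]), (16777216, [2, 3], [7, 24]), (33554432, [2, 3], [7, 25]), (1081344, [0, 1, 3], [7, 15, 20]), (67108864, [2, 3], [7, 26]), (16896, [0, 1, 2], [7, 9, 14]), (2113536, [0, 1, 3], [7, 14, 21]), (2097664, [0, 2, 3], [7, 9, 21])]),
   (10, 4, [(67108880, [0, 2, 3], [4, 10, 26]), (16777232, [0, 2, 3], [4, 10, 24]), (16448, [0, 1, 2], [6, 10, 14]), (49152, [0, 1, 2], [10, 14, 15]), (8388736, [0, 2, 3], [7, 10, 23]), (16793600, [0, 1, 2], [10, 14, 24]), (33554448, [0, 2, 3], [4, 10, 25]), (2097280, [0, 2, 3], [7, 10, 21]), (8388672, [0, 1, 2], [6, 10, 23])]),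
   (5, 3, [(8388608, [1, 3], [5, 23]), (64, [1, 3], [5, 6]), (1, [1, 3], [0, 5]), (32770, [0, 1, 2], [1, 5, 15]), (1048576, [1, 3], [5, 20]), (16777218, [0, 1, 2], [1, 5, 24]), (33792, [0, 1, 2], [5, 10, 15]), (262272, [0, 1, 2], [5, 7, 18]), (67108864, [1, 3], [5, 26]), (33555456, [0, 2, 3], [5, 10, 25]), (33587200, [0, 1, 3], [5, 15, 25]), (557056, [0, 1, 2], [5, 15, 19]), (589824, [0, 2, 3], [5, 16, 19]), (66048, [0, 1, 2], [5, 9, 16]), (524800, [0, 1, 3], [5, 9, 19])]),
   (12, 3, [(65540, [0, 1, 2], [2, 12, 16]), (8388610, [0, 1, 3], [1, 12, 23]), (1048592, [0, 1, 3], [4, 12, 20]), (8388624, [0, 1, 3], [4, 12, 23]), (1114112, [0, 1, 2], [12, 16, 20]), (67109888, [0, 1, 2], [10, 12, 26]), (1280, [0, 1, 2], [8, 10, 12]), (67108866, [0, 1, 2], [1, 12, 26]), (33554464, [0, 1, 3], [5, 12, 25]), (1048704, [0, 1, 2], [7, 12, 20]), (67108880, [0, 1, 3], [4, 12, 26]), (33554436, [0, 1, 2], [2, 12, 25]), (8388736, [0, 1, 3], [7, 12, 23])]),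
   (3, 2, [(32, [1, 3], [3, 5]), (2097152, [1, 3], [3, 21]), (4, [1, 3], [2, 3]), (514, [1, 2, 3], [1, 3, 9]), (256, [1, 3], [3, 8]), (1048704, [0, 1, 2], [3, 7, 20]), (32896, [1, 2, 3], [3, 7, 15]), (67108866, [0, 1, 2], [1, 3, 26]), (540672, [0, 1, 3], [3, 14, 19]), (33555456, [0, 2, 3], [3, 10, 25]), (16777216, [1, 3], [3, 24]), (262144, [1, 3], [3, 18]), (1081344, [0, 2, 3], [3, 15, 20]), (33570816, [0, 1, 3], [3, 14, 25]), (67109376, [0, 2, 3], [3, 9, 26])]),
   (22, 2, [(65538, [0, 2, 3], [1, 16, 22]), (16385, [0, 1, 3], [0, 14, 22]), (1152, [0, 2, 3], [7, 10, 22]), (16448, [0, 1, 3], [6, 14, 22]), (4128, [0, 1, 3], [5, 12, 22]), (32800, [0, 1, 3], [5, 15, 22]), (1088, [0, 2, 3], [6, 10, 22]), (32770, [0, 2, 3], [1, 15, 22]), (65537, [0, 2, 3], [0, 16, 22]), (4100, [0, 1, 3], [2, 12, 22]), (65540, [0, 2, 3], [2, 16, 22]), (4352, [0, 1, 3], [8, 12, 22]), (1280, [0, 2, 3], [8, 10, 22]), (544, [0, 1, 3], [5, 9, 22])]),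
   (11, 1, [(69632, [0, 1, 2], [11, 12, 16]), (256, [1, 2], [8, 11]), (34, [1, 2, 3], [1, 5, 11]), (1, [1, 2], [0, 11]), (8912896, [1, 2, 3], [11, 19, 23]), (4224, [0, 1, 2], [7, 11, 12]), (67108864, [1, 2], [11, 26]), (262144, [1, 2], [11, 18]), (2097168, [0, 1, 3], [4, 11, 21]), (512, [1, 2], [9, 11]), (4194312, [0, 1, 3], [3, 11, 22]), (33558528, [0, 1, 2], [11, 12, 25]), (16777248, [0, 2, 3], [5, 11, 24]), (65544, [0, 1, 2], [3, 11, 16])]),
   (17, 1, [(5120, [0, 1, 2], [10, 12, 17]), (32768, [1, 2], [15, 17]), (16777216, [1, 2], [17, 24]), (41943040, [1, 2, 3], [17, 23, 25]), (4, [1, 2], [2, 17]), (262272, [0, 1, 3], [7, 17, 18]), (262176, [0, 2, 3], [5, 17, 18]), (1048576, [1, 2], [17, 20]), (160, [1, 2, 3], [5, 7, 17]), (64, [1, 2], [6, 17]), (2048, [1, 2], [11, 17]), (4194312, [0, 1, 3], [3, 17, 22]), (4098, [0, 1, 2], [1, 12, 17]), (1032, [0, 1, 2], [3, 10, 17])])]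

/-- The vectors with 4 odd rows and 1 even rows. -/
def vecs41 : List (List ℤ) :=
  [[1, -1, -1, -1, -2],
   [1, 1, -1, -1, -2],
   [1, -1, 1, -1, -2],
   [1, 1, 1, -1, -2],
   [1, -1, -1, 1, -2],
   [1, 1, -1, 1, -2],
   [1, -1, 1, 1, -2],
   [1, 1, 1, 1, -2],
   [1, -1, -1, -1, 0],
   [1, 1, -1, -1, 0],
   [1, -1, 1, -1, 0],
   [1, 1, 1, -1, 0],
   [1, -1, -1, 1, 0],
   [1, 1, -1, 1, 0],
   [1, -1, 1, 1, 0],
   [1, 1, 1, 1, 0],
   [1, -1, -1, -1, 2],
   [1, 1, -1, -1, 2],
   [1, -1, 1, -1, 2],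
   [1, 1, 1, -1, 2],
   [1, -1, -1, 1, 2],
   [1, 1, -1, 1, 2],
   [1, -1, 1, 1, 2],
   [1, 1, 1, 1, 2]]

/-- The search data with 4 odd rows and 1 even rows. -/
def items41 : List Item :=
  [(10, 13, []),
   (12, 13, []),
   (18, 13, []),
   (4, 13, []),
   (3, 13, []),
   (23, 12, [(1048, [0, 1, 3, 4], [3, 4, 10, 23]), (262168, [0, 1, 3, 4], [3, 4, 18, 23]), (266248, [0, 1, 3, 4], [3, 12, 18, 23])]),
   (15, 11, [(262168, [0, 1, 3, 4], [3, 4, 15, 18])]),
   (1, 11, [(8389648, [0, 1, 3, 4], [1, 4, 10, 23]), (294928, [0, 1, 3, 4], [1, 4, 15, 18]), (8654848, [0, 1, 3, 4], [1, 12, 18, 23]), (8650768, [0, 1, 3, 4], [1, 4, 18, 23])]),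
   (21, 10, [(1042, [0, 1, 3, 4], [1, 4, 10, 21]), (266242, [0, 1, 3, 4], [1, 12, 18, 21]), (294928, [0, 1, 2, 4], [4, 15, 18, 21]), (1048, [0, 1, 2, 4], [3, 4, 10, 21]), (32786, [1, 2, 3, 4], [1, 4, 15, 21]), (294914, [0, 2, 3, 4], [1, 15, 18, 21]), (266248, [0, 1, 2, 4], [3, 12, 18, 21]), (37890, [0, 1, 2, 3, 4], [1, 10, 12, 15, 21]), (262162, [0, 1, 3, 4], [1, 4, 18, 21])]),
   (9, 10, [(8388632, [0, 2, 3, 4], [3, 4, 9, 23]), (8650760, [1, 2, 3, 4], [3, 9, 18, 23]), (8650768, [0, 1, 3, 4], [4, 9, 18, 23]), (262168, [0, 1, 2, 4], [3, 4, 9, 18]), (8393736, [0, 1, 2, 3, 4], [3, 9, 10, 12, 23]), (299016, [0, 1, 2, 3, 4], [3, 9, 12, 15, 18]), (33816, [0, 1, 2, 3, 4], [3, 4, 9, 10, 15]), (2396160, [0, 1, 2, 3, 4], [9, 12, 15, 18, 21]), (2130960, [0, 1, 2, 3, 4], [4, 9, 10, 15, 21]), (2359312, [0, 1, 3, 4], [4, 9, 18, 21])]),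
   (16, 9, [(8389634, [0, 1, 2, 4], [1, 10, 16, 23]), (2101256, [0, 1, 3, 4], [3, 12, 16, 21]), (1042, [1, 2, 3, 4], [1, 4, 10, 16]), (8389648, [0, 2, 3, 4], [4, 10, 16, 23]), (8392706, [0, 1, 3, 4], [1, 12, 16, 23]), (32792, [0, 1, 3, 4], [3, 4, 15, 16]), (37890, [0, 1, 2, 3, 4], [1, 10, 12, 15, 16]), (8394240, [0, 1, 2, 3, 4], [9, 10, 12, 16, 23]), (34320, [0, 1, 2, 3, 4], [4, 9, 10, 15, 16]), (8389136, [0, 1, 3, 4], [4, 9, 16, 23]), (8392712, [0, 1, 3, 4], [3, 12, 16, 23]), (2097170, [0, 1, 3, 4], [1, 4, 16, 21])]),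
   (6, 8, [(2098184, [0, 1, 3, 4], [3, 6, 10, 21]), (266242, [0, 2, 3, 4], [1, 6, 12, 18]), (8654848, [1, 2, 3, 4], [6, 12, 18, 23]), (8392706, [0, 1, 2, 4], [1, 6, 12, 23]), (98306, [0, 1, 2, 4], [1, 6, 15, 16]), (98312, [0, 1, 3, 4], [3, 6, 15, 16]), (8389634, [0, 1, 3, 4], [1, 6, 10, 23]), (299520, [0, 1, 2, 3, 4], [6, 9, 12, 15, 18]), (37890, [0, 1, 2, 3, 4], [1, 6, 10, 12, 15]), (8394240, [0, 1, 2, 3, 4], [6, 9, 10, 12, 23]), (2163200, [0, 1, 3, 4], [6, 9, 16, 21]), (2162690, [0, 1, 3, 4], [1, 6, 16, 21]), (294914, [0, 1, 3, 4], [1, 6, 15, 18]), (2359808, [0, 1, 3, 4], [6, 9, 18, 21]), (8454656, [0, 1, 2, 4], [6, 9, 16, 23])]),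
   (8, 7, [(2097176, [0, 1, 3, 4], [3, 4, 8, 21]), (262216, [1, 2, 3, 4], [3, 6, 8, 18]), (2359360, [0, 2, 3, 4], [6, 8, 18, 21]), (2359304, [0, 1, 2, 4], [3, 8, 18, 21]), (2097218, [0, 1, 3, 4], [1, 6, 8, 21]), (2097224, [0, 1, 3, 4], [3, 6, 8, 21])]),
   (19, 7, [(4162, [0, 1, 2, 4], [1, 6, 12, 19]), (2163200, [1, 2, 3, 4], [9, 16, 19, 21]), (66112, [0, 1, 2, 4], [6, 9, 16, 19]), (2129922, [0, 2, 3, 4], [1, 15, 19, 21]), (2097472, [0, 2, 3, 4], [6, 8, 19, 21]), (66562, [0, 1, 2, 4], [1, 10, 16, 19]), (2097728, [0, 2, 3, 4], [6, 9, 19, 21])]),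
   (7, 7, [(2098192, [0, 1, 2, 4], [4, 7, 10, 21]), (2363392, [0, 1, 2, 4], [7, 12, 18, 21]), (2097680, [1, 2, 3, 4], [4, 7, 9, 21]), (2359808, [0, 2, 3, 4], [7, 9, 18, 21]), (2101250, [1, 2, 3, 4], [1, 7, 12, 21]), (262672, [0, 1, 2, 4], [4, 7, 9, 18]), (266242, [0, 2, 3, 4], [1, 7, 12, 18]), (1042, [1, 2, 3, 4], [1, 4, 7, 10]), (2098178, [0, 2, 3, 4], [1, 7, 10, 21])]),
   (2, 6, [(98320, [0, 2, 3, 4], [2, 4, 15, 16]), (8458240, [0, 2, 3, 4], [2, 12, 16, 23]), (66064, [1, 2, 3, 4], [2, 4, 9, 16]), (98306, [0, 1, 2, 4], [1, 2, 15, 16]), (69634, [1, 2, 3, 4], [1, 2, 12, 16]), (8454656, [0, 1, 2, 4], [2, 9, 16, 23]), (528512, [0, 1, 3, 4], [2, 7, 12, 19]), (146, [1, 2, 3, 4], [1, 2, 4, 7]), (274, [1, 2, 3, 4], [1, 2, 4, 8]), (8388880, [0, 2, 3, 4], [2, 4, 8, 23]), (8388866, [0, 1, 2, 4], [1, 2, 8, 23]), (8393344, [0, 1, 2, 3, 4], [2, 7, 9, 12, 23]), (266880, [0, 1, 2, 3, 4], [2, 7, 9, 12, 18])]),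
   (13, 6, [(589888, [0, 1, 2, 4], [6, 13, 16, 19]), (8454152, [0, 2, 3, 4], [3, 13, 16, 23]), (65560, [0, 1, 3, 4], [3, 4, 13, 16]), (8454208, [0, 1, 2, 4], [6, 13, 16, 23]), (8388680, [1, 2, 3, 4], [3, 6, 13, 23]), (65602, [0, 1, 3, 4], [1, 6, 13, 16]), (146, [1, 2, 3, 4], [1, 4, 7, 13]), (262288, [0, 1, 2, 4], [4, 7, 13, 18]), (262274, [0, 2, 3, 4], [1, 7, 13, 18]), (65608, [0, 1, 3, 4], [3, 6, 13, 16])]),
   (14, 5, [(2686976, [1, 2, 3, 4], [14, 16, 19, 21]), (65560, [0, 2, 3, 4], [3, 4, 14, 16]), (524420, [0, 1, 3, 4], [2, 7, 14, 19]), (2162690, [0, 1, 3, 4], [1, 14, 16, 21]), (2097176, [0, 1, 2, 4], [3, 4, 14, 21]), (8472, [0, 1, 2, 3, 4], [3, 4, 8, 13, 14]), (8397064, [0, 1, 2, 3, 4], [3, 8, 13, 14, 23]), (270600, [0, 1, 2, 3, 4], [3, 8, 13, 14, 18]), (2162696, [0, 1, 3, 4], [3, 14, 16, 21]), (532864, [0, 1, 2, 3, 4], [7, 8, 13, 14, 19]), (532740, [0, 1, 2, 3, 4], [2, 8, 13, 14, 19]), (2097296, [0, 1, 2, 4], [4, 7, 14, 21]), (2162704, [1, 2, 3, 4], [4, 14, 16,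 21])]),
   (20, 4, [(8389696, [1, 2, 3, 4], [6, 10, 20, 23]), (262464, [0, 2, 3, 4], [6, 8, 18, 20]), (524420, [0, 1, 3, 4], [2, 7, 19, 20]), (32774, [0, 1, 2, 4], [1, 2, 15, 20]), (524672, [0, 1, 3, 4], [7, 8, 19, 20]), (32834, [0, 1, 2, 4], [1, 6, 15, 20]), (8667136, [1, 2, 3, 4], [14, 18, 20, 23]), (1090, [0, 2, 3, 4], [1, 6, 10, 20]), (532484, [0, 1, 2, 4], [2, 13, 19, 20]), (549120, [0, 1, 2, 3, 4], [8, 13, 14, 19, 20]), (8389184, [0, 1, 2, 4], [6, 9, 20, 23]), (294976, [1, 2, 3, 4], [6, 15, 18, 20]), (1154, [0, 2, 3, 4], [1, 7, 10, 20])]),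
   (17, 3, [(16516, [0, 1, 3, 4], [2, 7, 14, 17]), (1048960, [0, 1, 3, 4], [7, 8, 17, 20]), (1056772, [0, 1, 3, 4], [2, 13, 17, 20]), (1168, [0, 1, 2, 4], [4, 7, 10, 17]), (1310976, [1, 2, 3, 4], [8, 17, 18, 20]), (16404, [0, 2, 3, 4], [2, 4, 14, 17])]),
   (0, 3, [(532608, [0, 2, 3, 4], [0, 7, 13, 19]), (1589248, [0, 2, 3, 4], [0, 14, 19, 20]), (1049216, [0, 1, 3, 4], [0, 7, 9, 20]), (2113664, [0, 1, 2, 4], [0, 7, 14, 21]), (266304, [0, 2, 3, 4], [0, 6, 12, 18]), (1581056, [0, 1, 3, 4], [0, 13, 19, 20]), (2098240, [0, 2, 3, 4], [0, 6, 10, 21])]),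
   (11, 3, [(1048705, [0, 1, 3, 4], [0, 7, 11, 20]), (1048708, [0, 1, 3, 4], [2, 7, 11, 20]), (1073153, [0, 1, 2, 3, 4], [0, 11, 13, 14, 20]), (24705, [0, 1, 2, 3, 4], [0, 7, 11, 13, 14]), (1048706, [0, 2, 3, 4], [1, 7, 11, 20]), (134, [1, 2, 3, 4], [1, 2, 7, 11])]),
   (5, 2, [(524548, [0, 1, 2, 4], [2, 5, 8, 19]), (1064961, [1, 2, 3, 4], [0, 5, 14, 20]), (1589248, [0, 1, 2, 4], [5, 14, 19, 20]), (133121, [1, 2, 3, 4], [0, 5, 11, 17]), (1050628, [0, 1, 2, 4], [2, 5, 11, 20]), (18692, [0, 1, 2, 3, 4], [2, 5, 8, 11, 14]), (1067264, [0, 1, 2, 3, 4], [5, 8, 11, 14, 20]), (524608, [0, 1, 2, 4], [5, 6, 8, 19]), (1573120, [0, 1, 3, 4], [5, 8, 19, 20]), (528388, [0, 1, 2, 4], [2, 5, 12, 19])]),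
   (22, 1, [(8321, [0, 1, 2, 4], [0, 7, 13, 22]), (532608, [1, 2, 3, 4], [7, 13, 19, 22]), (2081, [0, 1, 3, 4], [0, 5, 11, 22]), (133121, [0, 1, 2, 4], [0, 11, 17, 22]), (131105, [0, 1, 3, 4], [0, 5, 17, 22]), (133152, [0, 2, 3, 4], [5, 11, 17, 22]), (524548, [1, 2, 3, 4], [2, 8, 19, 22]), (292, [0, 2, 3, 4], [2, 5, 8, 22])])]

theorem chk12 : chk items12 = true ∧ okAll vecs12 3 items12 = true ∧
    okV vecs12 [[1], [0, 2, -2], [0, 2, -2]] = true ∧ okI vecs12.length items12 = true := by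
  decide +kernel

theorem chk31 : chk items31 = true ∧ okAll vecs31 4 items31 = true ∧
    okV vecs31 [[1], [1, -1], [1, -1], [0, 2, -2]] = true ∧ okI vecs31.length items31 = true := by
  decide +kernel

theorem chk22 : chk items22 = true ∧ okAll vecs22 4 items22 = true ∧
    okV vecs22 [[1], [1, -1], [0, 2, -2], [0, 2, -2]] = true ∧
    okI vecs22.length items22 = true := by
  decide +kernel

theorem chk13 : chk items13 = true ∧ okAll vecs13 4 items13 = true ∧
    okV vecs13 [[1], [0, 2, -2], [0, 2, -2], [0, 2, -2]] = true ∧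
    okI vecs13.length items13 = true := by
  decide +kernel

theorem chk41 : chk items41 = true ∧ okAll vecs41 5 items41 = true ∧
    okV vecs41 [[1], [1, -1], [1, -1], [1, -1], [0, 2, -2]] = true ∧
    okI vecs41.length items41 = true := by
  decide +kernel

end Pool.Agent.Lib.MP_74dbbd_co
end

section

/-!
The bound for half-integral shifts.
-/

namespace Pool.Agent.Lib.MP_74dbbd_co

open Finset Matrix

set_option linter.unusedSectionVars false

variable {ι : Type} [Fintype ι] [DecidableEq ι]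

/-- Closed under negation. -/
def Sym (Y : Finset (ι → ℤ)) : Prop := ∀ y ∈ Y, -y ∈ Y

theorem sym_Sym (Y : Finset (ι → ℤ)) : Sym (sym Y) := by
  intro y hy
  rw [mem_sym] at hy ⊢
  rw [neg_neg]
  exact hy.symm

theorem Sym.del {Y : Finset (ι → ℤ)} (h : Sym Y) (i : ι) : Sym (del i Y) := by
  intro z hz
  obtain ⟨y, hy, rfl⟩ := mem_del.1 hz
  exact mem_del.2 ⟨-y, h y hy, rfl⟩

theorem card_eq_two_mul {H : Finset ι} {Y : Finset (ι → ℤ)} (hY : Cls H Y) (hs : Sym Y) {i0 : ι}
    (hi0 : i0 ∈ H) : Y.card = 2 * (Y.filter fun y => y i0 = 1).card := by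
  classical
  have h1 : Y = (Y.filter fun y => y i0 = 1) ∪ (Y.filter fun y => y i0 = -1) := by
    ext y
    rw [mem_union, mem_filter, mem_filter]
    constructor
    · intro hy
      rcases hY.odd y hy i0 hi0 with h | h
      · exact Or.inl ⟨hy, h⟩
      · exact Or.inr ⟨hy, h⟩
    · rintro (h | h)
      · exact h.1
      · exact h.1
  have h2 : Disjoint (Y.filter fun y => y i0 = 1) (Y.filter fun y => y i0 = -1) := by
    rw [Finset.disjoint_left]
    intro y hy hy'
    rw [mem_filter] at hy hy'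
    have := hy.2.symm.trans hy'.2
    exact absurd this (by decide)
  have h3 : (Y.filter fun y => y i0 = -1) = (Y.filter fun y => y i0 = 1).image fun y => -y := by
    ext y
    rw [mem_filter, mem_image]
    constructor
    · rintro ⟨hy, h⟩
      exact ⟨-y, mem_filter.2 ⟨hs y hy, by simp [h]⟩, neg_neg y⟩
    · rintro ⟨z, hz, rfl⟩
      rw [mem_filter] at hz
      exact ⟨hs z hz.1, by simp [hz.2]⟩
  have h4 : (Y.filter fun y => y i0 = -1).card = (Y.filter fun y => y i0 = 1).card := by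
    rw [h3]
    exact card_image_of_injective _ neg_injective
  calc Y.card = ((Y.filter fun y => y i0 = 1) ∪ (Y.filter fun y => y i0 = -1)).card := by
        rw [← h1]
    _ = _ := by rw [card_union_of_disjoint h2, h4]; ring

theorem exists_equiv (H : Finset ι) {h z : ℕ} (hH : H.card = h) (hc : Fintype.card ι = h + z) :
    ∃ e : ι ≃ Fin (h + z), ∀ i, i ∈ H ↔ (e i : ℕ) < h := by
  classical
  have h1 : Fintype.card {i // i ∈ H} = h := by rw [Fintype.card_coe]; exact hH
  have h2 : Fintype.card {i // i ∉ H} = z := by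
    have := Fintype.card_subtype_compl fun i => i ∈ H
    rw [hc, h1] at this
    omega
  let e1 : {i // i ∈ H} ≃ Fin h := Fintype.equivFinOfCardEq h1
  let e2 : {i // i ∉ H} ≃ Fin z := Fintype.equivFinOfCardEq h2
  let e : ι ≃ Fin (h + z) :=
    ((Equiv.sumCompl fun i => i ∈ H).symm.trans (Equiv.sumCongr e1 e2)).trans finSumFinEquiv
  refine ⟨e, fun i => ?_⟩
  by_cases hi : i ∈ H
  · have : e i = finSumFinEquiv (Sum.inl (e1 ⟨i, hi⟩)) := by
      simp [e, Equiv.sumCompl_symm_apply_of_pos hi]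
    rw [this, finSumFinEquiv_apply_left]
    simp [hi]
  · have : e i = finSumFinEquiv (Sum.inr (e2 ⟨i, hi⟩)) := by
      simp [e, Equiv.sumCompl_symm_apply_of_neg hi]
    rw [this, finSumFinEquiv_apply_right]
    simp [hi]

theorem comp_bound {h z : ℕ} (hh : 0 < h) (V D : List (List ℤ)) (l : List Item)
    (hD : D.length = h + z)
    (hchk : chk l = true ∧ okAll V (h + z) l = true ∧ okV V D = true ∧ okI V.length l = true)
    (hD0 : D.getD 0 [] = [1]) (hD1 : ∀ a, 0 < a → a < h → D.getD a [] = [1, -1])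
    (hD2 : ∀ a, h ≤ a → a < h + z → D.getD a [] = [0, 2, -2])
    {H : Finset ι} (hH : H.card = h) (hc : Fintype.card ι = h + z) {Y : Finset (ι → ℤ)}
    (hY : Cls H Y) (hs : Sym Y) : Y.card ≤ 2 * bnd l := by
  obtain ⟨e, he⟩ := exists_equiv H hH hc
  have h0 : 0 < h + z := by omega
  set i0 : ι := e.symm ⟨0, h0⟩ with hi0
  have hi0H : i0 ∈ H := by
    rw [he, hi0, Equiv.apply_symm_apply]
    exact hh
  rw [card_eq_two_mul hY hs hi0H]
  refine Nat.mul_le_mul_left 2 ?_
  refine comp e i0 V D l hD hchk.1 hchk.2.1 hchk.2.2.1 hchk.2.2.2 hY.ts ?_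
  intro y hy hy1 i
  by_cases hi : i ∈ H
  · rcases Nat.eq_zero_or_pos (e i : ℕ) with hz | hz
    · have : i = i0 := by
        rw [hi0, Equiv.eq_symm_apply]
        exact Fin.ext hz
      rw [hz, hD0, this, hy1]
      exact List.mem_singleton.2 rfl
    · rw [hD1 _ hz ((he i).1 hi)]
      rcases hY.odd y hy i hi with h | h <;> rw [h] <;> decide
  · rw [hD2 _ (Nat.le_of_not_lt fun h => hi ((he i).2 h)) (e i).2]
    rcases hY.even y hy i hi with h | h | h <;> rw [h] <;> decide

theorem bound12 {H : Finset ι} (hH : H.card = 1) (hc : Fintype.card ι = 3) {Y : Finset (ι → ℤ)}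
    (hY : Cls H Y) (hs : Sym Y) : Y.card ≤ 12 :=
  comp_bound (h := 1) (z := 2) (by decide) vecs12 _ items12 rfl chk12 rfl
    (by intro a h1 h2; omega) (by intro a h1 h2; interval_cases a <;> rfl) hH hc hY hs

theorem bound31 {H : Finset ι} (hH : H.card = 3) (hc : Fintype.card ι = 4) {Y : Finset (ι → ℤ)}
    (hY : Cls H Y) (hs : Sym Y) : Y.card ≤ 18 :=
  comp_bound (h := 3) (z := 1) (by decide) vecs31 _ items31 rfl chk31 rfl
    (by intro a h1 h2; interval_cases a <;> rfl) (by intro a h1 h2; interval_cases a; rfl)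
    hH hc hY hs

theorem bound22 {H : Finset ι} (hH : H.card = 2) (hc : Fintype.card ι = 4) {Y : Finset (ι → ℤ)}
    (hY : Cls H Y) (hs : Sym Y) : Y.card ≤ 16 :=
  comp_bound (h := 2) (z := 2) (by decide) vecs22 _ items22 rfl chk22 rfl
    (by intro a h1 h2; interval_cases a; rfl) (by intro a h1 h2; interval_cases a <;> rfl)
    hH hc hY hs

theorem bound13 {H : Finset ι} (hH : H.card = 1) (hc : Fintype.card ι = 4) {Y : Finset (ι → ℤ)}
    (hY : Cls H Y) (hs : Sym Y) : Y.card ≤ 16 :=
  comp_bound (h := 1) (z := 3) (by decide) vecs13 _ items13 rfl chk13 rfl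
    (by intro a h1 h2; omega) (by intro a h1 h2; interval_cases a <;> rfl)
    hH hc hY hs

theorem bound41 {H : Finset ι} (hH : H.card = 4) (hc : Fintype.card ι = 5) {Y : Finset (ι → ℤ)}
    (hY : Cls H Y) (hs : Sym Y) : Y.card ≤ 26 :=
  comp_bound (h := 4) (z := 1) (by decide) vecs41 _ items41 rfl chk41 rfl
    (by intro a h1 h2; interval_cases a <;> rfl) (by intro a h1 h2; interval_cases a; rfl)
    hH hc hY hs

theorem card_subtype_mem {H : Finset ι} {i : ι} (hi : i ∈ H) :
    (H.subtype fun j => j ≠ i).card = H.card - 1 := by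
  rw [Finset.card_subtype, Finset.filter_ne', card_erase_of_mem hi]

theorem card_subtype_notMem {H : Finset ι} {i : ι} (hi : i ∉ H) :
    (H.subtype fun j => j ≠ i).card = H.card := by
  rw [Finset.card_subtype, Finset.filter_ne', erase_eq_of_notMem hi]

theorem card_ne (i : ι) : Fintype.card {j // j ≠ i} = Fintype.card ι - 1 := by
  rw [Fintype.card_subtype_compl, Fintype.card_subtype_eq]

theorem bound4 {H : Finset ι} (hH : H.Nonempty) (hc : Fintype.card ι = 4) {Y : Finset (ι → ℤ)}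
    (hY : Cls H Y) (hs : Sym Y) :
    Y.card ≤ 18 ∧ (H.card ≠ 3 → Y.card ≤ 16) := by
  have h1 : 0 < H.card := Finset.card_pos.2 hH
  have h2 : H.card ≤ 4 := by rw [← hc]; exact card_le_univ H
  have h3 : H.card = 1 ∨ H.card = 2 ∨ H.card = 3 ∨ H.card = 4 := by omega
  rcases h3 with h | h | h | h
  · have := bound13 h hc hY hs
    exact ⟨by omega, fun _ => this⟩
  · have := bound22 h hc hY hs
    exact ⟨by omega, fun _ => this⟩
  · exact ⟨bound31 h hc hY hs, fun h' => absurd h h'⟩
  · have := hY.card_le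
    rw [h, hc] at this
    norm_num at this
    exact ⟨by omega, fun _ => this⟩

theorem exists_light {H : Finset ι} {Y : Finset (ι → ℤ)} (hY : Cls H Y) (hH : H.card ≤ 3)
    (hne : Y.Nonempty) : ∃ y ∈ Y, Wt Y y ≤ 3 := by
  classical
  obtain ⟨y, hy, hmin⟩ := Finset.exists_min_image Y
    (fun y => (univ.filter fun i => i ∉ H ∧ y i ≠ 0).card) hne
  refine ⟨y, hy, ?_⟩
  by_cases hd : ∃ j, W Y j y = 1 ∧ (y j = 2 ∨ y j = -2)
  · obtain ⟨j, hj, hj2⟩ := hd
    exact (star_le hY.ts y).2 j hj hj2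
  · have h1 : ∀ i, i ∉ H → W Y i y = 0 := by
      intro i hi
      rcases hY.even y hy i hi with h | h
      · unfold W; rw [h]; rfl
      · have h0 : Function.update y i 0 ∉ Y := by
          intro hu
          have h2 := hmin _ hu
          have h3 : (univ.filter fun j => j ∉ H ∧ Function.update y i 0 j ≠ 0) ⊂
              (univ.filter fun j => j ∉ H ∧ y j ≠ 0) := by
            rw [Finset.ssubset_iff_of_subset]
            · refine ⟨i, mem_filter.2 ⟨mem_univ _, hi, by omega⟩, fun hh => ?_⟩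
              rw [mem_filter, Function.update_self] at hh
              exact hh.2.2 rfl
            · intro j hj
              rw [mem_filter] at hj ⊢
              refine ⟨hj.1, hj.2.1, ?_⟩
              by_cases hji : j = i
              · rw [hji, Function.update_self] at hj
                exact absurd rfl hj.2.2
              · rw [Function.update_of_ne hji] at hj
                exact hj.2.2
          have h4 := card_lt_card h3
          omega
        by_contra hW
        have h5 : W Y i y ≠ 1 := fun h' => hd ⟨i, h', h⟩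
        unfold W at hW h5
        rw [if_neg (by omega), if_pos h, if_neg h0] at hW h5
        split_ifs at hW h5
        · exact h5 rfl
        · exact hW rfl
    have h2 : Wt Y y = ∑ i ∈ H, W Y i y := by
      unfold Wt
      refine (Finset.sum_subset (subset_univ H) fun i _ hi => h1 i hi).symm
    rw [h2]
    have h3 : ∑ i ∈ H, W Y i y ≤ ∑ i ∈ H, 1 := by
      refine Finset.sum_le_sum fun i hi => ?_
      unfold W
      rw [if_pos (hY.odd y hy i hi)]
      split_ifs <;> decide
    rw [Finset.sum_const, nsmul_eq_mul, mul_one] at h3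
    have : (H.card : ℤ) ≤ 3 := by exact_mod_cast hH
    linarith

theorem sum_nonneg' {H : Finset ι} {Y : Finset (ι → ℤ)} (hY : Cls H Y) :
    0 ≤ ∑ y ∈ Y, (4 - Wt Y y) :=
  Finset.sum_nonneg fun y _ => by
    have := Wt_le hY.ts y
    linarith

theorem sum_split {H : Finset ι} {f : ι → ℤ} {a b : ℤ} (ha : ∀ i ∈ H, f i ≤ a)
    (hb : ∀ i, i ∉ H → f i ≤ b) :
    ∑ i, f i ≤ H.card * a + (Fintype.card ι - H.card) * b := by
  classical
  rw [← Finset.sum_add_sum_compl H f]
  have h1 : ∑ i ∈ H, f i ≤ ∑ i ∈ H, a := Finset.sum_le_sum ha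
  have h2 : ∑ i ∈ Hᶜ, f i ≤ ∑ i ∈ Hᶜ, b :=
    Finset.sum_le_sum fun i hi => hb i (mem_compl.1 hi)
  rw [Finset.sum_const, nsmul_eq_mul] at h1 h2
  rw [Finset.card_compl, Nat.cast_sub (card_le_univ H)] at h2
  linarith

/-- The inductive step for a single odd row. -/
theorem one_step {n : ℕ} (hn : 5 ≤ n) (hc : Fintype.card ι = n) {H : Finset ι} {i0 : ι}
    (hH : H = {i0}) {Y : Finset (ι → ℤ)} (hY : Cls H Y) (hs : Sym Y)
    (hdel : ∀ i, i ≠ i0 → (del i Y).card + 4 ≤ (n - 1) ^ 2 + (n - 1)) :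
    Y.card + 4 ≤ n ^ 2 + n := by
  obtain ⟨m, rfl⟩ : ∃ m, n = m + 1 := ⟨n - 1, by omega⟩
  simp only [Nat.add_sub_cancel] at hdel
  have hi0 : i0 ∈ H := by rw [hH]; exact mem_singleton_self _
  have h0 : ((del i0 Y).card : ℤ) ≤ m ^ 2 + m + 1 := by
    have h1 := heller m {j // j ≠ i0} (by rw [card_ne, hc]; rfl) (del i0 Y) (by
      have := hY.del i0
      have e : H.subtype (fun j => j ≠ i0) = ∅ := by
        rw [← Finset.card_eq_zero, card_subtype_mem hi0, hH, card_singleton]
      rwa [e] at this)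
    exact_mod_cast h1
  have h1 : ∀ i, i ∉ H → ((del i Y).card : ℤ) ≤ m ^ 2 + m - 4 := by
    intro i hi
    have h2 := hdel i (fun h => hi (h ▸ hi0))
    have h3 : ((del i Y).card : ℤ) + 4 ≤ m ^ 2 + m := by exact_mod_cast h2
    linarith
  have hsum : ∑ i, ((del i Y).card : ℤ) ≤ 1 * ((m : ℤ) ^ 2 + m + 1) + m * (m ^ 2 + m - 4) := by
    have h2 := sum_split (H := H) (f := fun i => ((del i Y).card : ℤ)) (a := (m : ℤ) ^ 2 + m + 1)
      (b := (m : ℤ) ^ 2 + m - 4) (by
        intro i hi
        rw [hH, mem_singleton] at hi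
        rw [hi]
        exact h0) h1
    rw [hc, hH, card_singleton] at h2
    push_cast at h2
    linarith
  have havg := avg hY
  have hfib := fib_sum hY i0
  have h3 : ∀ y ∈ Y, W Y i0 y ≤ 4 - Wt Y y := by
    intro y hy
    have h4 := Wt_le hY.ts y
    by_cases hW : W Y i0 y = 1
    · have := Wt_le_three_of_odd hY hH hy hW
      linarith
    · have h5 : W Y i0 y = 0 := by
        unfold W at hW ⊢
        rw [if_pos (hY.odd y hy i0 hi0)] at hW ⊢
        split_ifs at hW ⊢
        · exact absurd rfl hW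
        · rfl
      linarith
  have h4 := Finset.sum_le_sum h3
  rw [Finset.sum_sub_distrib, Finset.sum_const, nsmul_eq_mul] at hfib
  rw [hc] at havg
  push_cast at havg
  have h5 : (m : ℤ) * Y.card ≤ m * (m ^ 2 + 3 * m) - (2 * m - 2) := by nlinarith
  have hm : (4 : ℤ) ≤ m := by
    have : 4 ≤ m := by omega
    exact_mod_cast this
  have h6 : (Y.card : ℤ) < m ^ 2 + 3 * m := by
    by_contra hcon
    push Not at hcon
    have := mul_le_mul_of_nonneg_left hcon (show (0 : ℤ) ≤ m by linarith)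
    linarith
  have h7 : Y.card < m ^ 2 + 3 * m := by exact_mod_cast h6
  have h8 := card_eq_two_mul hY hs hi0
  obtain ⟨q, hq⟩ : ∃ q, m ^ 2 + 3 * m = 2 * q := by
    have : Even (m ^ 2 + 3 * m) := by
      have := Nat.even_mul_succ_self m
      have e : m ^ 2 + 3 * m = m * (m + 1) + 2 * m := by ring
      rw [e]
      exact this.add (even_two_mul m)
    obtain ⟨q, hq⟩ := this
    exact ⟨q, by omega⟩
  have h9 : (m + 1) ^ 2 + (m + 1) = m ^ 2 + 3 * m + 2 := by ring
  omega

/-- The bound for half-integral shifts, with at least five rows. -/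
theorem half_bound (n : ℕ) (hn : 5 ≤ n) : ∀ (ι : Type) [Fintype ι] [DecidableEq ι]
    (_ : Fintype.card ι = n) (H : Finset ι) (_ : H.Nonempty) (Y : Finset (ι → ℤ)) (_ : Cls H Y)
    (_ : Sym Y), Y.card + 4 ≤ n ^ 2 + n := by
  induction n, hn using Nat.le_induction with
  | base =>
    intro ι _ _ hc H hH Y hY hs
    have h1 : 0 < H.card := Finset.card_pos.2 hH
    have h2 : H.card ≤ 5 := by rw [← hc]; exact card_le_univ H
    obtain ⟨i0, hi0⟩ := hH
    have heven := card_eq_two_mul hY hs hi0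
    have hcd : ∀ i : ι, Fintype.card {j // j ≠ i} = 4 := fun i => by rw [card_ne, hc]
    have havg := avg hY
    rw [hc] at havg
    have h3 : H.card = 1 ∨ H.card = 2 ∨ H.card = 3 ∨ H.card = 4 ∨ H.card = 5 := by omega
    have hnn := sum_nonneg' hY
    rcases h3 with h | h | h | h | h
    · obtain ⟨i1, hi1⟩ := Finset.card_eq_one.1 h
      refine one_step (le_refl 5) hc hi1 hY hs fun i hi => ?_
      have hiH : i ∉ H := by rw [hi1, mem_singleton]; exact hi
      have := bound13 (H := H.subtype fun j => j ≠ i) (by rw [card_subtype_notMem hiH, h])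
        (hcd i) (hY.del i) (hs.del i)
      omega
    · have hs1 : ∑ i, ((del i Y).card : ℤ) ≤ 80 := by
        have := sum_split (H := H) (f := fun i => ((del i Y).card : ℤ)) (a := 16) (b := 16)
          (by
            intro i hi
            have := bound13 (H := H.subtype fun j => j ≠ i) (by rw [card_subtype_mem hi, h])
              (hcd i) (hY.del i) (hs.del i)
            exact_mod_cast this) (by
            intro i hi
            have := bound22 (H := H.subtype fun j => j ≠ i) (by rw [card_subtype_notMem hi, h])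
              (hcd i) (hY.del i) (hs.del i)
            exact_mod_cast this)
        rw [hc, h] at this
        norm_num at this
        exact this
      omega
    · have hs1 : ∑ i, ((del i Y).card : ℤ) ≤ 84 := by
        have := sum_split (H := H) (f := fun i => ((del i Y).card : ℤ)) (a := 16) (b := 18)
          (by
            intro i hi
            have := bound22 (H := H.subtype fun j => j ≠ i) (by rw [card_subtype_mem hi, h])
              (hcd i) (hY.del i) (hs.del i)
            exact_mod_cast this) (by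
            intro i hi
            have := bound31 (H := H.subtype fun j => j ≠ i) (by rw [card_subtype_notMem hi, h])
              (hcd i) (hY.del i) (hs.del i)
            exact_mod_cast this)
        rw [hc, h] at this
        norm_num at this
        exact this
      rcases Y.eq_empty_or_nonempty with hYe | hYne
      · rw [hYe, card_empty]; norm_num
      · obtain ⟨y, hy, hy3⟩ := exists_light hY (le_of_eq h) hYne
        have hpos : 1 ≤ ∑ y ∈ Y, (4 - Wt Y y) := by
          refine le_trans (by linarith : (1 : ℤ) ≤ 4 - Wt Y y) ?_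
          exact Finset.single_le_sum (f := fun y => 4 - Wt Y y) (fun z _ => by
            have := Wt_le hY.ts z
            linarith) hy
        omega
    · have := bound41 h hc hY hs
      omega
    · have hs1 : ∑ i, ((del i Y).card : ℤ) ≤ 80 := by
        have := sum_split (H := H) (f := fun i => ((del i Y).card : ℤ)) (a := 16) (b := 16)
          (by
            intro i hi
            have h4 := (hY.del i).card_le
            rw [card_subtype_mem hi, h, hcd] at h4
            norm_num at h4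
            exact_mod_cast h4) (by
            intro i hi
            exfalso
            have : H = univ := Finset.eq_univ_of_card H (by rw [h, hc])
            exact hi (this ▸ mem_univ i))
        rw [hc, h] at this
        norm_num at this
        exact this
      omega
  | succ n hn ih =>
    intro ι _ _ hc H hH Y hY hs
    obtain ⟨i0, hi0⟩ := hH
    have hcd : ∀ i : ι, Fintype.card {j // j ≠ i} = n := fun i => by rw [card_ne, hc]; rfl
    by_cases h1 : H.card = 1
    · obtain ⟨i1, hi1⟩ := Finset.card_eq_one.1 h1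
      refine one_step (by omega) hc hi1 hY hs fun i hi => ?_
      have hiH : i ∉ H := by rw [hi1, mem_singleton]; exact hi
      have := ih {j // j ≠ i} (hcd i) (H.subtype fun j => j ≠ i) (by
        rw [← Finset.card_pos, card_subtype_notMem hiH, h1]; decide) (del i Y) (hY.del i)
        (hs.del i)
      simpa using this
    · have hpos : 0 < H.card := Finset.card_pos.2 ⟨i0, hi0⟩
      have hdel : ∀ i, ((del i Y).card : ℤ) ≤ n ^ 2 + n - 4 := by
        intro i
        have := ih {j // j ≠ i} (hcd i) (H.subtype fun j => j ≠ i) (by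
          rw [← Finset.card_pos]
          by_cases hi : i ∈ H
          · rw [card_subtype_mem hi]; omega
          · rw [card_subtype_notMem hi]; omega) (del i Y) (hY.del i) (hs.del i)
        have h3 : ((del i Y).card : ℤ) + 4 ≤ n ^ 2 + n := by exact_mod_cast this
        linarith
      have hsum : ∑ i, ((del i Y).card : ℤ) ≤ (n + 1) * ((n : ℤ) ^ 2 + n - 4) := by
        refine le_trans (Finset.sum_le_sum fun i _ => hdel i) ?_
        rw [Finset.sum_const, card_univ, hc, nsmul_eq_mul]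
        push_cast
        exact le_refl _
      have havg := avg hY
      have hnn := sum_nonneg' hY
      rw [hc] at havg
      push_cast at havg
      have hn5 : (5 : ℤ) ≤ n := by exact_mod_cast hn
      have h6 : (Y.card : ℤ) < n ^ 2 + 3 * n := by
        by_contra hcon
        push Not at hcon
        have := mul_le_mul_of_nonneg_left hcon (show (0 : ℤ) ≤ 2 * (n + 1 - 2) by linarith)
        nlinarith
      have h7 : Y.card < n ^ 2 + 3 * n := by exact_mod_cast h6
      have h8 := card_eq_two_mul hY hs hi0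
      obtain ⟨q, hq⟩ : ∃ q, n ^ 2 + 3 * n = 2 * q := by
        have : Even (n ^ 2 + 3 * n) := by
          have := Nat.even_mul_succ_self n
          have e : n ^ 2 + 3 * n = n * (n + 1) + 2 * n := by ring
          rw [e]
          exact this.add (even_two_mul n)
        obtain ⟨q, hq⟩ := this
        exact ⟨q, by omega⟩
      have h9 : (n + 1) ^ 2 + (n + 1) = n ^ 2 + 3 * n + 2 := by ring
      omega

/-- The bound for half-integral shifts. -/
theorem half_all {H : Finset ι} (hH : H.Nonempty) {Y : Finset (ι → ℤ)} (hY : Cls H Y) :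
    Y.card ≤ (Fintype.card ι) ^ 2 + Fintype.card ι := by
  have hsub : Y.card ≤ (sym Y).card := card_le_card fun y hy => mem_sym.2 (Or.inl hy)
  refine le_trans hsub ?_
  have hY' := hY.sym
  have hs := sym_Sym Y
  set Y' := sym Y
  obtain ⟨n, hc⟩ : ∃ n, Fintype.card ι = n := ⟨_, rfl⟩
  have h1 : 0 < H.card := Finset.card_pos.2 hH
  have h2 : H.card ≤ n := by rw [← hc]; exact card_le_univ H
  rw [hc]
  rcases Nat.lt_or_ge n 5 with h5 | h5
  · have htriv := hY'.card_le
    rw [hc] at htriv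
    interval_cases n
    · omega
    · have : H.card = 1 := by omega
      rw [this] at htriv
      norm_num at htriv ⊢
      exact htriv
    · have : H.card = 1 ∨ H.card = 2 := by omega
      rcases this with h | h <;> rw [h] at htriv <;> norm_num at htriv ⊢ <;> omega
    · have : H.card = 1 ∨ H.card = 2 ∨ H.card = 3 := by omega
      rcases this with h | h | h
      · have := bound12 h hc hY' hs
        omega
      · rw [h] at htriv
        norm_num at htriv ⊢
        omega
      · rw [h] at htriv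
        norm_num at htriv ⊢
        omega
    · have := (bound4 hH hc hY' hs).1
      omega
  · have := half_bound n h5 ι hc H hH Y' hY' hs
    omega

end Pool.Agent.Lib.MP_74dbbd_co
end

section

/-!
The bound for all shifts.
-/

namespace Pool.Agent.Lib.MP_74dbbd_co

open Finset Matrix

set_option linter.unusedSectionVars false

variable {ι : Type} [Fintype ι] [DecidableEq ι]

/-- The doubled vector. -/
noncomputable def dbv (t : ι → ℝ) (a : ι → ℤ) : ι → ℤ :=
  open Classical in fun j => 2 * a j + if t j = 1 / 2 then 1 else 0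

theorem dbv_cast {t : ι → ℝ} (hB : ∀ j, t j = 0 ∨ t j = 1 / 2) (a : ι → ℤ) (j : ι) :
    ((dbv t a j : ℤ) : ℝ) = 2 * (t j + a j) := by
  unfold dbv
  split_ifs with h
  · rw [h]; push_cast; ring
  · rcases hB j with h' | h'
    · rw [h']; push_cast; ring
    · exact absurd h' h

theorem dbv_inj (t : ι → ℝ) : Function.Injective (dbv t) := by
  intro a b h
  funext j
  have := congrFun h j
  unfold dbv at this
  omega

theorem half_case {t : ι → ℝ} (hB : ∀ j, t j = 0 ∨ t j = 1 / 2) {S : Finset (ι → ℤ)}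
    (h : TS t S) : S.card ≤ (Fintype.card ι) ^ 2 + Fintype.card ι + 1 ∧
      ((∃ j, t j ≠ 0) → S.card ≤ (Fintype.card ι) ^ 2 + Fintype.card ι) := by
  classical
  set Y : Finset (ι → ℤ) := S.image (dbv t) with hYdef
  have hcard : Y.card = S.card := card_image_of_injective _ (dbv_inj t)
  set H : Finset ι := univ.filter fun j => t j = 1 / 2 with hH
  have hY : Cls H Y := by
    refine ⟨?_, ?_, ?_⟩
    · intro y hy i hi
      obtain ⟨a, ha, rfl⟩ := mem_image.1 hy
      have hi' : t i = 1 / 2 := (mem_filter.1 hi).2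
      have h1 := h.ge ha (j := i) (by rw [hi']; norm_num)
      have h2 := h.le' ha (j := i) (by rw [hi']; norm_num)
      unfold dbv
      simp only [hi', if_true]
      omega
    · intro y hy i hi
      obtain ⟨a, ha, rfl⟩ := mem_image.1 hy
      have hi1 : ¬ t i = 1 / 2 := fun h' => hi (mem_filter.2 ⟨mem_univ i, h'⟩)
      have hi' : t i = 0 := (hB i).resolve_right hi1
      have h1 := h.ge ha (j := i) (by rw [hi']; norm_num)
      have h2 := h.le ha (j := i) (by rw [hi'])
      unfold dbv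
      rw [if_neg hi1]
      omega
    · intro k r y hy
      have h1 : ∀ b, ∃ a ∈ S, dbv t a = y b := fun b => mem_image.1 (hy b)
      choose a ha hay using h1
      have h2 := h k r a ha
      have h3 : (((Matrix.of fun p q => y q (r p)).det : ℤ) : ℝ) =
          2 ^ k * (Matrix.of fun x z => t (r x) + (a z (r x) : ℝ)).det := by
        have e1 : (((Matrix.of fun p q => y q (r p)).det : ℤ) : ℝ) =
            ((Matrix.of fun p q => y q (r p)).map fun x : ℤ => (x : ℝ)).det :=
          Int.cast_det _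
        rw [e1]
        have e2 : ((Matrix.of fun p q => y q (r p)).map fun x : ℤ => (x : ℝ)) =
            (2 : ℝ) • (Matrix.of fun x z => t (r x) + (a z (r x) : ℝ)) := by
          ext p q
          simp only [Matrix.map_apply, Matrix.of_apply, Matrix.smul_apply, smul_eq_mul]
          rw [← hay q, dbv_cast hB]
        rw [e2, Matrix.det_smul, Fintype.card_fin]
      have h4 : |(((Matrix.of fun p q => y q (r p)).det : ℤ) : ℝ)| ≤ 2 ^ k := by
        rw [h3, abs_mul, abs_of_pos (show (0 : ℝ) < 2 ^ k by positivity)]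
        have := mul_le_mul_of_nonneg_left h2 (show (0 : ℝ) ≤ 2 ^ k by positivity)
        rwa [mul_one] at this
      exact_mod_cast h4
  rw [← hcard]
  rcases H.eq_empty_or_nonempty with he | hne
  · rw [he] at hY
    refine ⟨heller _ ι rfl Y hY, ?_⟩
    rintro ⟨j, hj⟩
    exfalso
    have : j ∈ H := mem_filter.2 ⟨mem_univ j, (hB j).resolve_left hj⟩
    rw [he] at this
    exact notMem_empty j this
  · have := half_all hne hY
    exact ⟨by omega, fun _ => this⟩

/-- The bound for all shifts. -/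
theorem main_bound (n : ℕ) : ∀ (ι : Type) [Fintype ι] [DecidableEq ι] (_ : Fintype.card ι = n)
    (t : ι → ℝ) (_ : ∀ j, 0 ≤ t j) (_ : ∀ j, t j < 1) (S : Finset (ι → ℤ)) (_ : TS t S),
    S.card ≤ n ^ 2 + n + 1 ∧ ((∃ j, t j ≠ 0) → S.card ≤ n ^ 2 + n) := by
  induction n with
  | zero =>
    intro ι _ _ hc t _ _ S _
    have : IsEmpty ι := Fintype.card_eq_zero_iff.1 hc
    refine ⟨?_, ?_⟩
    · have := Finset.card_le_one_of_subsingleton S
      simpa using this
    · rintro ⟨j, _⟩
      exact isEmptyElim j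
  | succ n ih =>
    intro ι _ _ hc t ht0 ht1 S hS
    by_cases hgen : ∃ i, t i ≠ 0 ∧ t i ≠ 1 / 2
    · classical
      obtain ⟨i, hi, hmax⟩ := Finset.exists_max_image
        (univ.filter fun i => t i ≠ 0 ∧ t i ≠ 1 / 2) (fun i => |2 * t i - 1|) (by
          obtain ⟨i, hi⟩ := hgen
          exact ⟨i, mem_filter.2 ⟨mem_univ i, hi⟩⟩)
      rw [mem_filter] at hi
      have h1 := gen_step hS ht0 ht1 hi.2.1 hi.2.2 (by
        intro j _
        by_cases hj0 : t j = 0
        · exact Or.inl hj0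
        · right
          by_cases hj1 : t j = 1 / 2
          · rw [hj1]
            have : |2 * (1 / 2 : ℝ) - 1| = 0 := by norm_num
            rw [this]
            exact abs_nonneg _
          · exact hmax j (mem_filter.2 ⟨mem_univ j, hj0, hj1⟩))
      have h2 := (ih {j // j ≠ i} (by rw [card_ne, hc]; rfl) (fun j => t j) (fun j => ht0 j)
        (fun j => ht1 j) (del i S) (hS.del i)).1
      rw [hc] at h1
      have h3 : S.card ≤ (n + 1) ^ 2 + (n + 1) := by
        have : (n + 1) ^ 2 + (n + 1) = n ^ 2 + n + 1 + (2 * (n + 1 - 1) + 1) := by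
          rw [Nat.add_sub_cancel]; ring
        omega
      exact ⟨by omega, fun _ => h3⟩
    · push Not at hgen
      have hB : ∀ j, t j = 0 ∨ t j = 1 / 2 := fun j => by
        by_cases hj : t j = 0
        · exact Or.inl hj
        · exact Or.inr (hgen j hj)
      have := half_case hB hS
      rw [hc] at this
      exact this

end Pool.Agent.Lib.MP_74dbbd_co
end
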